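import Pool.Agent.Lib.MP_f58a57_nt.N.Gamma
import Pool.Agent.Lib.MP_f58a57_nt.G2_Link

/-! # From `z, j(z), j'(z), j''(z)` to the data of the curve (MP_f58a57_nt, algebraic `j`) -/

open Complex IntermediateField

noncomputable section

namespace Pool.Agent.MSN

open MSD

theorem link2' (z Ω : ℂ) (hz : 0 < z.im) (hΩ : Ω ≠ 0) (hj : deriv jj z ≠ 0) :
    e2 z / Ω ^ 2 = 6 * (deriv (deriv jj) z / deriv jj z / (2 * I * (Real.pi * Ω ^ 2))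
      + 2 / 3 * ((e6 z / Ω ^ 6) / (e4 z / Ω ^ 4)) + (e4 z / Ω ^ 4) ^ 2 / (2 * (e6 z / Ω ^ 6))) := by
  obtain ⟨h4, h6, hd⟩ := G2_ne z hz hj
  have hpi : (Real.pi : ℂ) ≠ 0 := by exact_mod_cast Real.pi_ne_zero
  rw [deriv_deriv_jj z hz, (deriv_jj z hz).deriv]
  field_simp
  ring

/-- the data -/
theorem exists_DD (z ϑ : ℂ) (hz : 0 < z.im) (hj : deriv jj z ≠ 0) (h0 : IsAlgebraic ℚ (jj z)) (hz' : IsAlgebraic ℚ⟮ϑ⟯ z)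
    (h1 : IsAlgebraic ℚ⟮ϑ⟯ (deriv jj z)) (h2 : IsAlgebraic ℚ⟮ϑ⟯ (deriv (deriv jj) z)) : ∃ Ω : ℂ, DD z Ω ϑ := by
  obtain ⟨h4, h6, hd⟩ := G2_ne z hz hj
  obtain ⟨hj0, -, -, -⟩ := jj_ne z hz hj
  have hpi : (Real.pi : ℂ) ≠ 0 := by exact_mod_cast Real.pi_ne_zero
  obtain ⟨Ω, hΩ⟩ := IsAlgClosed.exists_pow_nat_eq (e4 z) (show 0 < 4 by norm_num)
  have hΩ0 : Ω ≠ 0 := by
    rintro rfl
    apply h4
    rw [← hΩ]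
    norm_num
  have ha4 : e4 z / Ω ^ 4 = 1 := by
    rw [hΩ]
    exact div_self h4
  set B := e6 z / Ω ^ 6 with hB
  have hB0 : B ≠ 0 := div_ne_zero h6 (pow_ne_zero _ hΩ0)
  have hB2 : B ^ 2 = 1 - 1728 / jj z := by
    have e1 : B ^ 2 = e6 z ^ 2 / e4 z ^ 3 := by
      rw [hB, div_pow, ← hΩ]
      ring
    rw [e1]
    unfold jj
    have hd2 : dl z = (e4 z ^ 3 - e6 z ^ 2) / 1728 := rfl
    field_simp
    rw [hd2]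
    ring
  have hBQ : IsAlgebraic ℚ B := by
    apply IsAlgebraic.of_pow (n := 2) (by norm_num)
    rw [hB2, div_eq_mul_inv]
    exact isAlgebraic_one.sub ((by exact_mod_cast isAlgebraic_natCast (R := ℚ) (A := ℂ) 1728 : IsAlgebraic ℚ (1728 : ℂ)).mul h0.inv)
  have hl6 := link6 z Ω hz hΩ0 hj
  rw [ha4, one_mul, ← hB] at hl6
  have hθ0 : (Real.pi : ℂ) * Ω ^ 2 ≠ 0 := mul_ne_zero hpi (pow_ne_zero _ hΩ0)
  have hθ : (Real.pi : ℂ) * Ω ^ 2 = -(deriv jj z) / (2 * I * jj z * B) := by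
    have hI : I ≠ 0 := I_ne_zero
    rw [hl6]
    field_simp
  have tI := gm_algI ℚ⟮ϑ⟯
  have tZ := gm_algZ ℚ⟮ϑ⟯
  have t2 : IsAlgebraic ℚ⟮ϑ⟯ (2 : ℂ) := by simpa using tZ 2
  have t3 : IsAlgebraic ℚ⟮ϑ⟯ (3 : ℂ) := by simpa using tZ 3
  have t6 : IsAlgebraic ℚ⟮ϑ⟯ (6 : ℂ) := by simpa using tZ 6
  have t1 : IsAlgebraic ℚ⟮ϑ⟯ (1 : ℂ) := isAlgebraic_one
  have tB : IsAlgebraic ℚ⟮ϑ⟯ B := hBQ.tower_top _
  have tθ : IsAlgebraic ℚ⟮ϑ⟯ (Real.pi * Ω ^ 2 : ℂ) := by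
    rw [hθ]
    exact gm_alg _ h1.neg (((t2.mul tI).mul (h0.tower_top _)).mul tB)
  refine ⟨Ω, hz, hΩ0, ?_, hBQ, hz', ?_, tθ⟩
  · rw [ha4]
    exact isAlgebraic_one
  · rw [link2' z Ω hz hΩ0 hj, ha4, ← hB]
    refine t6.mul (((gm_alg _ (gm_alg _ h2 h1) ((t2.mul tI).mul tθ)).add ((gm_alg _ t2 t3).mul (gm_alg _ tB t1))).add
      (gm_alg _ (t1.pow 2) (t2.mul tB)))

end Pool.Agent.MSN
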