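import Pool.Agent.Lib.MP_f58a57_nt.N.Core
import Pool.Agent.Lib.MP_f58a57_nt.N.Link
import Pool.Agent.Lib.MP_f58a57_nt.P.F3_Special
import Pool.Agent.Lib.MP_f58a57_nt.B8_Base

/-! # The theorem, given the two arithmetic steps (MP_f58a57_nt, algebraic `j`) -/

open Complex Filter Topology IntermediateField

noncomputable section

namespace Pool.Agent.MSN

open MSD

/-- the two arithmetic steps -/
def Steps : Prop :=
  ∀ (c₁ c₂ : MSP.Cv) (Ω₁ Ω₂ ϑ : ℂ), Hyp2 c₁ c₂ Ω₁ Ω₂ ϑ →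
    SiegelStep c₁ c₂ Ω₁ Ω₂ ϑ ∧ ∀ (k : ℕ) (a : ℤ), ¬ ((2 : ℤ) ^ k ∣ 2 * a) → NormStep c₁ c₂ Ω₁ Ω₂ ϑ k a

/-- no two curves with algebraic invariants have all their data algebraic over `ℚ(ϑ)`, unless they are isogenous with CM -/
theorem main_DD (hS : Steps) {τ₁ τ₂ Ω₁ Ω₂ ϑ : ℂ} (h₁ : DD τ₁ Ω₁ ϑ) (h₂ : DD τ₂ Ω₂ ϑ) (tr : Transcendental ℚ ϑ)
    (hn : ¬ (IsSpecial τ₁ ∧ IsSpecial τ₂ ∧ GEquiv τ₁ τ₂)) : False := by
  obtain ⟨a, b, c, d, a', b', c', d', hd, hd', hirr⟩ := exists_irr τ₁ τ₂ h₁.im h₂.im hn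
  have H₁ := h₁.sl2 hd
  have H₂ := h₂.sl2 hd'
  have hyp : Hyp2 ⟨_, MSP.sE _, H₁.im⟩ ⟨_, MSP.sE _, H₂.im⟩ _ _ ϑ := ⟨rfl, rfl, H₁, H₂, tr⟩
  obtain ⟨hs, hnm⟩ := hS _ _ _ _ _ hyp
  exact core2 _ _ _ _ ϑ H₁.ne H₂.ne tr hirr hs hnm

/-- a set of numbers that generates a field of transcendence degree at most one -/
theorem exists_theta_set (S : Set ℂ) (h : ¬ (2 : Cardinal) ≤ Algebra.trdeg ℚ (adjoin ℚ S)) :
    ∃ ϑ : ℂ, Transcendental ℚ ϑ ∧ ∀ s ∈ S, IsAlgebraic ℚ⟮ϑ⟯ s := by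
  by_cases hex : ∃ s ∈ S, Transcendental ℚ s
  · obtain ⟨s, hs, hst⟩ := hex
    refine ⟨s, hst, fun t ht => ?_⟩
    by_contra hcon
    apply h
    have key := MSP.f3_indep s t hst hcon
    have ms : s ∈ adjoin ℚ S := subset_adjoin _ _ hs
    have mt : t ∈ adjoin ℚ S := subset_adjoin _ _ ht
    have hx : AlgebraicIndependent ℚ ![(⟨s, ms⟩ : adjoin ℚ S), ⟨t, mt⟩] := by
      apply AlgebraicIndependent.of_comp (IntermediateField.val _)
      have e : ((IntermediateField.val (adjoin ℚ S)) ∘ ![(⟨s, ms⟩ : adjoin ℚ S), ⟨t, mt⟩]) = ![s, t] := by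
        funext i
        fin_cases i <;> rfl
      rw [e]
      exact key
    have h2 := hx.cardinalMk_le_trdeg
    simpa using h2
  · push Not at hex
    obtain ⟨ϑ, hϑ, -, -⟩ := MSP.exists_theta 0 0 (by
      intro hi
      have := hi.ne_zero 0
      simp at this)
    refine ⟨ϑ, hϑ, fun s hs => ?_⟩
    have := hex s hs
    unfold Transcendental at this
    rw [not_not] at this
    exact this.tower_top _

/-- one nonspecial point with algebraic `j` -/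
theorem trdeg_nonspecial (hS : Steps) (z : ℂ) (hz : 0 < z.im) (hns : ¬ IsSpecial z) (hj : deriv jj z ≠ 0)
    (h0 : IsAlgebraic ℚ (jj z)) (S : Set ℂ) (m0 : z ∈ S) (m1 : deriv jj z ∈ S) (m2 : deriv (deriv jj) z ∈ S) :
    (2 : Cardinal) ≤ Algebra.trdeg ℚ (adjoin ℚ S) := by
  by_contra hcon
  obtain ⟨ϑ, tr, hal⟩ := exists_theta_set S hcon
  obtain ⟨Ω, hD⟩ := exists_DD z ϑ hz hj h0 (hal _ m0) (hal _ m1) (hal _ m2)
  exact main_DD hS hD hD tr (fun h => hns h.1)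

theorem isAlg_ofReal (x : ℝ) (z : ℂ) (hz : z.im = x) (h : IsAlgebraic ℚ z) : IsAlgebraic ℚ (x : ℂ) := by
  have hc : IsAlgebraic ℚ ((starRingEnd ℂ) z) := by
    have := h.algHom (Complex.conjAe.toAlgHom.restrictScalars ℚ)
    simpa using this
  have hI : IsAlgebraic ℚ I := by
    refine ⟨Polynomial.X ^ 2 + 1, ?_, by simp⟩
    intro h
    have h2 := congrArg (Polynomial.eval 0) h
    simp at h2
  have h2a : IsAlgebraic ℚ (2 : ℂ) := by
    have := isAlgebraic_algebraMap (R := ℚ) (A := ℂ) 2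
    simpa using this
  have e : (x : ℂ) = (z - (starRingEnd ℂ) z) * (2 * I)⁻¹ := by
    rw [← hz, Complex.sub_conj]
    have := I_ne_zero
    push_cast
    field_simp
  rw [e]
  exact (h.sub hc).mul (h2a.mul hI).inv

/-- the data of a special point -/
theorem DD_special (z Ω ϑ : ℂ) (h : MSP.CMD z Ω) (hϑ : IsAlgebraic ℚ⟮ϑ⟯ (Real.pi * Ω ^ 2 : ℂ)) : DD z Ω ϑ := by
  refine ⟨h.im, h.ne, h.a4, h.a6, h.alg.tower_top _, ?_, hϑ⟩
  have hpi : (Real.pi : ℂ) ≠ 0 := by exact_mod_cast Real.pi_ne_zero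
  have hy : (z.im : ℂ) ≠ 0 := by exact_mod_cast h.im.ne'
  have hΩ := h.ne
  have e : e2 z / Ω ^ 2 = e2s z / Ω ^ 2 + ((3 : ℤ) : ℂ) / ((z.im : ℂ) * (Real.pi * Ω ^ 2)) := by
    unfold e2s
    push_cast
    field_simp
    ring
  rw [e]
  exact (h.a2.tower_top _).add (gm_alg _ (gm_algZ _ _) (((isAlg_ofReal _ z rfl h.alg).tower_top _).mul hϑ))

/-- `z` is not equivalent to both `√-1` and `√-2` -/
theorem exists_other (z : ℂ) (hz : 0 < z.im) (hs : IsSpecial z) : ∃ d : ℕ, 0 < d ∧ ¬ GEquiv z (rt d) := by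
  by_contra hcon
  push Not at hcon
  obtain ⟨d, hd, hK⟩ := MSP.special_KK z hz hs
  have hKK : ∀ w : ℂ, GEquiv z w → w ∈ KK d := by
    rintro w ⟨a, b, c, e, hne, hne', rfl⟩
    obtain ⟨u, v, rfl⟩ := hK
    have hsq := g3e_rt_sq d
    have hd' : (0 : ℚ) < d := by exact_mod_cast hd
    set N : ℚ := (c * u + e) ^ 2 + d * (c * v) ^ 2 with hN
    have hNC : (c * (u + v * rt d) + e : ℂ) * (c * (u - v * rt d) + e) = N := by
      rw [hN]
      push_cast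
      linear_combination (-(c : ℂ) ^ 2 * v ^ 2) * hsq
    have hN0 : (N : ℂ) ≠ 0 := by
      rw [← hNC]
      refine mul_ne_zero hne' ?_
      intro h0
      have h1 : (c * (u + v * rt d) + e : ℂ) = 2 * (c * u + e) := by linear_combination -h0
      have h2 : (N : ℂ) = 0 := by rw [← hNC, h0, mul_zero]
      have h3 : N = 0 := by exact_mod_cast h2
      have h4 : c * u + e = 0 := by
        rw [hN] at h3
        nlinarith [sq_nonneg (c * u + e), mul_nonneg hd'.le (sq_nonneg (c * v))]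
      apply hne'
      rw [h1]
      have h5 : ((c * u + e : ℚ) : ℂ) = 0 := by rw [h4]; simp
      push_cast at h5
      rw [h5, mul_zero]
    refine ⟨((a * u + b) * (c * u + e) + d * (a * v * (c * v))) / N, (a * v * (c * u + e) - (a * u + b) * (c * v)) / N, ?_⟩
    push_cast
    rw [div_eq_iff hne']
    field_simp
    rw [← hNC]
    linear_combination (-(a * v * c * v * (c * (u + v * rt d) + e) : ℂ)) * hsq
  obtain ⟨u1, v1, e1⟩ := hKK _ (hcon 1 one_pos)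
  obtain ⟨u2, v2, e2⟩ := hKK _ (hcon 2 two_pos)
  have him : ∀ k : ℕ, (rt k).im = Real.sqrt k := fun k => by simp [rt]
  have i1 : Real.sqrt ((1 : ℕ) : ℝ) = v1 * Real.sqrt d := by rw [← him, e1, g3e_im]
  have i2 : Real.sqrt ((2 : ℕ) : ℝ) = v2 * Real.sqrt d := by rw [← him, e2, g3e_im]
  rw [Nat.cast_one, Real.sqrt_one] at i1
  have hv1 : (v1 : ℝ) ≠ 0 := by
    intro h0
    rw [h0, zero_mul] at i1
    exact one_ne_zero i1
  apply irrational_sqrt_two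
  refine ⟨v2 / v1, ?_⟩
  push_cast at i2 ⊢
  rw [i2, div_eq_iff hv1, mul_assoc, mul_comm (Real.sqrt d), ← i1, mul_one]

/-- one special point -/
theorem trdeg_special (hS : Steps) (z : ℂ) (hz : 0 < z.im) (hs : IsSpecial z) (hj : deriv jj z ≠ 0) (S : Set ℂ)
    (m1 : deriv jj z ∈ S) : (1 : Cardinal) ≤ Algebra.trdeg ℚ (adjoin ℚ S) := by
  by_contra hcon
  have h0 : Algebra.trdeg ℚ (adjoin ℚ S) = 0 := by
    by_contra h
    exact hcon (Cardinal.one_le_iff_ne_zero.2 h)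
  have h1 : Algebra.IsAlgebraic ℚ (adjoin ℚ S) := trdeg_eq_zero_iff.1 h0
  have ha : IsAlgebraic ℚ (deriv jj z) := by
    have := h1.isAlgebraic ⟨_, subset_adjoin ℚ S m1⟩
    exact (isAlgebraic_algebraMap_iff (A := ℂ) (algebraMap (adjoin ℚ S) ℂ).injective).2 this
  obtain ⟨d, hd, hK⟩ := MSP.special_KK z hz hs
  obtain ⟨Ω, hΩ⟩ := cm_base d hd
  have H := MSP.cmd_of_KK d hd Ω hΩ z hz hK
  obtain ⟨α, hα, e⟩ := MSP.theta_eq z Ω H hj
  obtain ⟨d', hd', hne⟩ := exists_other z hz hs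
  obtain ⟨Ω', hΩ'⟩ := cm_base d' hd'
  have him' : 0 < (rt d').im := by
    have : (rt d').im = Real.sqrt d' := by simp [rt]
    rw [this]
    exact Real.sqrt_pos.2 (by exact_mod_cast hd')
  have H' := MSP.cmd_of_KK d' hd' Ω' hΩ' (rt d') him' ⟨0, 1, by simp⟩
  obtain ⟨ϑ, tr, t1, t2⟩ : ∃ ϑ : ℂ, Transcendental ℚ ϑ ∧ IsAlgebraic ℚ⟮ϑ⟯ (Real.pi * Ω ^ 2 : ℂ) ∧
      IsAlgebraic ℚ⟮ϑ⟯ (Real.pi * Ω' ^ 2 : ℂ) := by
    apply MSP.exists_theta
    intro hi
    have := hi.transcendental 0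
    apply this
    change IsAlgebraic ℚ (Real.pi * Ω ^ 2 : ℂ)
    rw [e]
    exact hα.mul ha
  exact main_DD hS (DD_special z Ω ϑ H t1) (DD_special _ Ω' ϑ H' t2) tr (fun h => hne h.2.2)

/-- the theorem: the inequality with the right side replaced by `min 2 (3a + b)` -/
theorem trdeg_min (hS : Steps) {n : ℕ} (z : Fin n → ℂ) (hz : ∀ i, 0 < (z i).im)
    (hind : ∀ i k, i ≠ k → ¬ GEquiv (z i) (z k)) (hj : ∀ i, deriv jj (z i) ≠ 0) :
    ((min 2 (3 * Nat.card {i // ¬ IsSpecial (z i) ∧ IsAlgebraic ℚ (jj (z i))} + Nat.card {i // IsSpecial (z i)}) : ℕ) :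
      Cardinal) ≤ Algebra.trdeg ℚ (adjoin ℚ
        (⋃ i, {z i, jj (z i), deriv jj (z i), deriv (deriv jj) (z i)} : Set ℂ)) := by
  set S : Set ℂ := (⋃ i, {z i, jj (z i), deriv jj (z i), deriv (deriv jj) (z i)} : Set ℂ) with hSdef
  have m0 : ∀ i, z i ∈ S := fun i => Set.mem_iUnion.mpr ⟨i, by simp⟩
  have m1 : ∀ i, deriv jj (z i) ∈ S := fun i => Set.mem_iUnion.mpr ⟨i, by simp⟩
  have m2 : ∀ i, deriv (deriv jj) (z i) ∈ S := fun i => Set.mem_iUnion.mpr ⟨i, by simp⟩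
  by_cases ha : ∃ i, ¬ IsSpecial (z i) ∧ IsAlgebraic ℚ (jj (z i))
  · obtain ⟨i, h1, h2⟩ := ha
    have h := trdeg_nonspecial hS (z i) (hz i) h1 (hj i) h2 S (m0 i) (m1 i) (m2 i)
    refine le_trans ?_ h
    have : min 2 (3 * Nat.card {i // ¬ IsSpecial (z i) ∧ IsAlgebraic ℚ (jj (z i))} + Nat.card {i // IsSpecial (z i)}) ≤ 2 :=
      min_le_left _ _
    exact_mod_cast this
  · have h0 : Nat.card {i // ¬ IsSpecial (z i) ∧ IsAlgebraic ℚ (jj (z i))} = 0 := by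
      have : IsEmpty {i // ¬ IsSpecial (z i) ∧ IsAlgebraic ℚ (jj (z i))} := ⟨fun i => ha ⟨i.1, i.2⟩⟩
      simp
    rw [h0, mul_zero, zero_add]
    rcases Nat.lt_or_ge (Nat.card {i // IsSpecial (z i)}) 2 with hb | hb
    · rcases Nat.eq_zero_or_pos (Nat.card {i // IsSpecial (z i)}) with hb0 | hb0
      · rw [hb0]
        simp
      · have hb1 : Nat.card {i // IsSpecial (z i)} = 1 := by omega
        rw [hb1]
        obtain ⟨⟨i, hi⟩⟩ := (Nat.card_pos_iff.1 hb0).1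
        have := trdeg_special hS (z i) (hz i) hi (hj i) S (m1 i)
        simpa using this
    · have hfin : Finite {i // IsSpecial (z i)} := inferInstance
      have hnt : Nontrivial {i // IsSpecial (z i)} := Finite.one_lt_card_iff_nontrivial.1 (by omega)
      obtain ⟨⟨i, hi⟩, ⟨k, hk⟩, hik⟩ := hnt.exists_pair_ne
      have hik' : i ≠ k := fun h => hik (Subtype.ext h)
      have h : (2 : Cardinal) ≤ Algebra.trdeg ℚ (adjoin ℚ S) := by
        by_contra hcon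
        obtain ⟨ϑ, tr, hal⟩ := exists_theta_set S hcon
        have dd : ∀ i, IsSpecial (z i) → ∃ Ω, DD (z i) Ω ϑ := by
          intro i hi
          obtain ⟨d, hd, hK⟩ := MSP.special_KK (z i) (hz i) hi
          obtain ⟨Ω, hΩ⟩ := cm_base d hd
          have H := MSP.cmd_of_KK d hd Ω hΩ (z i) (hz i) hK
          obtain ⟨α, hα, e⟩ := MSP.theta_eq (z i) Ω H (hj i)
          refine ⟨Ω, DD_special (z i) Ω ϑ H ?_⟩
          rw [e]
          exact (hα.tower_top _).mul (hal _ (m1 i))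
        obtain ⟨Ω₁, D₁⟩ := dd i hi
        obtain ⟨Ω₂, D₂⟩ := dd k hk
        exact main_DD hS D₁ D₂ tr (fun h => hind i k hik' h.2.2)
      refine le_trans ?_ h
      have : min 2 (Nat.card {i // IsSpecial (z i)}) ≤ 2 := min_le_left _ _
      exact_mod_cast this

end Pool.Agent.MSN
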