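import Pool.Agent.Lib.MP_f58a57_nt.N.N8_Norm
import Pool.Agent.Lib.MP_f58a57_nt.N.Final

/-! # The theorem (MP_f58a57_nt, algebraic `j`) -/

open Complex Filter Topology IntermediateField Polynomial

noncomputable section

namespace Pool.Agent.MSN

open MSP

theorem Hyp2.toHypN {c₁ c₂ : Cv} {Ω₁ Ω₂ ϑ : ℂ} (h : Hyp2 c₁ c₂ Ω₁ Ω₂ ϑ) : HypN c₁ c₂ Ω₁ Ω₂ ϑ :=
  ⟨h.s₁, h.s₂, h.h₁.ne, h.h₂.ne, h.h₁.a4, h.h₁.a6, h.h₂.a4, h.h₂.a6, h.tr, h.h₁.aτ, h.h₂.aτ, h.h₁.aΩ, h.h₂.aΩ,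
    h.h₁.a2, h.h₂.a2⟩

theorem log_fact_le (r s : ℕ) :
    Real.log ((r + s).factorial : ℝ) ≤ Real.log ((r.factorial : ℝ) * s.factorial) + (r + s : ℕ) := by
  have h1 : ((r + s).factorial : ℝ) ≤ 2 ^ (r + s) * ((r.factorial : ℝ) * s.factorial) := by
    have h2 := Nat.add_choose_mul_factorial_mul_factorial r s
    have h3 : (r + s).choose s ≤ 2 ^ (r + s) := Nat.choose_le_two_pow _ _
    have h4 : (r + s).factorial ≤ 2 ^ (r + s) * (r.factorial * s.factorial) := by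
      rw [← h2, mul_assoc]
      exact Nat.mul_le_mul_right _ h3
    exact_mod_cast h4
  have hp : (0 : ℝ) < (r.factorial : ℝ) * s.factorial := by
    have := Nat.factorial_pos r
    have := Nat.factorial_pos s
    positivity
  have hp2 : (0 : ℝ) < ((r + s).factorial : ℝ) := by exact_mod_cast Nat.factorial_pos _
  have h5 := Real.log_le_log hp2 h1
  rw [Real.log_mul (by positivity) hp.ne', Real.log_pow] at h5
  have h6 : ((r + s : ℕ) : ℝ) * Real.log 2 ≤ ((r + s : ℕ) : ℝ) := by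
    have h9 := Real.log_two_lt_d9
    have h11 : (0 : ℝ) ≤ ((r + s : ℕ) : ℝ) := Nat.cast_nonneg _
    nlinarith
  linarith

theorem steps : Steps := by
  intro c₁ c₂ Ω₁ Ω₂ ϑ h
  have hN := h.toHypN
  refine ⟨siegel_stepN c₁ c₂ Ω₁ Ω₂ ϑ hN, fun k a ha => ?_⟩
  obtain ⟨C, hC, H⟩ := norm_stepN c₁ c₂ Ω₁ Ω₂ ϑ hN k a ha
  refine ⟨C + 1, by linarith, ?_⟩
  intro P hP T δ H' p hLT hH' hδ hlen r s hrs hmin hne
  obtain ⟨Q, h1, h2, h3, h4⟩ := H P hP T δ H' p hLT hH' hδ hlen r s hrs hmin hne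
  have hl : (0 : ℝ) ≤ P.l := Nat.cast_nonneg _
  have hδ0 : (0 : ℝ) ≤ δ := Nat.cast_nonneg _
  have hT0 : (0 : ℝ) ≤ T := Nat.cast_nonneg _
  have hlogl : 0 ≤ Real.log (P.l + 1) := Real.log_nonneg (by linarith)
  have hlogH : 0 ≤ Real.log H' := Real.log_nonneg hH'
  have hTl : 0 ≤ (T : ℝ) * (1 + Real.log (P.l + 1)) := by positivity
  refine ⟨Q, h1, ?_, ?_, ?_⟩
  · linarith
  · linarith
  · have hp : (0 : ℝ) < (r.factorial : ℝ) * s.factorial := by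
      have := Nat.factorial_pos r
      have := Nat.factorial_pos s
      positivity
    have e1 : Real.log ‖dd r s (FF c₁ c₂ P (cf ϑ Ω₁ Ω₂ P p)) ((a : ℂ) / 2 ^ k) ((a : ℂ) / 2 ^ k) /
        (r.factorial * s.factorial : ℂ)‖ =
        Real.log ‖dd r s (FF c₁ c₂ P (cf ϑ Ω₁ Ω₂ P p)) ((a : ℂ) / 2 ^ k) ((a : ℂ) / 2 ^ k)‖ -
          Real.log ((r.factorial : ℝ) * s.factorial) := by
      rw [norm_div, Real.log_div (norm_ne_zero_iff.2 hne)]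
      · simp
      · simp [Nat.factorial_ne_zero]
    rw [e1] at h4
    have h5 := log_fact_le r s
    have h6 : ((r + s : ℕ) : ℝ) ≤ T := by exact_mod_cast hrs
    have h7 : (T : ℝ) ≤ T * (1 + Real.log (P.l + 1)) := by nlinarith
    linarith

theorem main {n : ℕ} (z : Fin n → ℂ) (hz : ∀ i, 0 < (z i).im)
    (hind : ∀ i k, i ≠ k → ¬ MSD.GEquiv (z i) (z k)) (hj : ∀ i, deriv MSD.jj (z i) ≠ 0) :
    ((min 2 (3 * Nat.card {i // ¬ MSD.IsSpecial (z i) ∧ IsAlgebraic ℚ (MSD.jj (z i))} +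
      Nat.card {i // MSD.IsSpecial (z i)}) : ℕ) : Cardinal) ≤ Algebra.trdeg ℚ (adjoin ℚ
        (⋃ i, {z i, MSD.jj (z i), deriv MSD.jj (z i), deriv (deriv MSD.jj) (z i)} : Set ℂ)) :=
  trdeg_min steps z hz hind hj

end Pool.Agent.MSN
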