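import Pool.Agent.Lib.MP_f58a57_nt.P.H1_Geom
import Pool.Agent.Lib.MP_f58a57_nt.P.H1b_Nodes

/-! # Choice of the parameters for an arbitrary irrational ratio (MP_f58a57_nt, algebraic `j`) -/

open Complex Filter Topology

noncomputable section

namespace Pool.Agent.MSN

open MSP

theorem dirichlet2 (ν : ℝ) (hirr : Irrational ν) (N : ℕ) (hN0 : 0 < N) : ∃ a₁ a₂ b₁ b₂ : ℤ,
    a₁ * b₁ + a₂ * b₂ = 1 ∧ 0 < (a₁ : ℝ) + a₂ * ν ∧ (a₁ : ℝ) + a₂ * ν ≤ 1 / (N + 1) ∧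
      |(a₂ : ℝ)| * (a₁ + a₂ * ν) ≤ 1 := by
  have hN1 : (1 : ℝ) ≤ N := by exact_mod_cast hN0
  obtain ⟨a₁, a₂, hcop, ha20, hpos, hle, ha2⟩ : ∃ a₁ a₂ : ℤ, IsCoprime a₁ a₂ ∧ a₂ ≠ 0 ∧
      0 < (a₁ : ℝ) + a₂ * ν ∧ (a₁ : ℝ) + a₂ * ν ≤ 1 / (N + 1) ∧ |(a₂ : ℝ)| ≤ N := by
    obtain ⟨q, hq, hqd⟩ := Real.exists_rat_abs_sub_le_and_den_le ν hN0
    have hd : (0 : ℝ) < q.den := by exact_mod_cast q.den_pos
    have hqe : (q : ℝ) = q.num / q.den := by exact_mod_cast (Rat.cast_def (K := ℝ) q)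
    have hcop : IsCoprime q.num (q.den : ℤ) := Rat.isCoprime_num_den q
    have e1 : (q.den : ℝ) * ν - q.num = q.den * (ν - q) := by
      rw [hqe]
      field_simp
    have habs : |(q.den : ℝ) * ν - q.num| ≤ 1 / (N + 1) := by
      rw [e1, abs_mul, abs_of_pos hd]
      calc (q.den : ℝ) * |ν - q| ≤ q.den * (1 / ((N + 1) * q.den)) :=
            mul_le_mul_of_nonneg_left hq hd.le
        _ = 1 / (N + 1) := by field_simp
    have hne : (q.den : ℝ) * ν - q.num ≠ 0 := by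
      rw [e1]
      refine mul_ne_zero hd.ne' ?_
      intro h
      have h' : ν = (q : ℝ) := by linarith only [h]
      exact hirr ⟨q, h'.symm⟩
    have hdN : (q.den : ℝ) ≤ N := by exact_mod_cast hqd
    rcases lt_or_gt_of_ne hne with h | h
    · refine ⟨q.num, -(q.den : ℤ), hcop.neg_right, ?_, ?_, ?_, ?_⟩
      · have := q.den_pos
        omega
      · push_cast
        linarith only [h]
      · rw [abs_of_neg h] at habs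
        push_cast
        linarith only [habs]
      · push_cast
        rw [abs_neg, abs_of_pos hd]
        exact hdN
    · refine ⟨-q.num, (q.den : ℤ), hcop.neg_left, ?_, ?_, ?_, ?_⟩
      · have := q.den_pos
        omega
      · push_cast
        linarith only [h]
      · rw [abs_of_pos h] at habs
        push_cast
        linarith only [habs]
      · push_cast
        rw [abs_of_pos hd]
        exact hdN
  obtain ⟨b₁, b₂, hb, -, -⟩ := h1_bezout a₁ a₂ hcop ha20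
  refine ⟨a₁, a₂, b₁, b₂, hb, hpos, hle, ?_⟩
  calc |(a₂ : ℝ)| * (a₁ + a₂ * ν) ≤ N * (1 / (N + 1)) := by gcongr
    _ ≤ 1 := by
      rw [mul_one_div, div_le_one (by linarith only [hN1])]
      linarith only [hN1]


set_option maxHeartbeats 1000000 in
theorem params2 (τ₁ τ₂ : ℂ) (h2 : 0 < τ₂.im) (hirr : Irrational (τ₁.im / τ₂.im)) :
    ∃ c : ℝ, 0 < c ∧ ∀ κ₁ κ₂ η C K : ℝ, 0 < κ₁ → 0 < κ₂ → 0 < η → 1 ≤ C → ∃ R l₀ : ℕ, K ≤ R ∧ 1 ≤ R ∧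
      ((l₀ : ℝ) + 1) * (1 + Real.log (l₀ + 1)) ≤ η * R ∧ ∀ᶠ L : ℕ in atTop, ∃ P : Pr, P.Good ∧ P.L = L ∧ P.l = l₀ ∧
        c * (κ₂ * κ₁ ^ 2) * R ^ 2 ≤ ((P.d₁ : ℝ) + 1) * (P.d₂ + 1) * (P.d₃ + 1) ∧
        (C * P.A * (κ₂ * R)) ^ P.l ≤ Real.exp (R * L / 4) ∧
        ∃ (h₀ : ℕ → ℤ) (m₀ : ℕ → ℕ → ℤ), Nodes τ₁ τ₂ P (κ₂ * R) (κ₁ * Real.sqrt R) h₀ m₀ := by
  set y : ℝ := τ₂.im with hy
  refine ⟨1 / (8 * y), by positivity, ?_⟩
  intro κ₁ κ₂ η C K hκ₁ hκ₂ hη hC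
  have hC0 : 0 < C := one_pos.trans_le hC
  obtain ⟨C', hC'⟩ : ∃ C' : ℝ, C' = κ₂ + 2 * κ₁ / y + 2 * κ₁ + 1 := ⟨_, rfl⟩
  have hC'0 : 0 < C' := by rw [hC']; positivity
  have hC'1 : 1 ≤ C' := by
    rw [hC']
    have : 0 ≤ κ₂ + 2 * κ₁ / y + 2 * κ₁ := by positivity
    linarith only [this]
  have q2 : 0 < 2 / κ₁ := by positivity
  have q3 : 0 < 2 * y / κ₁ := by positivity
  have q4 : 0 < κ₁ / (y * κ₂) := by positivity
  have q5 : 0 < C' * (9 + C') / η := by positivity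
  obtain ⟨w₀, hw₀⟩ : ∃ w₀ : ℝ, w₀ = 1 + |K| + 2 / κ₁ + 2 * y / κ₁ + κ₁ / (y * κ₂) + C' * (9 + C') / η := ⟨_, rfl⟩
  have hw₀1 : 1 ≤ w₀ := by
    have := abs_nonneg K
    linarith only [this, hw₀, q2, q3, q4, q5]
  -- the pair
  obtain ⟨a₁, a₂, b₁, b₂, hab, hε0, hε1, haε⟩ := dirichlet2 (τ₁.im / y) hirr (⌈w₀ ^ 2⌉₊) (Nat.ceil_pos.2 (by positivity))
  obtain ⟨ε, hε⟩ : ∃ ε : ℝ, ε = a₁ + a₂ * (τ₁.im / y) := ⟨_, rfl⟩
  rw [← hε] at hε0 hε1 haε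
  obtain ⟨w, hw⟩ : ∃ w : ℝ, w = 1 / Real.sqrt ε := ⟨_, rfl⟩
  have hsε : 0 < Real.sqrt ε := Real.sqrt_pos.2 hε0
  have hw0 : 0 < w := by rw [hw]; positivity
  have hεw : ε * w ^ 2 = 1 := by
    rw [hw, div_pow, Real.sq_sqrt hε0.le]
    field_simp
  have hww : w₀ ≤ w := by
    have h3 : w₀ ^ 2 ≤ ((⌈w₀ ^ 2⌉₊ : ℕ) : ℝ) := Nat.le_ceil _
    have h4 : ε * w₀ ^ 2 ≤ 1 := by
      have h5 : ε * (((⌈w₀ ^ 2⌉₊ : ℕ) : ℝ) + 1) ≤ 1 := by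
        have := mul_le_mul_of_nonneg_right hε1 (by positivity : (0 : ℝ) ≤ ((⌈w₀ ^ 2⌉₊ : ℕ) : ℝ) + 1)
        rwa [one_div, inv_mul_cancel₀ (by positivity)] at this
      refine le_trans (mul_le_mul_of_nonneg_left ?_ hε0.le) h5
      linarith only [h3]
    have h5 : w₀ ^ 2 ≤ w ^ 2 := by
      have h6 : ε * w₀ ^ 2 ≤ ε * w ^ 2 := by rw [hεw]; exact h4
      exact le_of_mul_le_mul_left h6 hε0
    exact le_of_sq_le_sq h5 hw0.le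
  have hw1 : 1 ≤ w := hw₀1.trans hww
  have hKw : K ≤ w := by
    have := le_abs_self K
    linarith only [this, hw₀, hww, q2, q3, q4, q5]
  have hK0 := abs_nonneg K
  have t2 : 2 / κ₁ ≤ w := by linarith only [hK0, hw₀, hww, q2, q3, q4, q5]
  have t3 : 2 * y / κ₁ ≤ w := by linarith only [hK0, hw₀, hww, q2, q3, q4, q5]
  have t4 : κ₁ / (y * κ₂) ≤ w := by linarith only [hK0, hw₀, hww, q2, q3, q4, q5]
  have t5 : C' * (9 + C') / η ≤ w := by linarith only [hK0, hw₀, hww, q2, q3, q4, q5]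
  rw [div_le_iff₀ hκ₁] at t2 t3
  rw [div_le_iff₀ (by positivity)] at t4
  rw [div_le_iff₀ hη] at t5
  -- R
  obtain ⟨R, hR⟩ : ∃ R : ℕ, R = ⌈w ^ 10⌉₊ := ⟨_, rfl⟩
  have hRlow : w ^ 10 ≤ R := by rw [hR]; exact Nat.le_ceil _
  have hw10 : 1 ≤ w ^ 10 := one_le_pow₀ hw1
  have hRup : (R : ℝ) ≤ 2 * w ^ 10 := by
    have h3 : (R : ℝ) < w ^ 10 + 1 := by rw [hR]; exact Nat.ceil_lt_add_one (by positivity)
    linarith only [h3, hw10]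
  have hR1 : (1 : ℝ) ≤ R := hw10.trans hRlow
  have hwR : w ≤ R := (le_self_pow₀ hw1 (by norm_num)).trans hRlow
  have hs1 : w ^ 5 ≤ Real.sqrt R := by
    apply Real.le_sqrt_of_sq_le
    have e : (w ^ 5) ^ 2 = w ^ 10 := by ring
    rw [e]
    exact hRlow
  have hs2 : Real.sqrt R ≤ 2 * w ^ 5 := by
    apply Real.sqrt_le_iff.2
    refine ⟨by positivity, hRup.trans ?_⟩
    have : (2 * w ^ 5) ^ 2 = 4 * w ^ 10 := by ring
    rw [this]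
    linarith only [hw10]
  have hsR : 0 < Real.sqrt R := (pow_pos hw0 5).trans_le hs1
  have hRs : Real.sqrt R * Real.sqrt R = R := Real.mul_self_sqrt (zero_le_one.trans hR1)
  have hw5 : w ≤ w ^ 5 := le_self_pow₀ hw1 (by norm_num)
  obtain ⟨X, hX⟩ : ∃ X : ℝ, X = κ₂ * R := ⟨_, rfl⟩
  obtain ⟨R₀, hR₀⟩ : ∃ R₀ : ℝ, R₀ = κ₁ * Real.sqrt R := ⟨_, rfl⟩
  have hX0 : 0 < X := by rw [hX]; positivity
  have hR₀2 : 2 ≤ R₀ := by
    rw [hR₀]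
    calc (2 : ℝ) ≤ w * κ₁ := t2
      _ ≤ Real.sqrt R * κ₁ := mul_le_mul_of_nonneg_right (hw5.trans hs1) hκ₁.le
      _ = κ₁ * Real.sqrt R := mul_comm _ _
  have hR₀0 : 0 < R₀ := two_pos.trans_le hR₀2
  have hiε : 1 / ε = w ^ 2 := by
    rw [div_eq_iff hε0.ne', mul_comm, hεw]
  have hyε : 2 ≤ R₀ / (y * ε) := by
    have e : R₀ / (y * ε) = R₀ * w ^ 2 / y := by
      rw [← hiε]
      field_simp
    rw [e, le_div_iff₀ h2]
    calc 2 * y ≤ w * κ₁ := t3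
      _ ≤ Real.sqrt R * κ₁ := mul_le_mul_of_nonneg_right (hw5.trans hs1) hκ₁.le
      _ = R₀ := by rw [hR₀, mul_comm]
      _ ≤ R₀ * w ^ 2 := le_mul_of_one_le_right hR₀0.le (one_le_pow₀ hw1)
  -- the degrees
  obtain ⟨d₃, hd₃⟩ : ∃ d₃ : ℕ, d₃ = ⌊ε * X / 2⌋₊ := ⟨_, rfl⟩
  obtain ⟨d₂, hd₂⟩ : ∃ d₂ : ℕ, d₂ = ⌊R₀ / (y * ε)⌋₊ - 1 := ⟨_, rfl⟩
  obtain ⟨d₁, hd₁⟩ : ∃ d₁ : ℕ, d₁ = ⌊R₀⌋₊ - 1 := ⟨_, rfl⟩
  have e3a : (d₃ : ℝ) ≤ ε * X / 2 := by rw [hd₃]; exact Nat.floor_le (by positivity)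
  have e3b : ε * X / 2 ≤ d₃ + 1 := by rw [hd₃]; exact (Nat.lt_floor_add_one _).le
  have e2f : 1 ≤ ⌊R₀ / (y * ε)⌋₊ := by
    rw [Nat.one_le_floor_iff]
    exact one_le_two.trans hyε
  have e2c : (d₂ : ℝ) + 1 = ⌊R₀ / (y * ε)⌋₊ := by
    rw [hd₂, Nat.cast_sub e2f]
    push_cast
    ring
  have e2a : (d₂ : ℝ) + 1 ≤ R₀ / (y * ε) := by rw [e2c]; exact Nat.floor_le (by positivity)
  have e2b : R₀ / (2 * (y * ε)) ≤ d₂ + 1 := by
    rw [e2c]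
    have h3 := (Nat.lt_floor_add_one (R₀ / (y * ε))).le
    have h4 : R₀ / (2 * (y * ε)) = R₀ / (y * ε) / 2 := by rw [mul_comm 2 (y * ε), div_div]
    rw [h4]
    linarith only [h3, hyε]
  have e1f : 1 ≤ ⌊R₀⌋₊ := by
    rw [Nat.one_le_floor_iff]
    exact one_le_two.trans hR₀2
  have e1c : (d₁ : ℝ) + 1 = ⌊R₀⌋₊ := by
    rw [hd₁, Nat.cast_sub e1f]
    push_cast
    ring
  have e1a : (d₁ : ℝ) + 1 ≤ R₀ := by rw [e1c]; exact Nat.floor_le (by positivity)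
  have e1b : R₀ / 2 ≤ d₁ + 1 := by
    rw [e1c]
    have h3 := (Nat.lt_floor_add_one R₀).le
    linarith only [h3, hR₀2]
  -- the bound for l₀ + 1
  have hl0 : (((d₁ + d₂ + d₃ : ℕ) : ℝ)) + 1 ≤ C' * w ^ 8 := by
    have f3 : (d₃ : ℝ) ≤ κ₂ * w ^ 8 := by
      refine e3a.trans ?_
      have h3 : ε * X / 2 ≤ ε * (κ₂ * (2 * w ^ 10)) / 2 := by rw [hX]; gcongr
      refine h3.trans (le_of_eq ?_)
      calc ε * (κ₂ * (2 * w ^ 10)) / 2 = κ₂ * w ^ 8 * (ε * w ^ 2) := by ring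
        _ = κ₂ * w ^ 8 := by rw [hεw, mul_one]
    have f2 : (d₂ : ℝ) ≤ 2 * κ₁ / y * w ^ 8 := by
      have h3 : (d₂ : ℝ) ≤ R₀ / (y * ε) := by linarith only [e2a]
      refine h3.trans ?_
      have e : R₀ / (y * ε) = R₀ * w ^ 2 / y := by
        rw [← hiε]
        field_simp
      rw [e, hR₀]
      have h4 : κ₁ * Real.sqrt R * w ^ 2 / y ≤ κ₁ * (2 * w ^ 5) * w ^ 2 / y := by gcongr
      refine h4.trans ?_
      have h5 : w ^ 7 ≤ w ^ 8 := pow_le_pow_right₀ hw1 (by norm_num)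
      calc κ₁ * (2 * w ^ 5) * w ^ 2 / y = 2 * κ₁ / y * w ^ 7 := by ring
        _ ≤ 2 * κ₁ / y * w ^ 8 := by gcongr
    have f1 : (d₁ : ℝ) ≤ 2 * κ₁ * w ^ 8 := by
      have h3 : (d₁ : ℝ) ≤ R₀ := by linarith only [e1a]
      refine h3.trans ?_
      rw [hR₀]
      have h5 : w ^ 5 ≤ w ^ 8 := pow_le_pow_right₀ hw1 (by norm_num)
      calc κ₁ * Real.sqrt R ≤ κ₁ * (2 * w ^ 8) :=
            mul_le_mul_of_nonneg_left (hs2.trans (by linarith only [h5] : 2 * w ^ 5 ≤ 2 * w ^ 8)) hκ₁.le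
        _ = 2 * κ₁ * w ^ 8 := by ring
    have f0 : (1 : ℝ) ≤ w ^ 8 := one_le_pow₀ hw1
    push_cast
    have e : C' * w ^ 8 = κ₂ * w ^ 8 + 2 * κ₁ / y * w ^ 8 + 2 * κ₁ * w ^ 8 + w ^ 8 := by rw [hC']; ring
    linarith only [e, f0, f1, f2, f3]
  obtain ⟨l₀, hl₀⟩ : ∃ l₀ : ℕ, l₀ = d₁ + d₂ + d₃ := ⟨_, rfl⟩
  rw [← hl₀] at hl0
  have hl1 : (1 : ℝ) ≤ (l₀ : ℝ) + 1 := by
    have : (0 : ℝ) ≤ l₀ := Nat.cast_nonneg _
    linarith only [this]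
  have hw8 : (1 : ℝ) ≤ w ^ 8 := one_le_pow₀ hw1
  have hlog : Real.log ((l₀ : ℝ) + 1) ≤ C' + 8 * w := by
    have h3 := Real.log_le_log (one_pos.trans_le hl1) hl0
    rw [Real.log_mul hC'0.ne' (by positivity), Real.log_pow] at h3
    have h4 := Real.log_le_sub_one_of_pos hC'0
    have h5 := Real.log_le_sub_one_of_pos hw0
    push_cast at h3
    linarith only [h3, h4, h5]
  have hlog0 : 0 ≤ Real.log ((l₀ : ℝ) + 1) := Real.log_nonneg hl1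
  refine ⟨R, l₀, hKw.trans hwR, by exact_mod_cast hR1, ?_, ?_⟩
  · calc ((l₀ : ℝ) + 1) * (1 + Real.log (l₀ + 1)) ≤ (C' * w ^ 8) * (1 + (C' + 8 * w)) := by gcongr
      _ ≤ (C' * w ^ 8) * ((9 + C') * w) := by
        refine mul_le_mul_of_nonneg_left ?_ (by positivity)
        have : (1 + C') * 1 ≤ (1 + C') * w := mul_le_mul_of_nonneg_left hw1 (by linarith only [hC'0])
        linarith only [this]
      _ = (C' * (9 + C')) * w ^ 9 := by ring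
      _ ≤ (w * η) * w ^ 9 := by gcongr
      _ = η * w ^ 10 := by ring
      _ ≤ η * R := by gcongr
  · obtain ⟨A, hA⟩ : ∃ A : ℝ, A = 2 + |(a₁ : ℝ)| + |(a₂ : ℝ)| + |(b₁ : ℝ)| + |(b₂ : ℝ)| := ⟨_, rfl⟩
    have hA2 : 2 ≤ A := by
      rw [hA]
      have i1 := abs_nonneg (a₁ : ℝ)
      have i2 := abs_nonneg (a₂ : ℝ)
      have i3 := abs_nonneg (b₁ : ℝ)
      have i4 := abs_nonneg (b₂ : ℝ)
      linarith only [i1, i2, i3, i4]
    have hA0 : 0 < A := two_pos.trans_le hA2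
    have hCAX : 0 < C * A * (κ₂ * R) := by positivity
    have ev : ∀ᶠ L : ℕ in atTop, (1 : ℝ) + l₀ + l₀ * Real.log A + 4 * |l₀ * Real.log (C * A * (κ₂ * R))| ≤ (L : ℝ) :=
      tendsto_natCast_atTop_atTop.eventually_ge_atTop _
    filter_upwards [ev] with L hL
    have hlogA : 0 ≤ Real.log A := Real.log_nonneg (one_le_two.trans hA2)
    have hl00 : (0 : ℝ) ≤ l₀ := Nat.cast_nonneg _
    have g1 : 0 ≤ l₀ * Real.log A := by positivity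
    have g2 := abs_nonneg (l₀ * Real.log (C * A * (κ₂ * R)))
    refine ⟨⟨L, d₁, d₂, d₃, a₁, a₂, b₁, b₂⟩, ⟨hab, ?_, ?_, ?_⟩, rfl, hl₀.symm, ?_, ?_, ?_⟩
    · have : (1 : ℝ) ≤ L := by linarith only [hL, hl00, g1, g2]
      exact_mod_cast this
    · show d₁ + d₂ + d₃ ≤ L
      rw [← hl₀]
      have : (l₀ : ℝ) ≤ L := by linarith only [hL, g1, g2]
      exact_mod_cast this
    · have eA : Pr.A ⟨L, d₁, d₂, d₃, a₁, a₂, b₁, b₂⟩ = A := hA.symm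
      have el : Pr.l ⟨L, d₁, d₂, d₃, a₁, a₂, b₁, b₂⟩ = l₀ := hl₀.symm
      rw [eA, el]
      show A ^ l₀ ≤ Real.exp (L : ℝ)
      rw [← Real.log_le_iff_le_exp (pow_pos hA0 _), Real.log_pow]
      linarith only [hL, hl00, g2]
    · show 1 / (8 * y) * (κ₂ * κ₁ ^ 2) * (R : ℝ) ^ 2 ≤ ((d₁ : ℝ) + 1) * (d₂ + 1) * (d₃ + 1)
      calc 1 / (8 * y) * (κ₂ * κ₁ ^ 2) * (R : ℝ) ^ 2 = (R₀ / 2) * (R₀ / (2 * (y * ε))) * (ε * X / 2) := by
            have e : R₀ * R₀ = κ₁ ^ 2 * R := by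
              rw [hR₀]
              calc κ₁ * Real.sqrt R * (κ₁ * Real.sqrt R) = κ₁ ^ 2 * (Real.sqrt R * Real.sqrt R) := by ring
                _ = κ₁ ^ 2 * R := by rw [hRs]
            have e2 : (R₀ / 2) * (R₀ / (2 * (y * ε))) * (ε * X / 2) = (R₀ * R₀) * X / (8 * y) := by
              field_simp
              ring
            rw [e2, e, hX]
            field_simp
        _ ≤ ((d₁ : ℝ) + 1) * (d₂ + 1) * (d₃ + 1) := by gcongr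
    · have eA : Pr.A ⟨L, d₁, d₂, d₃, a₁, a₂, b₁, b₂⟩ = A := hA.symm
      have el : Pr.l ⟨L, d₁, d₂, d₃, a₁, a₂, b₁, b₂⟩ = l₀ := hl₀.symm
      rw [eA, el, ← Real.log_le_iff_le_exp (pow_pos hCAX _), Real.log_pow]
      have g3 := le_abs_self (l₀ * Real.log (C * A * (κ₂ * R)))
      have g4 : (L : ℝ) ≤ R * L := le_mul_of_one_le_left (Nat.cast_nonneg _) hR1
      linarith only [hL, hl00, g1, g3, g4]
    · refine nodes_exist τ₁ τ₂ h2 ⟨L, d₁, d₂, d₃, a₁, a₂, b₁, b₂⟩ hab ε (κ₂ * R) (κ₁ * Real.sqrt R) hε hε0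
        (by positivity) (by positivity) ?_ ?_ ?_ ?_
      · show (d₃ : ℝ) ≤ ε * (κ₂ * R) / 2
        rw [← hX]
        exact e3a
      · show ((d₂ : ℝ) + 1) * (y * ε) ≤ κ₁ * Real.sqrt R
        rw [← hR₀, ← le_div_iff₀ (by positivity)]
        exact e2a
      · show (d₁ : ℝ) + 1 ≤ κ₁ * Real.sqrt R
        rw [← hR₀]
        exact e1a
      · show |(a₂ : ℝ)| * (κ₁ * Real.sqrt R) ≤ y * ε * (κ₂ * R)
        have k1 : |(a₂ : ℝ)| ≤ w ^ 2 := by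
          rw [← hiε, le_div_iff₀ hε0]
          exact haε
        have k2 : κ₁ * w ^ 4 ≤ y * κ₂ * Real.sqrt R := by
          calc κ₁ * w ^ 4 ≤ (w * (y * κ₂)) * w ^ 4 := by gcongr
            _ = y * κ₂ * w ^ 5 := by ring
            _ ≤ y * κ₂ * Real.sqrt R := by gcongr
        have k3 : y * ε * (κ₂ * R) * w ^ 2 = y * κ₂ * Real.sqrt R * Real.sqrt R := by
          calc y * ε * (κ₂ * R) * w ^ 2 = y * κ₂ * R * (ε * w ^ 2) := by ring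
            _ = y * κ₂ * (Real.sqrt R * Real.sqrt R) := by rw [hεw, hRs, mul_one]
            _ = y * κ₂ * Real.sqrt R * Real.sqrt R := by ring
        have hw2 : 0 < w ^ 2 := by positivity
        refine le_of_mul_le_mul_right ?_ hw2
        rw [k3]
        calc |(a₂ : ℝ)| * (κ₁ * Real.sqrt R) * w ^ 2 ≤ w ^ 2 * (κ₁ * Real.sqrt R) * w ^ 2 := by gcongr
          _ = κ₁ * w ^ 4 * Real.sqrt R := by ring
          _ ≤ y * κ₂ * Real.sqrt R * Real.sqrt R := by gcongr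

end Pool.Agent.MSN
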