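import Pool.Agent.Lib.MP_f58a57_nt.P.G3_Bound
import Pool.Agent.Lib.MP_f58a57_nt.P.M2_Schwarz

/-! # X: extrapolation from a real base point (MP_f58a57_nt, algebraic `j`) -/

open Complex Filter Topology

noncomputable section

namespace Pool.Agent.MSN

open MSP

/-- X1a. PROOF. `g = gm GG m` is entire (V3a), `1`-periodic (G1d), `‖g t‖ ≤ B exp(C₁ L (1 + t.im²))` (G3b) and has a zero of order
`≥ 2S - m ≥ S` at the base point (V3d). `schwarz` with `q = 1`, `R = S/(C₁ L) ≥ 1`: for `|t.im| ≤ 1`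
`‖g t‖ ≤ B exp(C₁ L (1 + R²) - (2R - π) S) = B exp(C₁ L + π S - S²/(C₁ L))`, and `C₁ L + π S ≤ S²/(2 C₁ L)` if `S ≥ C L` with `C` large. -/
theorem gm_small2 (c₁ c₂ : Cv) (x₀ : ℝ) : ∃ C : ℝ, 1 ≤ C ∧ ∀ (P : Pr), P.Good → ∀ (B : ℝ)
    (coef : ℕ × ℕ × ℕ × ℕ × ℕ → ℂ), (∀ ν ∈ P.box, ‖coef ν‖ ≤ B) → ∀ S : ℕ, C * P.L ≤ S →
    (∀ r s, r + s < 2 * S → dd r s (GG c₁ c₂ P coef) x₀ x₀ = 0) → ∀ m < S, ∀ t : ℂ, |t.im| ≤ 1 →
    ‖gm (GG c₁ c₂ P coef) m t‖ ≤ B * Real.exp (-((S : ℝ) ^ 2 / (C * P.L))) := by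
  obtain ⟨C₁, hC₁, hb⟩ := gm_bound c₁ c₂
  refine ⟨16 * C₁, by linarith, ?_⟩
  intro P hP B coef hcoef S hS hvan m hm t ht
  have hL0 : (0 : ℝ) < P.L := by
    have := hP.hL
    exact_mod_cast this
  have hC₁0 : 0 < C₁ := by linarith
  have hCL : 0 < C₁ * P.L := by positivity
  have hB0 : 0 ≤ B := by
    have h1 := hb P hP B coef hcoef m 0
    have h2 : 0 ≤ B * Real.exp (C₁ * P.L * (1 + (0 : ℂ).im ^ 2)) := (norm_nonneg _).trans h1
    exact nonneg_of_mul_nonneg_left h2 (Real.exp_pos _)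
  have hAn : ∀ t w, An2 (GG c₁ c₂ P coef) t w := fun t w => GG_an2 c₁ c₂ P coef t w
  set R : ℝ := S / (C₁ * P.L) with hRdef
  have hRm : R * (C₁ * P.L) = S := by
    rw [hRdef]; field_simp
  have hR16 : 16 ≤ R := by
    rw [hRdef, le_div_iff₀ hCL]
    linarith
  have key := schwarz 1 S (fun _ => x₀) (fun i j hij => absurd (Subsingleton.elim i j) hij)
    (gm (GG c₁ c₂ P coef) m) (gm_differentiable hAn m)
    (fun t => gm_period c₁ c₂ P coef m t)
    (by
      intro j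
      have h1 := order_gm hAn (x₀ : ℂ) (2 * S) (fun r s hrs => hvan r s hrs) m
      refine le_trans ?_ h1
      have : S ≤ 2 * S - m := by omega
      exact_mod_cast this)
    R (B * Real.exp (C₁ * P.L * (1 + R ^ 2))) (by linarith)
    (by
      intro t' ht'
      refine (hb P hP B coef hcoef m t').trans ?_
      have h1 : t'.im ^ 2 = R ^ 2 := by rw [← ht', sq_abs]
      rw [h1])
    t (ht.trans (by linarith))
  refine key.trans ?_
  rw [mul_assoc, ← Real.exp_add]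
  refine mul_le_mul_of_nonneg_left (Real.exp_le_exp.mpr ?_) hB0
  have hpi : Real.pi ≤ 4 := Real.pi_le_four
  have hpi0 : 0 < Real.pi := Real.pi_pos
  have h1 : Real.pi * |t.im| ≤ 4 := by
    calc Real.pi * |t.im| ≤ 4 * 1 := by gcongr
      _ = 4 := by ring
  have hS2 : (S : ℝ) ^ 2 / (16 * C₁ * P.L) = R * S / 16 := by
    rw [← hRm]; field_simp
  rw [hS2]
  have h2 : (2 * R - 4) * S ≤ (2 * R - Real.pi * |t.im|) * S :=
    mul_le_mul_of_nonneg_right (by linarith) (Nat.cast_nonneg _)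
  have h3 : C₁ * P.L * (1 + R ^ 2) = C₁ * P.L + R * S := by
    rw [← hRm]; ring
  have h4 : 16 * S ≤ R * S := mul_le_mul_of_nonneg_right hR16 (Nat.cast_nonneg _)
  have h5 : C₁ * P.L ≤ S / 16 := by linarith
  rw [h3]
  simp only [Nat.cast_one, one_mul]
  have hS0 : (0 : ℝ) ≤ S := Nat.cast_nonneg _
  nlinarith [h2, h4, h5]

/-- X1b. PROOF. V3c (`dd_eq_sum`) with `dd 0 m G t t = m! gm G m t` (V3 `gm_eq`); Cauchy's inequality on the unit circle around the real point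
`x` for the `l`-th derivative of `t ↦ m! gm G m t`: `≤ l! m! B exp(-S²/(CL))`, `l + m = r + s`, `l! m! ≤ (r+s)!`, `∑ choose = 2^r`. -/
theorem extra2 (c₁ c₂ : Cv) (x₀ : ℝ) : ∃ C : ℝ, 1 ≤ C ∧ ∀ (P : Pr), P.Good → ∀ (B : ℝ)
    (coef : ℕ × ℕ × ℕ × ℕ × ℕ → ℂ), (∀ ν ∈ P.box, ‖coef ν‖ ≤ B) → ∀ S : ℕ, C * P.L ≤ S →
    (∀ r s, r + s < 2 * S → dd r s (GG c₁ c₂ P coef) x₀ x₀ = 0) → ∀ r s, r + s < S → ∀ x : ℝ,
    ‖dd r s (GG c₁ c₂ P coef) x x‖ ≤ B * (2 ^ r * ((r + s).factorial : ℝ)) * Real.exp (-((S : ℝ) ^ 2 / (C * P.L))) := by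
  obtain ⟨C, hC, hsm⟩ := gm_small2 c₁ c₂ x₀
  refine ⟨C, hC, ?_⟩
  intro P hP B coef hcoef S hS hvan r s hrs x
  have hAn : ∀ t w, An2 (GG c₁ c₂ P coef) t w := fun t w => GG_an2 c₁ c₂ P coef t w
  have hsm' := hsm P hP B coef hcoef S hS hvan
  set E : ℝ := B * Real.exp (-((S : ℝ) ^ 2 / (C * P.L))) with hE
  have hE0 : 0 ≤ E := (norm_nonneg _).trans (hsm' 0 (by omega) 0 (by simp))
  set G := GG c₁ c₂ P coef with hG
  have hdd : ∀ m : ℕ, (fun t' : ℂ => dd 0 m G t' t') = fun t' => (m.factorial : ℂ) * gm G m t' := by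
    intro m
    funext t'
    rw [gm_eq, mul_div_cancel₀]
    exact_mod_cast Nat.factorial_ne_zero m
  rw [dd_eq_sum hAn r s (x : ℂ)]
  have hterm : ∀ l ∈ Finset.range (r + 1), ‖((r.choose l : ℕ) : ℂ) * (-1) ^ (r - l) *
      iteratedDeriv l (fun t' => dd 0 (s + r - l) G t' t') (x : ℂ)‖ ≤ (r.choose l : ℝ) * (((r + s).factorial : ℝ) * E) := by
    intro l hl
    have hl' : l ≤ r := by
      have := Finset.mem_range.mp hl
      omega
    rw [norm_mul, norm_mul, norm_pow, norm_neg, norm_one, one_pow, mul_one, Complex.norm_natCast]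
    refine mul_le_mul_of_nonneg_left ?_ (Nat.cast_nonneg _)
    rw [hdd]
    have hdiff : Differentiable ℂ (fun t' : ℂ => ((s + r - l).factorial : ℂ) * gm G (s + r - l) t') :=
      (gm_differentiable hAn _).const_mul _
    have hcau := Complex.norm_iteratedDeriv_le_of_forall_mem_sphere_norm_le (c := (x : ℂ)) (R := 1)
      (C := ((s + r - l).factorial : ℝ) * E) (f := fun t' : ℂ => ((s + r - l).factorial : ℂ) * gm G (s + r - l) t') l one_pos
      hdiff.diffContOnCl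
      (by
        intro z hz
        rw [norm_mul, Complex.norm_natCast]
        refine mul_le_mul_of_nonneg_left ?_ (Nat.cast_nonneg _)
        apply hsm' _ (by omega)
        have h1 : |(z - x).im| ≤ ‖z - x‖ := Complex.abs_im_le_norm _
        have h2 : ‖z - x‖ = 1 := by simpa [dist_eq_norm] using hz
        have h3 : (z - x).im = z.im := by simp
        rw [h3, h2] at h1
        exact h1)
    refine hcau.trans ?_
    rw [one_pow, div_one, ← mul_assoc]
    refine mul_le_mul_of_nonneg_right ?_ hE0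
    have h1 : l.factorial * (s + r - l).factorial ∣ (l + (s + r - l)).factorial :=
      Nat.factorial_mul_factorial_dvd_factorial_add _ _
    have h2 : l + (s + r - l) = r + s := by omega
    rw [h2] at h1
    exact_mod_cast Nat.le_of_dvd (Nat.factorial_pos _) h1
  refine (norm_sum_le _ _).trans ((Finset.sum_le_sum hterm).trans ?_)
  rw [← Finset.sum_mul]
  have hsum : ∑ l ∈ Finset.range (r + 1), (r.choose l : ℝ) = 2 ^ r := by
    exact_mod_cast Nat.sum_range_choose r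
  rw [hsum, hE]
  apply le_of_eq
  ring

end Pool.Agent.MSN
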