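import Pool.Agent.Lib.MP_f58a57_nt.N.Hyp
import Pool.Agent.Lib.MP_f58a57_nt.N.Params
import Pool.Agent.Lib.MP_f58a57_nt.N.X_Extra
import Pool.Agent.Lib.MP_f58a57_nt.P.F2c_Core

/-! # The contradiction (MP_f58a57_nt, algebraic `j`) -/

open Complex Filter Topology IntermediateField Polynomial

noncomputable section

namespace Pool.Agent.MSN

open MSP

/-- the conclusion of the Siegel step -/
def SiegelStep (c₁ c₂ : Cv) (Ω₁ Ω₂ ϑ : ℂ) : Prop :=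
  ∃ C : ℝ, 1 ≤ C ∧ ∀ (P : Pr), P.Good → ∀ T : ℕ, P.L ≤ T →
    C * (T : ℝ) ^ 2 ≤ ((P.L : ℝ) + 1) ^ 2 * (((P.d₁ : ℝ) + 1) * (P.d₂ + 1) * (P.d₃ + 1)) →
    ∃ p : P.box → Polynomial ℤ, p ≠ 0 ∧ (∀ ν, ((p ν).natDegree : ℝ) ≤ C * P.l) ∧
      (∀ ν, len (p ν) ≤ Real.exp (C * T * (1 + Real.log (P.l + 1)))) ∧
      ∀ r s, r + s < T → dd r s (GG c₁ c₂ P (cf ϑ Ω₁ Ω₂ P p)) (1 / 4) (1 / 4) = 0

/-- the conclusion of the norm step -/
def NormStep (c₁ c₂ : Cv) (Ω₁ Ω₂ ϑ : ℂ) (k : ℕ) (a : ℤ) : Prop :=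
  ∃ C : ℝ, 1 ≤ C ∧ ∀ (P : Pr), P.Good → ∀ (T δ : ℕ) (H' : ℝ) (p : P.box → Polynomial ℤ), P.L ≤ T → 1 ≤ H' →
    (∀ ν, (p ν).natDegree ≤ δ) → (∀ ν, len (p ν) ≤ H') → ∀ r s, r + s ≤ T →
    (∀ i j, i + j < r + s → dd i j (FF c₁ c₂ P (cf ϑ Ω₁ Ω₂ P p)) ((a : ℂ) / 2 ^ k) ((a : ℂ) / 2 ^ k) = 0) →
    dd r s (FF c₁ c₂ P (cf ϑ Ω₁ Ω₂ P p)) ((a : ℂ) / 2 ^ k) ((a : ℂ) / 2 ^ k) ≠ 0 →
    ∃ Q : Polynomial ℤ, aeval ϑ Q ≠ 0 ∧ (Q.natDegree : ℝ) ≤ C * (δ + P.l) ∧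
      Real.log (len Q) ≤ C * (Real.log H' + T * (1 + Real.log (P.l + 1))) ∧
      Real.log ‖aeval ϑ Q‖ ≤ Real.log ‖dd r s (FF c₁ c₂ P (cf ϑ Ω₁ Ω₂ P p)) ((a : ℂ) / 2 ^ k) ((a : ℂ) / 2 ^ k)‖ -
        Real.log ((r + s).factorial : ℝ) + C * (Real.log H' + δ + T * (1 + Real.log (P.l + 1)))

private lemma one_le_four_mul {R : ℝ} (hR : 1 ≤ R) : 1 ≤ 4 * R := by linarith

private lemma core_sq {L : ℝ} (hL : 0 ≤ L) : L * L ≤ (L + 1) ^ 2 := by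
  have h : (L + 1) ^ 2 = L * L + (2 * L + 1) := by ring
  rw [h]
  linarith

private lemma core_two_mul {C R L : ℝ} (h1 : C ≤ R) (hR : 0 ≤ R) (hL : 0 ≤ L) : C * L ≤ 2 * (R * L) := by
  have h2 : C * L ≤ R * L := mul_le_mul_of_nonneg_right h1 hL
  have h3 : 0 ≤ R * L := mul_nonneg hR hL
  linarith

/-- the points -/
def npt (k j : ℕ) : ℝ := (2 * (j : ℝ) + 1) / 2 ^ (k + 1)

theorem npt_coe (k j : ℕ) : ((npt k j : ℝ) : ℂ) = ((2 * (j : ℤ) + 1 : ℤ) : ℂ) / 2 ^ (k + 1) := by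
  unfold npt
  push_cast
  rfl

theorem npt_int (k j : ℕ) (m : ℤ) : npt k j ≠ m := by
  unfold npt
  intro h
  have h2 : (0 : ℝ) < 2 ^ (k + 1) := by positivity
  rw [div_eq_iff h2.ne'] at h
  have h3 : (2 * (j : ℤ) + 1) = m * 2 ^ (k + 1) := by exact_mod_cast h
  rw [pow_succ] at h3
  have h4 : (2 * (j : ℤ) + 1) = 2 * (m * 2 ^ k) := by rw [h3]; ring
  omega

theorem npt_diff {k i j : ℕ} (hi : i < 2 ^ k) (hj : j < 2 ^ k) (hij : i ≠ j) (m : ℤ) :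
    npt k i - npt k j ≠ m := by
  unfold npt
  intro h
  have h2 : (0 : ℝ) < 2 ^ (k + 1) := by positivity
  rw [← sub_div, div_eq_iff h2.ne'] at h
  have h3 : ((2 * (i : ℤ) + 1) - (2 * (j : ℤ) + 1)) = m * 2 ^ (k + 1) := by exact_mod_cast h
  rw [pow_succ] at h3
  have h4 : (i : ℤ) - j = m * 2 ^ k := by linarith
  have hi' : (i : ℤ) < 2 ^ k := by exact_mod_cast hi
  have hj' : (j : ℤ) < 2 ^ k := by exact_mod_cast hj
  have hi0 : (0 : ℤ) ≤ (i : ℤ) := by positivity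
  have hj0 : (0 : ℤ) ≤ (j : ℤ) := by positivity
  have hp : (0 : ℤ) < 2 ^ k := by positivity
  rcases lt_trichotomy m 0 with hm | hm | hm
  · nlinarith
  · rw [hm, zero_mul] at h4
    apply hij
    have : (i : ℤ) = j := by linarith
    exact_mod_cast this
  · nlinarith

theorem npt_not_dvd {k : ℕ} (hk : 1 ≤ k) (j : ℕ) : ¬ ((2 : ℤ) ^ (k + 1) ∣ 2 * (2 * (j : ℤ) + 1)) := by
  intro h
  obtain ⟨m, hm⟩ := h
  obtain ⟨k', rfl⟩ : ∃ k', k = k' + 1 := ⟨k - 1, by omega⟩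
  have h4 : 2 * (j : ℤ) + 1 = 2 * (2 ^ k' * m) := by
    have : (2 : ℤ) ^ (k' + 1 + 1) * m = 2 * (2 * (2 ^ k' * m)) := by ring
    rw [this] at hm
    linarith
  omega

/-- from the entire function to the auxiliary function -/
theorem n_log_FF (c₁ c₂ : Cv) {P : Pr} {coef : ℕ × ℕ × ℕ × ℕ × ℕ → ℂ} {x : ℝ}
    (hx : ∀ m : ℤ, x ≠ m) {B E : ℝ} {r s : ℕ} (hB : 0 < B)
    (hne : dd r s (GG c₁ c₂ P coef) x x ≠ 0)
    (hmin : ∀ i i', i + i' < r + s → dd i i' (GG c₁ c₂ P coef) x x = 0)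
    (hb : ‖dd r s (GG c₁ c₂ P coef) x x‖ ≤ B * (2 ^ r * ((r + s).factorial : ℝ)) * Real.exp (-E))
    {T : ℕ} (hT : r + s ≤ T) :
    (∀ i i', i + i' < r + s → dd i i' (FF c₁ c₂ P coef) x x = 0) ∧
    dd r s (FF c₁ c₂ P coef) x x ≠ 0 ∧
    Real.log ‖dd r s (FF c₁ c₂ P coef) x x‖ ≤ Real.log B + T + Real.log ((r + s).factorial : ℝ) - E +
      P.M * |Real.log ‖N0 c₁.τ x * N0 c₂.τ x‖| := by
  have h1 : N0 c₁.τ x ≠ 0 := th_real_ne c₁.τ c₁.im x hx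
  have h2 : N0 c₂.τ x ≠ 0 := th_real_ne c₂.τ c₂.im x hx
  have h3 := GG_lead c₁ c₂ P coef x x h1 h2 (r + s) hmin r s rfl
  have h12 : N0 c₁.τ x * N0 c₂.τ x ≠ 0 := mul_ne_zero h1 h2
  have hF : dd r s (FF c₁ c₂ P coef) x x ≠ 0 := by
    intro h0
    rw [h0, mul_zero] at h3
    exact hne h3
  refine ⟨?_, hF, ?_⟩
  · -- induction on the order
    have key : ∀ k ≤ r + s, ∀ i i', i + i' < k → dd i i' (FF c₁ c₂ P coef) x x = 0 := by
      intro k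
      induction k with
      | zero => intro _ i i' h; omega
      | succ k ih =>
        intro hk i i' hii
        rcases Nat.lt_succ_iff_lt_or_eq.1 hii with hlt | heq
        · exact ih (by omega) i i' hlt
        · have h4 := GG_lead c₁ c₂ P coef x x h1 h2 k (fun a b hab => hmin a b (by omega)) i i' heq
          rw [hmin i i' (by omega)] at h4
          exact (mul_eq_zero.1 h4.symm).resolve_left (pow_ne_zero _ h12)
    exact key (r + s) le_rfl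
  have hf : (0 : ℝ) < ((r + s).factorial : ℝ) := by exact_mod_cast Nat.factorial_pos _
  have h4 : Real.log ‖dd r s (GG c₁ c₂ P coef) x x‖ =
      P.M * Real.log ‖N0 c₁.τ x * N0 c₂.τ x‖ + Real.log ‖dd r s (FF c₁ c₂ P coef) x x‖ := by
    rw [h3, norm_mul, norm_pow, Real.log_mul (pow_ne_zero _ (norm_ne_zero_iff.2 h12))
      (norm_ne_zero_iff.2 hF), Real.log_pow]
  have h5 : Real.log ‖dd r s (GG c₁ c₂ P coef) x x‖ ≤
      Real.log B + (r * Real.log 2 + Real.log ((r + s).factorial : ℝ)) - E := by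
    have h6 := Real.log_le_log (norm_pos_iff.2 hne) hb
    rw [Real.log_mul (by positivity) (Real.exp_pos _).ne', Real.log_mul hB.ne' (by positivity),
      Real.log_mul (by positivity) hf.ne', Real.log_pow, Real.log_exp] at h6
    linarith
  have h7 : (r : ℝ) * Real.log 2 ≤ T := by
    have h8 : (r : ℝ) ≤ T := by
      have : r ≤ T := by omega
      exact_mod_cast this
    have h9 := Real.log_two_lt_d9
    have h10 : 0 < Real.log 2 := Real.log_pos one_lt_two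
    have h11 : (0 : ℝ) ≤ r := Nat.cast_nonneg _
    nlinarith
  have h8 : -((P.M : ℝ) * Real.log ‖N0 c₁.τ x * N0 c₂.τ x‖) ≤
      P.M * |Real.log ‖N0 c₁.τ x * N0 c₂.τ x‖| := by
    rw [← mul_neg]
    exact mul_le_mul_of_nonneg_left (neg_le_abs _) (Nat.cast_nonneg _)
  linarith

set_option maxHeartbeats 4000000 in
/-- polynomials with bounded degree and small value -/
theorem step2 (c₁ c₂ : Cv) (Ω₁ Ω₂ ϑ : ℂ) (hΩ₁ : Ω₁ ≠ 0) (hΩ₂ : Ω₂ ≠ 0) (htr : Transcendental ℚ ϑ)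
    (hirr : Irrational (c₁.τ.im / c₂.τ.im)) (hsieg : SiegelStep c₁ c₂ Ω₁ Ω₂ ϑ)
    (hnorm : ∀ (k : ℕ) (a : ℤ), ¬ ((2 : ℤ) ^ k ∣ 2 * a) → NormStep c₁ c₂ Ω₁ Ω₂ ϑ k a) (Λ : ℝ) (hΛ : 0 < Λ) :
    ∃ δ₀ σ₁ : ℝ, 1 ≤ δ₀ ∧ 0 < σ₁ ∧ ∀ᶠ L : ℕ in atTop, ∃ Q : Polynomial ℤ, (Q.natDegree : ℝ) ≤ δ₀ ∧
      Real.log (len Q) ≤ σ₁ * L ∧ aeval ϑ Q ≠ 0 ∧ ‖aeval ϑ Q‖ ≤ Real.exp (-(Λ * δ₀ * (σ₁ * L))) := by
  obtain ⟨CZ, hCZ, hzero⟩ := zero_est c₁ c₂
  obtain ⟨CX, hCX, hextra⟩ := extra2 c₁ c₂ (1 / 4)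
  obtain ⟨CS, hCS, hsieg⟩ := hsieg
  obtain ⟨c, hc, hparams⟩ := params2 c₁.τ c₂.τ c₂.im hirr
  obtain ⟨Cb, hCb, hcfb⟩ := cf_bound Ω₁ Ω₂ ϑ hΩ₁ hΩ₂
  set κ₁ : ℝ := 1 / CZ with hκ₁
  have hκ₁0 : 0 < κ₁ := one_div_pos.2 (zero_lt_one.trans_le hCZ)
  clear_value κ₁
  set κ₂ : ℝ := 16 * CS / (c * κ₁ ^ 2) with hκ₂
  have hκ₂0 : 0 < κ₂ := div_pos (mul_pos (by norm_num) (zero_lt_one.trans_le hCS)) (mul_pos hc (pow_pos hκ₁0 2))
  clear_value κ₂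
  have hκ₂' : c * (κ₂ * κ₁ ^ 2) = 16 * CS := by
    rw [hκ₂]
    field_simp
  obtain ⟨k, hk1, hk⟩ : ∃ k : ℕ, 1 ≤ k ∧ CZ * κ₂ ≤ 2 ^ k := by
    obtain ⟨k, hk⟩ := pow_unbounded_of_one_lt (CZ * κ₂) (one_lt_two (α := ℝ))
    refine ⟨k + 1, by omega, hk.le.trans ?_⟩
    exact pow_le_pow_right₀ one_le_two (by omega)
  set q : ℕ := 2 ^ k with hq
  have hqr : CZ * κ₂ ≤ (q : ℝ) := by
    rw [hq]
    push_cast
    exact hk
  choose CN hCN1 hCN using fun j : Fin q => hnorm (k + 1) (2 * (j : ℤ) + 1) (npt_not_dvd hk1 j)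
  set N : ℝ := 1 + ∑ j, CN j with hN
  have hCN0 : ∀ j, 0 ≤ CN j := fun j => zero_le_one.trans (hCN1 j)
  have hN1 : 1 ≤ N := by
    have : 0 ≤ ∑ j, CN j := Finset.sum_nonneg fun j _ => hCN0 j
    linarith
  have hNj : ∀ j, CN j ≤ N := fun j => by
    have := Finset.single_le_sum (fun i _ => hCN0 i) (Finset.mem_univ j)
    linarith
  set u : Fin q → ℝ := fun j => |Real.log ‖N0 c₁.τ (npt k j) * N0 c₂.τ (npt k j)‖| with hu
  set U : ℝ := ∑ j, u j with hU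
  have hu0 : ∀ j, 0 ≤ u j := fun j => abs_nonneg _
  have hU0 : 0 ≤ U := Finset.sum_nonneg fun j _ => hu0 j
  have hUj : ∀ j, u j ≤ U := fun j => Finset.single_le_sum (fun i _ => hu0 i) (Finset.mem_univ j)
  clear_value U N
  set K : ℝ := CS + Cb * (CS + 1) + 1 + 3 * U + N * (2 * CS + 1) with hK
  have hNN : 0 ≤ N := zero_le_one.trans hN1
  have hK0 : 0 ≤ K := by positivity
  clear_value K
  set M : ℝ := K + Λ * (N * (CS + 1)) ^ 2 with hM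
  have hCX0 : 0 < CX := by linarith
  have hM0 : 0 < M := by
    have : 0 < Λ * (N * (CS + 1)) ^ 2 := by positivity
    exact add_pos_of_nonneg_of_pos hK0 this
  clear_value M
  set η : ℝ := 1 / (4 * CX * M) with hη
  have hη0 : 0 < η := one_div_pos.2 (mul_pos (mul_pos (by norm_num) hCX0) hM0)
  clear_value η
  obtain ⟨R, l₀, hKR, hR1, hlη, hev⟩ := hparams κ₁ κ₂ η CZ ((1 / κ₁) ^ 2 + (κ₁ / κ₂) ^ 2 + CX) hκ₁0 hκ₂0 hη0 hCZ
  have hR1r : (1 : ℝ) ≤ R := by exact_mod_cast hR1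
  have hR0 : (0 : ℝ) < R := by linarith
  have hl00 : (0 : ℝ) ≤ l₀ := Nat.cast_nonneg _
  set w : ℝ := 1 + Real.log ((l₀ : ℝ) + 1) with hw
  have hw1 : 1 ≤ w := by
    have : 0 ≤ Real.log ((l₀ : ℝ) + 1) := Real.log_nonneg (by linarith)
    linarith
  clear_value w
  have hwη : w ≤ η * R := by
    refine le_trans ?_ hlη
    have : 0 ≤ l₀ * w := by positivity
    linarith
  set δ₀ : ℝ := N * (CS + 1) * (l₀ + 1) with hδ₀
  set σ₁ : ℝ := N * (CS + 1) * (4 * R * w) with hσ₁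
  have hNC : 1 ≤ N * (CS + 1) := one_le_mul_of_one_le_of_one_le hN1 (le_add_of_nonneg_left (zero_le_one.trans hCS))
  have hδ₀1 : 1 ≤ δ₀ := by
    rw [hδ₀]
    exact one_le_mul_of_one_le_of_one_le hNC (le_add_of_nonneg_left hl00)
  have hσ₁0 : 0 < σ₁ := by
    rw [hσ₁]
    have : 0 < N * (CS + 1) := by linarith
    positivity
  clear_value δ₀ σ₁
  refine ⟨δ₀, σ₁, hδ₀1, hσ₁0, ?_⟩
  filter_upwards [hev] with L hL
  obtain ⟨P, hP, hPL, hPl, hPd, hPA, h₀, m₀, hnodes⟩ := hL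
  have hL1 : 1 ≤ L := by rw [← hPL]; exact hP.hL
  have hL1r : (1 : ℝ) ≤ L := by exact_mod_cast hL1
  have hLr : ((P.L : ℕ) : ℝ) = L := by rw [hPL]
  have hlr : ((P.l : ℕ) : ℝ) = l₀ := by rw [hPl]
  have hlL : (l₀ : ℝ) ≤ L := by
    rw [← hLr, ← hlr]
    exact_mod_cast hP.hl
  -- the orders
  set S' : ℕ := R * L with hS'
  set T : ℕ := 4 * R * L with hT
  have hTS : T = 2 * (2 * S') := by
    rw [hT, hS']
    ring
  clear_value S' T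
  have hS'r : (S' : ℝ) = R * L := by
    rw [hS']
    push_cast
    ring
  have hTr : (T : ℝ) = 4 * R * L := by
    rw [hT]
    push_cast
    ring
  have hTL : (L : ℝ) ≤ T := by
    rw [hTr]
    exact le_mul_of_one_le_left (zero_le_one.trans hL1r) (one_le_four_mul hR1r)
  have hLT : P.L ≤ T := by
    rw [hPL]
    exact_mod_cast hTL
  have hT1r : (1 : ℝ) ≤ T := hL1r.trans hTL
  set W : ℝ := T * w with hW
  clear_value W
  have hTW : (T : ℝ) ≤ W := by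
    rw [hW]
    exact le_mul_of_one_le_right (zero_le_one.trans hT1r) hw1
  have hW0 : 0 ≤ W := by linarith
  have hLW : (L : ℝ) ≤ W := hTL.trans hTW
  -- Siegel
  obtain ⟨p, hp0, hpdeg, hplen, hpvan⟩ := hsieg P hP T hLT (by
    rw [hTr, hLr]
    have h1 : (L : ℝ) * L ≤ (L + 1) ^ 2 := core_sq (zero_le_one.trans hL1r)
    calc CS * (4 * (R : ℝ) * L) ^ 2 = (L * L) * (16 * CS * R ^ 2) := by ring
      _ ≤ ((L : ℝ) + 1) ^ 2 * (16 * CS * R ^ 2) := by gcongr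
      _ = ((L : ℝ) + 1) ^ 2 * (c * (κ₂ * κ₁ ^ 2) * R ^ 2) := by rw [hκ₂']
      _ ≤ ((L : ℝ) + 1) ^ 2 * (((P.d₁ : ℝ) + 1) * (P.d₂ + 1) * (P.d₃ + 1)) := by gcongr)
  set coef := cf ϑ Ω₁ Ω₂ P p with hcoef
  set δ : ℕ := ⌊CS * P.l⌋₊ with hδ
  have hCSl : 0 ≤ CS * P.l := by positivity
  have hδr : (δ : ℝ) ≤ CS * l₀ := by
    rw [← hlr]
    exact Nat.floor_le hCSl
  have hpdeg' : ∀ ν, (p ν).natDegree ≤ δ := fun ν => Nat.le_floor (hpdeg ν)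
  clear_value δ
  set H' : ℝ := Real.exp (CS * T * (1 + Real.log (P.l + 1))) with hH'
  have hH'e : CS * T * (1 + Real.log ((P.l : ℝ) + 1)) = CS * W := by
    rw [hW, hw, hlr]
    ring
  have hH'1 : 1 ≤ H' := by
    rw [hH', hH'e]
    exact Real.one_le_exp (by positivity)
  have hlogH' : Real.log H' = CS * W := by
    rw [hH', Real.log_exp, hH'e]
  clear_value H'
  set B : ℝ := H' * Real.exp (Cb * (δ + P.L)) with hB
  have hB0 : 0 < B := by positivity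
  have hlogB : Real.log B = CS * W + Cb * (δ + L) := by
    rw [hB, Real.log_mul (by positivity) (Real.exp_pos _).ne', hlogH', Real.log_exp, hLr]
  have hcoefB : ∀ ν ∈ P.box, ‖coef ν‖ ≤ B := hcfb P hP δ H' p hpdeg' hplen
  clear_value B
  -- the zero estimate
  have hnotvan : ¬ Van c₁ c₂ P coef (fun j : Fin q => npt k j) (2 * S') := by
    intro hvan
    obtain ⟨ν, hν, hνne⟩ := cf_ne Ω₁ Ω₂ ϑ hΩ₁ hΩ₂ htr P p hp0
    have hsq := Real.sq_sqrt hR0.le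
    have hk1' : (1 / κ₁) ^ 2 ≤ R := by
      have : 0 ≤ (κ₁ / κ₂) ^ 2 := by positivity
      linarith
    have hk2' : (κ₁ / κ₂) ^ 2 ≤ R := by
      have : 0 ≤ (1 / κ₁) ^ 2 := by positivity
      linarith
    refine hνne (hzero P hP coef q S' (fun j : Fin q => npt k j) ?_ hvan (κ₂ * R) (κ₁ * Real.sqrt R)
      ?_ ?_ ?_ ?_ ?_ h₀ m₀ hnodes ν hν)
    · intro i j hij m
      exact npt_diff i.2 j.2 (fun h0 => hij (Fin.ext h0)) m
    · have h1 : 1 / κ₁ ≤ Real.sqrt R := Real.le_sqrt_of_sq_le hk1'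
      rw [div_le_iff₀ hκ₁0] at h1
      linarith
    · have h1 : κ₁ / κ₂ ≤ Real.sqrt R := Real.le_sqrt_of_sq_le hk2'
      rw [div_le_iff₀ hκ₂0] at h1
      have h3 : 0 ≤ Real.sqrt R := Real.sqrt_nonneg _
      calc κ₁ * Real.sqrt R ≤ (Real.sqrt R * κ₂) * Real.sqrt R := by gcongr
        _ = κ₂ * (Real.sqrt R) ^ 2 := by ring
        _ = κ₂ * R := by rw [hsq]
    · rw [hLr, hS'r]
      have h1 : CZ * κ₁ ^ 2 ≤ 1 := by
        rw [hκ₁]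
        have : CZ * (1 / CZ) ^ 2 = 1 / CZ := by field_simp
        rw [this, div_le_one (by linarith)]
        exact hCZ
      calc CZ * (L : ℝ) * (κ₁ * Real.sqrt R) ^ 2 = (CZ * κ₁ ^ 2) * (L * (Real.sqrt R) ^ 2) := by ring
        _ = (CZ * κ₁ ^ 2) * (L * R) := by rw [hsq]
        _ ≤ 1 * (L * R) := by gcongr
        _ = R * L := by ring
    · rw [hLr, hS'r]
      calc CZ * (κ₂ * (R : ℝ)) * L = (CZ * κ₂) * (R * L) := by ring
        _ ≤ q * (R * L) := by gcongr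
    · rw [hS'r]
      exact hPA
  unfold Van at hnotvan
  push Not at hnotvan
  obtain ⟨j, r₀, s₀, hrs₀, hne₀⟩ := hnotvan
  obtain ⟨r, s, hrs, hne, hmin⟩ := f2c_find
    (f := fun r s => dd r s (GG c₁ c₂ P coef) (npt k j) (npt k j)) hrs₀ hne₀
  have hS2 : ((2 * S' : ℕ) : ℝ) = 2 * (R * L) := by
    push_cast
    rw [hS'r]
  have hext := hextra P hP B coef hcoefB (2 * S') (by
    rw [hLr, hS2]
    have h1 : CX ≤ R := by
      have h2 : 0 ≤ (1 / κ₁) ^ 2 := by positivity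
      have h3 : 0 ≤ (κ₁ / κ₂) ^ 2 := by positivity
      linarith
    exact core_two_mul h1 hR0.le (zero_le_one.trans hL1r)) (by
    rw [← hTS]
    intro r s hrs
    have := hpvan r s hrs
    simpa using this) r s hrs (npt k j)
  have hE : ((2 * S' : ℕ) : ℝ) ^ 2 / (CX * P.L) = 4 * (1 / CX * R ^ 2 * L) := by
    rw [hS2, hLr]
    field_simp
    ring
  rw [hE] at hext
  obtain ⟨hFmin, hFne, hFlog⟩ := n_log_FF c₁ c₂ (npt_int k j) hB0 hne hmin hext (T := T) (by omega)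
  rw [npt_coe] at hFne hFlog
  obtain ⟨Q, hQ0, hQdeg, hQlen, hQval⟩ := hCN j P hP T δ H' p hLT hH'1 hpdeg' hplen r s (by omega)
    (fun i i' hii => by
      have := hFmin i i' hii
      rwa [npt_coe] at this) hFne
  have hWe : T * (1 + Real.log ((P.l : ℝ) + 1)) = W := by rw [hW, hw, hlr]
  rw [hWe] at hQlen hQval
  have hkey : η * R ^ 2 * (4 * CX * M) = R ^ 2 := by
    rw [hη]
    field_simp
  refine ⟨Q, ?_, ?_, hQ0, ?_⟩
  · calc (Q.natDegree : ℝ) ≤ CN j * (δ + P.l) := hQdeg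
      _ ≤ N * (CS * l₀ + l₀) := by
        have := hNj j
        rw [hlr]
        gcongr
      _ = N * (CS + 1) * l₀ := by ring
      _ ≤ δ₀ := by
        rw [hδ₀]
        have : l₀ ≤ (l₀ : ℝ) + 1 := by linarith
        gcongr
  · rw [hlogH'] at hQlen
    calc Real.log (len Q) ≤ CN j * (CS * W + W) := hQlen
      _ ≤ N * (CS * W + W) := by
        have := hNj j
        gcongr
      _ = σ₁ * L := by
        rw [hσ₁, hW, hTr]
        ring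
  · have hQn : 0 < ‖aeval ϑ Q‖ := norm_pos_iff.2 hQ0
    rw [← Real.log_le_iff_le_exp hQn]
    rw [hlogH'] at hQval
    have hδW : (δ : ℝ) ≤ CS * W := by
      calc (δ : ℝ) ≤ CS * l₀ := hδr
        _ ≤ CS * L := by gcongr
        _ ≤ CS * W := by gcongr
    have hMW : (P.M : ℝ) ≤ 3 * W := by
      have h1 : P.M ≤ 3 * P.L := by
        have := hP.hl
        unfold Pr.M
        omega
      have h2 : (P.M : ℝ) ≤ 3 * P.L := by exact_mod_cast h1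
      linarith
    have hMU : (P.M : ℝ) * u j ≤ 3 * W * U := by
      have := hUj j
      have := hu0 j
      gcongr
    have hval2 : CN j * (CS * W + δ + W) ≤ N * (CS * W + CS * W + W) := by
      have := hNj j
      gcongr
    have hCbW : Cb * (δ + L) ≤ Cb * (CS * W + W) := by gcongr
    rw [hlogB] at hFlog
    have htot : Real.log ‖aeval ϑ Q‖ ≤ K * W - 4 * (1 / CX * R ^ 2 * L) := by
      have e1 : K * W = CS * W + Cb * (CS * W + W) + W + 3 * W * U + N * (CS * W + CS * W + W) := by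
        rw [hK]
        ring
      have h9 := hFlog
      rw [← npt_coe] at h9 hQval
      have h10 : (P.M : ℝ) * |Real.log ‖N0 c₁.τ (npt k j) * N0 c₂.τ (npt k j)‖| = P.M * u j := rfl
      rw [h10] at h9
      rw [e1]
      linarith
    have hWη : W ≤ 4 * η * R ^ 2 * L := by
      calc W = 4 * R * L * w := by rw [hW, hTr]
        _ ≤ 4 * R * L * (η * R) := by gcongr
        _ = 4 * η * R ^ 2 * L := by ring
    have hδσ : δ₀ * (σ₁ * L) ≤ (N * (CS + 1)) ^ 2 * (4 * η * R ^ 2 * L) := by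
      calc δ₀ * (σ₁ * L) = (N * (CS + 1)) ^ 2 * (4 * R * L) * ((l₀ + 1) * w) := by
            rw [hδ₀, hσ₁]
            ring
        _ ≤ (N * (CS + 1)) ^ 2 * (4 * R * L) * (η * R) := by gcongr
        _ = (N * (CS + 1)) ^ 2 * (4 * η * R ^ 2 * L) := by ring
    have hfin : K * W + Λ * (δ₀ * (σ₁ * L)) ≤ 1 / CX * R ^ 2 * L := by
      calc K * W + Λ * (δ₀ * (σ₁ * L)) ≤ K * (4 * η * R ^ 2 * L) + Λ * ((N * (CS + 1)) ^ 2 * (4 * η * R ^ 2 * L)) := by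
            gcongr
        _ = (η * R ^ 2 * (4 * CX * M)) * (1 / CX) * L := by
            rw [hM]
            field_simp
        _ = 1 / CX * R ^ 2 * L := by rw [hkey]; ring
    have hpos : 0 ≤ 1 / CX * R ^ 2 * L := by positivity
    calc Real.log ‖aeval ϑ Q‖ ≤ K * W - 4 * (1 / CX * R ^ 2 * L) := htot
      _ ≤ -(Λ * (δ₀ * (σ₁ * L))) := by linarith
      _ = -(Λ * δ₀ * (σ₁ * L)) := by ring

/-- the contradiction -/
theorem core2 (c₁ c₂ : Cv) (Ω₁ Ω₂ ϑ : ℂ) (hΩ₁ : Ω₁ ≠ 0) (hΩ₂ : Ω₂ ≠ 0) (htr : Transcendental ℚ ϑ)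
    (hirr : Irrational (c₁.τ.im / c₂.τ.im)) (hsieg : SiegelStep c₁ c₂ Ω₁ Ω₂ ϑ)
    (hnorm : ∀ (k : ℕ) (a : ℤ), ¬ ((2 : ℤ) ^ k ∣ 2 * a) → NormStep c₁ c₂ Ω₁ Ω₂ ϑ k a) : False := by
  obtain ⟨Λ, hΛ, hgel⟩ := gelfond ϑ 2 (by norm_num)
  obtain ⟨δ₀, σ₁, hδ, hσ, hev⟩ := step2 c₁ c₂ Ω₁ Ω₂ ϑ hΩ₁ hΩ₂ htr hirr hsieg hnorm Λ hΛ
  refine hgel (fun _ => δ₀) (fun n => σ₁ * n) ?_ ?_ hev
  · have h1 : ∀ᶠ n : ℕ in atTop, 1 + δ₀ / σ₁ ≤ (n : ℝ) := tendsto_natCast_atTop_atTop.eventually_ge_atTop _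
    filter_upwards [h1] with n hn
    have hn1 : (1 : ℝ) ≤ n := by
      have : 0 ≤ δ₀ / σ₁ := by positivity
      linarith
    refine ⟨hδ, ?_, le_rfl, by linarith, ?_, ?_⟩
    · have h2 : δ₀ / σ₁ ≤ n := by linarith
      rw [div_le_iff₀ hσ] at h2
      linarith
    · push_cast
      nlinarith
    · push_cast
      nlinarith
  · exact Tendsto.const_mul_atTop hσ tendsto_natCast_atTop_atTop

end Pool.Agent.MSN
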