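import Pool.Agent.Lib.MP_f58a57_nt.N.Hyp
import Pool.Agent.Lib.MP_f58a57_nt.A2_Transform

/-! # The action of `SL₂(ℤ)` (MP_f58a57_nt, algebraic `j`) -/

open Complex IntermediateField

noncomputable section

namespace Pool.Agent.MSN

theorem gm_ne {c d : ℤ} {a b : ℤ} (h : a * d - b * c = 1) {z : ℂ} (hz : 0 < z.im) : (c : ℂ) * z + d ≠ 0 := by
  intro h0
  have him := congrArg Complex.im h0
  have hre := congrArg Complex.re h0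
  simp at him hre
  rcases him with hc | hc
  · subst hc
    simp at hre
    subst hre
    simp at h
  · exact hz.ne' hc

theorem gm_im {c d : ℤ} {a b : ℤ} (h : a * d - b * c = 1) (z : ℂ) :
    (((a : ℂ) * z + b) / ((c : ℂ) * z + d)).im = z.im / Complex.normSq ((c : ℂ) * z + d) := by
  have hR : (a : ℝ) * d - b * c = 1 := by exact_mod_cast h
  rw [Complex.div_im]
  simp only [add_re, add_im, mul_re, mul_im, intCast_re, intCast_im, zero_mul, sub_zero, add_zero]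
  rw [← sub_div]
  congr 1
  linear_combination z.im * hR

theorem gm_alg (K : IntermediateField ℚ ℂ) {x y : ℂ} (hx : IsAlgebraic K x) (hy : IsAlgebraic K y) :
    IsAlgebraic K (x / y) := by
  rw [div_eq_mul_inv]
  exact hx.mul hy.inv

theorem gm_algI (K : IntermediateField ℚ ℂ) : IsAlgebraic K (I : ℂ) := by
  refine ⟨Polynomial.X ^ 2 + 1, ?_, by simp⟩
  intro h
  have h2 := congrArg (Polynomial.eval 0) h
  simp at h2

theorem gm_algZ (K : IntermediateField ℚ ℂ) (n : ℤ) : IsAlgebraic K (n : ℂ) := isAlgebraic_intCast n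

/-- the data move with `SL₂(ℤ)` -/
theorem DD.sl2 {τ Ω ϑ : ℂ} (h : DD τ Ω ϑ) {a b c d : ℤ} (hd : a * d - b * c = 1) :
    DD (((a : ℂ) * τ + b) / ((c : ℂ) * τ + d)) (((c : ℂ) * τ + d) * Ω) ϑ := by
  have hne : (c : ℂ) * τ + d ≠ 0 := gm_ne hd h.im
  have hpi : (Real.pi : ℂ) ≠ 0 := by exact_mod_cast Real.pi_ne_zero
  have hΩ := h.ne
  have hcd : IsAlgebraic ℚ⟮ϑ⟯ ((c : ℂ) * τ + d) := ((gm_algZ _ c).mul h.aτ).add (gm_algZ _ d)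
  refine ⟨?_, mul_ne_zero hne h.ne, ?_, ?_, ?_, ?_, ?_⟩
  · rw [gm_im hd]
    exact div_pos h.im (Complex.normSq_pos.2 hne)
  · rw [MSD.e4_transform a b c d hd τ h.im]
    have : ((c : ℂ) * τ + d) ^ 4 * MSD.e4 τ / (((c : ℂ) * τ + d) * Ω) ^ 4 = MSD.e4 τ / Ω ^ 4 := by
      field_simp
    rw [this]
    exact h.a4
  · rw [MSD.e6_transform a b c d hd τ h.im]
    have : ((c : ℂ) * τ + d) ^ 6 * MSD.e6 τ / (((c : ℂ) * τ + d) * Ω) ^ 6 = MSD.e6 τ / Ω ^ 6 := by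
      field_simp
    rw [this]
    exact h.a6
  · exact gm_alg _ (((gm_algZ _ a).mul h.aτ).add (gm_algZ _ b)) hcd
  · rw [MSD.e2_transform a b c d hd τ h.im]
    have : (((c : ℂ) * τ + d) ^ 2 * MSD.e2 τ - 6 * I * c / Real.pi * (c * τ + d)) / (((c : ℂ) * τ + d) * Ω) ^ 2 =
        MSD.e2 τ / Ω ^ 2 - ((6 * c : ℤ) : ℂ) * I / (((c : ℂ) * τ + d) * (Real.pi * Ω ^ 2)) := by
      push_cast
      field_simp
    rw [this]
    exact h.a2.sub (gm_alg _ ((gm_algZ _ _).mul (gm_algI _)) (hcd.mul h.aΩ))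
  · have : (Real.pi : ℂ) * (((c : ℂ) * τ + d) * Ω) ^ 2 = ((c : ℂ) * τ + d) ^ 2 * (Real.pi * Ω ^ 2) := by ring
    rw [this]
    exact (hcd.pow 2).mul h.aΩ

theorem gm_special (z : ℂ) (x N : ℚ) (hx : z.re = x) (hN : z.re ^ 2 + z.im ^ 2 = N) : MSD.IsSpecial z := by
  refine ⟨x.den * N.den, -(2 * x.num * N.den), x.den * N.num, ?_, ?_⟩
  · rintro ⟨h, -, -⟩
    have h1 : (x.den : ℤ) ≠ 0 := by exact_mod_cast x.den_nz
    have h2 : (N.den : ℤ) ≠ 0 := by exact_mod_cast N.den_nz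
    exact mul_ne_zero h1 h2 h
  · have hx' : (x.den : ℂ) * x = x.num := by exact_mod_cast Rat.den_mul_eq_num x
    have hN' : (N.den : ℂ) * N = N.num := by exact_mod_cast Rat.den_mul_eq_num N
    have hz : z ^ 2 - 2 * x * z + N = 0 := by
      have h3 : (x : ℂ) = ((z.re : ℝ) : ℂ) := by rw [hx]; norm_cast
      have h4 : (N : ℂ) = ((z.re ^ 2 + z.im ^ 2 : ℝ) : ℂ) := by rw [hN]; norm_cast
      rw [h3, h4]
      apply Complex.ext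
      · simp [pow_two]
        ring
      · simp [pow_two]
        ring
    push_cast
    linear_combination (x.den : ℂ) * N.den * hz + (-2 * (N.den : ℂ) * z) * hx' * (-1) + (x.den : ℂ) * hN' * (-1)

theorem gm_rat_div {a b : ℝ} (hb : b ≠ 0) (ha : ∃ r : ℚ, (r : ℝ) = a) (hab : ∃ r : ℚ, (r : ℝ) = a * b) (ha0 : a ≠ 0) :
    ∃ r : ℚ, (r : ℝ) = b := by
  obtain ⟨r, hr⟩ := ha
  obtain ⟨s, hs⟩ := hab
  refine ⟨s / r, ?_⟩
  push_cast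
  rw [hr, hs]
  field_simp

/-- translates with an irrational ratio of the imaginary parts -/
theorem exists_irr (τ τ' : ℂ) (h : 0 < τ.im) (h' : 0 < τ'.im)
    (hn : ¬ (MSD.IsSpecial τ ∧ MSD.IsSpecial τ' ∧ MSD.GEquiv τ τ')) :
    ∃ a b c d a' b' c' d' : ℤ, a * d - b * c = 1 ∧ a' * d' - b' * c' = 1 ∧
      Irrational ((((a : ℂ) * τ + b) / ((c : ℂ) * τ + d)).im / (((a' : ℂ) * τ' + b') / ((c' : ℂ) * τ' + d')).im) := by
  by_contra hcon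
  push Not at hcon
  have key : ∀ a b c d a' b' c' d' : ℤ, a * d - b * c = 1 → a' * d' - b' * c' = 1 →
      ∃ r : ℚ, (r : ℝ) = (τ.im / Complex.normSq ((c : ℂ) * τ + d)) / (τ'.im / Complex.normSq ((c' : ℂ) * τ' + d')) := by
    intro a b c d a' b' c' d' hd hd'
    have h1 := hcon a b c d a' b' c' d' hd hd'
    rw [gm_im hd, gm_im hd'] at h1
    unfold Irrational at h1
    rw [not_not] at h1
    obtain ⟨r, hr⟩ := h1
    exact ⟨r, hr⟩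
  have hsq : ∀ (z : ℂ), Complex.normSq (((1 : ℤ) : ℂ) * z + ((0 : ℤ) : ℂ)) = z.re ^ 2 + z.im ^ 2 := by
    intro z
    simp [Complex.normSq_apply]
    ring
  have hsq1 : ∀ (z : ℂ), Complex.normSq (((1 : ℤ) : ℂ) * z + ((1 : ℤ) : ℂ)) = z.re ^ 2 + z.im ^ 2 + 2 * z.re + 1 := by
    intro z
    simp [Complex.normSq_apply]
    ring
  have hsq0 : ∀ (z : ℂ), Complex.normSq (((0 : ℤ) : ℂ) * z + ((1 : ℤ) : ℂ)) = 1 := by
    intro z
    simp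
  have hp : 0 < τ.re ^ 2 + τ.im ^ 2 := by positivity
  have hp' : 0 < τ'.re ^ 2 + τ'.im ^ 2 := by positivity
  have hq : 0 < τ.re ^ 2 + τ.im ^ 2 + 2 * τ.re + 1 := by nlinarith [sq_nonneg (τ.re + 1), h]
  have hq' : 0 < τ'.re ^ 2 + τ'.im ^ 2 + 2 * τ'.re + 1 := by nlinarith [sq_nonneg (τ'.re + 1), h']
  -- the ratio of the imaginary parts
  obtain ⟨r₀, hr₀⟩ := key 1 0 0 1 1 0 0 1 (by norm_num) (by norm_num)
  rw [hsq0, hsq0, div_one, div_one] at hr₀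
  obtain ⟨r₁, hr₁⟩ := key 0 (-1) 1 0 1 0 0 1 (by norm_num) (by norm_num)
  rw [hsq, hsq0, div_one] at hr₁
  obtain ⟨r₂, hr₂⟩ := key 0 (-1) 1 1 1 0 0 1 (by norm_num) (by norm_num)
  rw [hsq1, hsq0, div_one] at hr₂
  obtain ⟨s₁, hs₁⟩ := key 1 0 0 1 0 (-1) 1 0 (by norm_num) (by norm_num)
  rw [hsq0, hsq, div_one] at hs₁
  obtain ⟨s₂, hs₂⟩ := key 1 0 0 1 0 (-1) 1 1 (by norm_num) (by norm_num)
  rw [hsq0, hsq1, div_one] at hs₂
  have hr₀p : 0 < (r₀ : ℝ) := by rw [hr₀]; positivity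
  have hN : τ.re ^ 2 + τ.im ^ 2 = ((r₀ / r₁ : ℚ) : ℝ) := by
    push_cast
    rw [hr₀, hr₁]
    field_simp
  have hN1 : τ.re ^ 2 + τ.im ^ 2 + 2 * τ.re + 1 = ((r₀ / r₂ : ℚ) : ℝ) := by
    push_cast
    rw [hr₀, hr₂]
    field_simp
  have hN' : τ'.re ^ 2 + τ'.im ^ 2 = ((s₁ / r₀ : ℚ) : ℝ) := by
    push_cast
    rw [hr₀, hs₁]
    field_simp
  have hN1' : τ'.re ^ 2 + τ'.im ^ 2 + 2 * τ'.re + 1 = ((s₂ / r₀ : ℚ) : ℝ) := by
    push_cast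
    rw [hr₀, hs₂]
    field_simp
  have hx : τ.re = ((((r₀ / r₂) - (r₀ / r₁) - 1) / 2 : ℚ) : ℝ) := by
    push_cast at hN hN1 ⊢
    linarith
  have hx' : τ'.re = ((((s₂ / r₀) - (s₁ / r₀) - 1) / 2 : ℚ) : ℝ) := by
    push_cast at hN' hN1' ⊢
    linarith
  refine hn ⟨gm_special τ _ _ hx hN, gm_special τ' _ _ hx' hN', ?_⟩
  refine ⟨r₀⁻¹, (((s₂ / r₀) - (s₁ / r₀) - 1) / 2) - r₀⁻¹ * (((r₀ / r₂) - (r₀ / r₁) - 1) / 2), 0, 1, ?_, ?_, ?_⟩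
  · have : (r₀ : ℂ) ≠ 0 := by exact_mod_cast (by exact_mod_cast hr₀p.ne' : r₀ ≠ 0)
    simp [this]
  · simp
  · have h5 : ((r₀⁻¹ : ℚ) : ℝ) = τ'.im / τ.im := by
      push_cast
      rw [hr₀, inv_div]
    apply Complex.ext
    · have e1 : (((r₀⁻¹ : ℚ) : ℂ) * τ + (((((s₂ / r₀) - (s₁ / r₀) - 1) / 2) - r₀⁻¹ * (((r₀ / r₂) - (r₀ / r₁) - 1) / 2) : ℚ) : ℂ)) / (((0 : ℚ) : ℂ) * τ + ((1 : ℚ) : ℂ)) =
        ((r₀⁻¹ : ℚ) : ℂ) * τ + (((((s₂ / r₀) - (s₁ / r₀) - 1) / 2) - r₀⁻¹ * (((r₀ / r₂) - (r₀ / r₁) - 1) / 2) : ℚ) : ℂ) := by simp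
      rw [e1]
      simp only [add_re, mul_re, ratCast_re, ratCast_im, zero_mul, sub_zero]
      rw [Rat.cast_sub, ← hx', Rat.cast_mul, ← hx]
      ring
    · have e1 : (((r₀⁻¹ : ℚ) : ℂ) * τ + (((((s₂ / r₀) - (s₁ / r₀) - 1) / 2) - r₀⁻¹ * (((r₀ / r₂) - (r₀ / r₁) - 1) / 2) : ℚ) : ℂ)) / (((0 : ℚ) : ℂ) * τ + ((1 : ℚ) : ℂ)) =
        ((r₀⁻¹ : ℚ) : ℂ) * τ + (((((s₂ / r₀) - (s₁ / r₀) - 1) / 2) - r₀⁻¹ * (((r₀ / r₂) - (r₀ / r₁) - 1) / 2) : ℚ) : ℂ) := by simp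
      rw [e1]
      simp only [add_im, mul_im, ratCast_re, ratCast_im, zero_mul, add_zero]
      rw [h5]
      field_simp

end Pool.Agent.MSN
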