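import Pool.Agent.Lib.MP_f58a57_nt.P.Defs

/-!
# MP_f58a57_nt, points with algebraic `j`: the hypotheses
-/

open Complex IntermediateField

noncomputable section

namespace Pool.Agent.MSN

/-- a point `τ` with algebraic `j(τ)` and a scaling factor `Ω`; everything else is algebraic over `ℚ(ϑ)` -/
structure DD (τ Ω ϑ : ℂ) : Prop where
  im : 0 < τ.im
  ne : Ω ≠ 0
  a4 : IsAlgebraic ℚ (MSD.e4 τ / Ω ^ 4)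
  a6 : IsAlgebraic ℚ (MSD.e6 τ / Ω ^ 6)
  aτ : IsAlgebraic ℚ⟮ϑ⟯ τ
  a2 : IsAlgebraic ℚ⟮ϑ⟯ (MSD.e2 τ / Ω ^ 2)
  aΩ : IsAlgebraic ℚ⟮ϑ⟯ (Real.pi * Ω ^ 2)

/-- all the hypotheses on the two curves -/
structure Hyp2 (c₁ c₂ : MSP.Cv) (Ω₁ Ω₂ ϑ : ℂ) : Prop where
  s₁ : c₁.s = MSP.sE c₁.τ
  s₂ : c₂.s = MSP.sE c₂.τ
  h₁ : DD c₁.τ Ω₁ ϑ
  h₂ : DD c₂.τ Ω₂ ϑ
  tr : Transcendental ℚ ϑ

end Pool.Agent.MSN
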