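import Pool.Agent.Lib.MP_f58a57_nt.P.A1b_Bd

/-!
# N0: the polynomial ring with local parameters (MP_f58a57_nt, algebraic invariants)

Second version of the arithmetic: instead of the invariant derivations `δ_i` we use `D_i = (1/P_i') δ_i`, the derivation with respect to the
local parameter `P_i`. The Taylor coefficients `D₁^r D₂^s /(r! s!)` of the monomials have denominators and sizes `exp(O(T (1 + log l)))` only
(no factorials).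

Variables: `inl 0, ..., inl 5` stand for `x₁ = P₁, z₁ = 1/P₁', x₂ = P₂, z₂ = 1/P₂', h₁, h₂` (`P_i'' = 6 P_i² - h_i`);
`inr 0, ..., inr 11` stand for `κ₁, κ₁s₁, τ₁κ₁, τ₁κ₁s₁, κ₂, κ₂s₂, τ₂κ₂, τ₂κ₂s₂, c, Y₁, Y₂, Y₃`.
-/

open Complex Filter Topology

noncomputable section

namespace Pool.Agent.MSN

open Pool.Agent.MSP

/-- the polynomial ring -/
abbrev PN := MvPolynomial (Fin 6 ⊕ Fin 12) ℤ

def nX (i : Fin 6) : PN := MvPolynomial.X (Sum.inl i)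
def nY (j : Fin 12) : PN := MvPolynomial.X (Sum.inr j)

/-- `D₁ = (1/P₁') δ₁` -/
def D₁ : Derivation ℤ PN PN := MvPolynomial.mkDerivation ℤ (fun v => match v with
  | Sum.inl i => ![1, -(nX 1 ^ 3 * (6 * nX 0 ^ 2 - nX 4)), 0, 0, 0, 0] i
  | Sum.inr j => ![0, 0, 0, 0, 0, 0, 0, 0, 0, nX 1 * (nY 0 * nX 0 + nY 1), 0,
      nX 1 * (-nY 8 + nY 2 * nX 0 + nY 3)] j)

/-- `D₂ = (1/P₂') δ₂` -/
def D₂ : Derivation ℤ PN PN := MvPolynomial.mkDerivation ℤ (fun v => match v with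
  | Sum.inl i => ![0, 0, 1, -(nX 3 ^ 3 * (6 * nX 2 ^ 2 - nX 5)), 0, 0] i
  | Sum.inr j => ![0, 0, 0, 0, 0, 0, 0, 0, 0, 0, nX 3 * (nY 4 * nX 2 + nY 5),
      nX 3 * (1 - nY 6 * nX 2 - nY 7)] j)

/-- the polynomial which corresponds to the monomial `ν` -/
def Qn (P : Pr) (ν : ℕ × ℕ × ℕ × ℕ × ℕ) : PN :=
  nX 0 ^ ν.1 * nX 2 ^ ν.2.1 * (nY 11 ^ ν.2.2.1 *
    (MvPolynomial.C P.b₂ * nY 9 - MvPolynomial.C P.b₁ * nY 10) ^ ν.2.2.2.1 *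
    (MvPolynomial.C P.a₁ * nY 9 + MvPolynomial.C P.a₂ * nY 10) ^ ν.2.2.2.2)

/-- the denominator: `4^T ∏_{1 ≤ j ≤ l} lcm(1, ..., ⌊T/j⌋)` -/
def den (T l : ℕ) : ℕ := 4 ^ T * ∏ j ∈ Finset.Icc 1 l, (Finset.Icc 1 (T / j)).lcm id

end Pool.Agent.MSN
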