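import Pool.Agent.Lib.MP_f58a57_nt.N.N0_Ring

/-! # N1: Taylor coefficients of `1/P'` (MP_f58a57_nt, algebraic invariants) -/

open Complex Filter Topology

noncomputable section

namespace Pool.Agent.MSN

open Pool.Agent.MSP

/-! Direct proof: with `W = (12x² - 2h) u + 12 x u² + 4 u³`, `w_{k,i} = [u^i] W^k`, `s = 6x² - h`,
`D w_{k+1,i} = (i+1) w_{k+1,i+1} - 2 s (k+1) w_{k,i}`, and
`g_i = ∑_{k ≤ i} (-1)^k C(2k,k) 4^{i-k} z^{2k+1} w_{k,i}` satisfies `4 D g_i = (i+1) g_{i+1}`. -/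

/-- the coefficientwise extension of a derivation to power series -/
def n1_ext {R : Type*} [CommRing R] (D : Derivation ℤ R R) : Derivation ℤ (PowerSeries R) (PowerSeries R) :=
  Derivation.mk'
    (AddMonoidHom.toIntLinearMap
      { toFun := fun f => PowerSeries.mk fun i => D (PowerSeries.coeff i f)
        map_zero' := by
          ext i
          simp
        map_add' := by
          intro f g
          ext i
          simp })
    (by
      intro f g
      ext i
      show PowerSeries.coeff i (PowerSeries.mk fun i => D (PowerSeries.coeff i (f * g))) =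
        PowerSeries.coeff i (f * (PowerSeries.mk fun i => D (PowerSeries.coeff i g)) +
          g * (PowerSeries.mk fun i => D (PowerSeries.coeff i f)))
      simp only [PowerSeries.coeff_mk, map_add, smul_eq_mul,
        PowerSeries.coeff_mul, map_sum, Derivation.leibniz, Finset.sum_add_distrib]
      congr 1
      rw [← Finset.Nat.sum_antidiagonal_swap]
      rfl)

theorem n1_coeff_ext {R : Type*} [CommRing R] (D : Derivation ℤ R R) (f : PowerSeries R) (i : ℕ) :
    PowerSeries.coeff i (n1_ext D f) = D (PowerSeries.coeff i f) := by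
  show PowerSeries.coeff i (PowerSeries.mk fun i => D (PowerSeries.coeff i f)) = _
  rw [PowerSeries.coeff_mk]

section gen

variable {R : Type*} [CommRing R] (x z h : R)

/-- `W` -/
def n1_W : PowerSeries R :=
  PowerSeries.C (12 * x ^ 2 - 2 * h) * PowerSeries.X ^ 1 + PowerSeries.C (12 * x) * PowerSeries.X ^ 2 +
    PowerSeries.C 4 * PowerSeries.X ^ 3

/-- `w_{k,i}` -/
def n1_w (k i : ℕ) : R := PowerSeries.coeff i (n1_W x h ^ k)

theorem n1_w_zero_zero : n1_w x h 0 0 = 1 := by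
  simp [n1_w]

theorem n1_w_succ (k i : ℕ) : n1_w x h (k + 1) i =
    (12 * x ^ 2 - 2 * h) * (if 1 ≤ i then n1_w x h k (i - 1) else 0) +
      12 * x * (if 2 ≤ i then n1_w x h k (i - 2) else 0) +
      4 * (if 3 ≤ i then n1_w x h k (i - 3) else 0) := by
  unfold n1_w
  have e : ∀ P : PowerSeries R, P * n1_W x h = PowerSeries.C (12 * x ^ 2 - 2 * h) * (P * PowerSeries.X ^ 1) +
      PowerSeries.C (12 * x) * (P * PowerSeries.X ^ 2) +
      PowerSeries.C 4 * (P * PowerSeries.X ^ 3) := by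
    intro P
    rw [n1_W]
    ring
  rw [pow_succ, e, map_add, map_add, PowerSeries.coeff_C_mul, PowerSeries.coeff_C_mul, PowerSeries.coeff_C_mul,
    PowerSeries.coeff_mul_X_pow', PowerSeries.coeff_mul_X_pow', PowerSeries.coeff_mul_X_pow']

theorem n1_w_lt : ∀ (k i : ℕ), i < k → n1_w x h k i = 0 := by
  intro k
  induction k with
  | zero => intro i hi; omega
  | succ k ih =>
    intro i hi
    rw [n1_w_succ]
    have h1 : (if 1 ≤ i then n1_w x h k (i - 1) else 0) = 0 := by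
      split_ifs with h
      · exact ih _ (by omega)
      · rfl
    have h2 : (if 2 ≤ i then n1_w x h k (i - 2) else 0) = 0 := by
      split_ifs with h
      · exact ih _ (by omega)
      · rfl
    have h3 : (if 3 ≤ i then n1_w x h k (i - 3) else 0) = 0 := by
      split_ifs with h
      · exact ih _ (by omega)
      · rfl
    rw [h1, h2, h3]
    ring

theorem n1_w_diag (k : ℕ) : n1_w x h k k = (12 * x ^ 2 - 2 * h) ^ k := by
  induction k with
  | zero => rw [n1_w_zero_zero, pow_zero]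
  | succ k ih =>
    rw [n1_w_succ, if_pos (by omega), Nat.add_sub_cancel, ih]
    have h2 : (if 2 ≤ k + 1 then n1_w x h k (k + 1 - 2) else 0) = 0 := by
      split_ifs with h
      · exact n1_w_lt x _ _ _ (by omega)
      · rfl
    have h3 : (if 3 ≤ k + 1 then n1_w x h k (k + 1 - 3) else 0) = 0 := by
      split_ifs with h
      · exact n1_w_lt x _ _ _ (by omega)
      · rfl
    rw [h2, h3]
    ring

variable (D : Derivation ℤ R R) (hx : D x = 1) (hz : D z = -(z ^ 3 * (6 * x ^ 2 - h))) (hh : D h = 0)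

include hx hh in
theorem n1_ext_W : n1_ext D (n1_W x h) =
    PowerSeries.derivative R (n1_W x h) - PowerSeries.C (2 * (6 * x ^ 2 - h)) := by
  have hn : ∀ n : ℕ, D ((OfNat.ofNat (n + 2) : R)) = 0 := by
    intro n
    have := D.map_natCast (n + 2)
    rwa [← Nat.cast_ofNat (R := R)]
  ext i
  rw [n1_coeff_ext, map_sub, PowerSeries.coeff_derivative]
  have hc : ∀ j : ℕ, PowerSeries.coeff j (n1_W x h) = (if j = 1 then 12 * x ^ 2 - 2 * h else 0) +
      (if j = 2 then 12 * x else 0) + (if j = 3 then 4 else 0) := by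
    intro j
    rw [n1_W, map_add, map_add, PowerSeries.coeff_C_mul, PowerSeries.coeff_C_mul,
      PowerSeries.coeff_C_mul, PowerSeries.coeff_X_pow, PowerSeries.coeff_X_pow,
      PowerSeries.coeff_X_pow]
    simp only [mul_ite, mul_one, mul_zero]
  rw [hc, hc, PowerSeries.coeff_C]
  have d1 : D (12 * x ^ 2 - 2 * h) = 24 * x := by
    rw [map_sub, Derivation.leibniz, Derivation.leibniz, Derivation.leibniz_pow, hx, hh, hn 10, hn 0]
    simp only [smul_eq_mul, nsmul_eq_mul]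
    push_cast
    ring
  have d2 : D (12 * x) = 12 := by
    rw [Derivation.leibniz, hx, hn 10]
    simp
  have d3 : D 4 = 0 := hn 2
  match i with
  | 0 => simp; ring
  | 1 => simp [d1]; ring
  | 2 => simp [d2]; ring
  | 3 => simp [d3]
  | (n + 4) => simp

include hx hh in
theorem n1_D_w (k i : ℕ) : D (n1_w x h (k + 1) i) =
    (i + 1) * n1_w x h (k + 1) (i + 1) - (k + 1) * (2 * (6 * x ^ 2 - h)) * n1_w x h k i := by
  unfold n1_w
  rw [← n1_coeff_ext, Derivation.leibniz_pow, n1_ext_W x h D hx hh, Nat.add_sub_cancel]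
  have e : (k + 1) • n1_W x h ^ k • (PowerSeries.derivative R (n1_W x h) -
      PowerSeries.C (2 * (6 * x ^ 2 - h))) = PowerSeries.derivative R (n1_W x h ^ (k + 1)) -
      PowerSeries.C ((k + 1) * (2 * (6 * x ^ 2 - h))) * n1_W x h ^ k := by
    rw [Derivation.leibniz_pow, Nat.add_sub_cancel]
    simp only [smul_eq_mul, nsmul_eq_mul, map_mul, map_add, map_natCast, map_one]
    push_cast
    ring
  rw [e, map_sub, PowerSeries.coeff_derivative, PowerSeries.coeff_C_mul]
  ring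

theorem n1_D_w_zero (i : ℕ) : D (n1_w x h 0 i) = (i + 1) * n1_w x h 0 (i + 1) := by
  unfold n1_w
  rw [pow_zero, PowerSeries.coeff_one, PowerSeries.coeff_one, if_neg (Nat.succ_ne_zero i), mul_zero]
  split_ifs
  · exact D.map_one_eq_zero
  · exact map_zero D

/-- `b_k = (-1)^k C(2k,k)` -/
def n1_b (k : ℕ) : ℤ := (-1) ^ k * (Nat.centralBinom k : ℤ)

theorem n1_b_succ (k : ℕ) : ((k : ℤ) + 1) * n1_b (k + 1) = -(2 * (2 * k + 1) * n1_b k) := by
  unfold n1_b
  have := Nat.succ_mul_centralBinom_succ k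
  have h2 : ((k : ℤ) + 1) * (Nat.centralBinom (k + 1) : ℤ) = 2 * (2 * k + 1) * (Nat.centralBinom k : ℤ) := by
    exact_mod_cast this
  rw [pow_succ]
  linear_combination (-(-1) ^ k) * h2

/-- `g_i` -/
def n1_g (i : ℕ) : R :=
  ∑ k ∈ Finset.range (i + 1), ((n1_b k * 4 ^ (i - k) : ℤ) : R) * (z ^ (2 * k + 1) * n1_w x h k i)

theorem n1_D_int (n : ℤ) (y : R) : D ((n : R) * y) = (n : R) * D y := by
  rw [← zsmul_eq_mul, map_zsmul, zsmul_eq_mul]

include hz in
theorem n1_D_zw (k i : ℕ) : D (z ^ (2 * k + 1) * n1_w x h k i) =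
    z ^ (2 * k + 1) * D (n1_w x h k i) -
      (2 * k + 1) * ((6 * x ^ 2 - h) * z ^ (2 * k + 3) * n1_w x h k i) := by
  rw [Derivation.leibniz, Derivation.leibniz_pow, hz, Nat.add_sub_cancel]
  simp only [smul_eq_mul, nsmul_eq_mul]
  push_cast
  ring

include hx hz hh in
theorem n1_D_g (i : ℕ) : 4 * D (n1_g x z h i) = (i + 1) * n1_g x z h (i + 1) := by
  have hD : D (n1_g x z h i) = ∑ k ∈ Finset.range (i + 1), ((n1_b k * 4 ^ (i - k) : ℤ) : R) *
        (z ^ (2 * k + 1) * D (n1_w x h k i)) -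
      ∑ k ∈ Finset.range (i + 1), ((n1_b k * 4 ^ (i - k) : ℤ) : R) *
        ((2 * k + 1) * ((6 * x ^ 2 - h) * z ^ (2 * k + 3) * n1_w x h k i)) := by
    rw [n1_g, map_sum, ← Finset.sum_sub_distrib]
    refine Finset.sum_congr rfl fun k _ => ?_
    rw [n1_D_int, n1_D_zw x z h D hz, mul_sub]
  have h1 : ∑ k ∈ Finset.range (i + 1), ((n1_b k * 4 ^ (i - k) : ℤ) : R) *
        (z ^ (2 * k + 1) * D (n1_w x h k i)) =
      (i + 1) * ∑ k ∈ Finset.range (i + 1), ((n1_b k * 4 ^ (i - k) : ℤ) : R) *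
        (z ^ (2 * k + 1) * n1_w x h k (i + 1)) -
      ∑ j ∈ Finset.range i, ((n1_b (j + 1) * 4 ^ (i - (j + 1)) : ℤ) : R) *
        (2 * (j + 1) * ((6 * x ^ 2 - h) * z ^ (2 * j + 3) * n1_w x h j i)) := by
    rw [Finset.sum_range_succ', Finset.sum_range_succ', mul_add, n1_D_w_zero, Finset.mul_sum,
      add_sub_right_comm, ← Finset.sum_sub_distrib]
    congr 1
    · refine Finset.sum_congr rfl fun j _ => ?_
      rw [n1_D_w x h D hx hh]
      ring
    · ring
  have h2 : ∑ k ∈ Finset.range (i + 1), ((n1_b k * 4 ^ (i - k) : ℤ) : R) *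
        ((2 * k + 1) * ((6 * x ^ 2 - h) * z ^ (2 * k + 3) * n1_w x h k i)) =
      ∑ k ∈ Finset.range i, ((n1_b k * 4 ^ (i - k) : ℤ) : R) *
        ((2 * k + 1) * ((6 * x ^ 2 - h) * z ^ (2 * k + 3) * n1_w x h k i)) +
      (n1_b i : R) * ((2 * i + 1) * ((6 * x ^ 2 - h) * z ^ (2 * i + 3) * (12 * x ^ 2 - 2 * h) ^ i)) := by
    rw [Finset.sum_range_succ, Nat.sub_self, n1_w_diag]
    push_cast
    ring
  have h3 : 4 * ∑ j ∈ Finset.range i, ((n1_b (j + 1) * 4 ^ (i - (j + 1)) : ℤ) : R) *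
        (2 * (j + 1) * ((6 * x ^ 2 - h) * z ^ (2 * j + 3) * n1_w x h j i)) =
      -(4 * ∑ k ∈ Finset.range i, ((n1_b k * 4 ^ (i - k) : ℤ) : R) *
        ((2 * k + 1) * ((6 * x ^ 2 - h) * z ^ (2 * k + 3) * n1_w x h k i))) := by
    rw [Finset.mul_sum, Finset.mul_sum, ← Finset.sum_neg_distrib]
    refine Finset.sum_congr rfl fun j hj => ?_
    have hji : i - j = (i - (j + 1)) + 1 := by
      have := Finset.mem_range.1 hj
      omega
    have hb := congrArg (Int.cast : ℤ → R) (n1_b_succ j)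
    push_cast at hb
    rw [hji, pow_succ]
    push_cast
    linear_combination (8 * 4 ^ (i - (j + 1)) * ((6 * x ^ 2 - h) * z ^ (2 * j + 3) * n1_w x h j i)) * hb
  have h4 : n1_g x z h (i + 1) = 4 * ∑ k ∈ Finset.range (i + 1), ((n1_b k * 4 ^ (i - k) : ℤ) : R) *
        (z ^ (2 * k + 1) * n1_w x h k (i + 1)) +
      (n1_b (i + 1) : R) * (z ^ (2 * i + 3) * (12 * x ^ 2 - 2 * h) ^ (i + 1)) := by
    rw [n1_g, Finset.sum_range_succ, Nat.sub_self, n1_w_diag, Finset.mul_sum]
    congr 1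
    · refine Finset.sum_congr rfl fun k hk => ?_
      have hki : i + 1 - k = (i - k) + 1 := by
        have := Finset.mem_range.1 hk
        omega
      rw [hki, pow_succ]
      push_cast
      ring
    · push_cast
      ring
  have hb := congrArg (Int.cast : ℤ → R) (n1_b_succ i)
  push_cast at hb
  rw [hD, mul_sub, h1, mul_sub, h3, h2, h4]
  linear_combination (-(z ^ (2 * i + 3) * (12 * x ^ 2 - 2 * h) ^ (i + 1))) * hb

include hx hz hh in
theorem n1_iter (i : ℕ) : (4 : ℤ) ^ i • (D^[i] z) = (i.factorial : ℤ) • n1_g x z h i := by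
  induction i with
  | zero =>
    simp [n1_g, n1_b, n1_w_zero_zero]
  | succ i ih =>
    rw [Function.iterate_succ_apply', pow_succ', mul_smul]
    have h1 : (4 : ℤ) ^ i • D (D^[i] z) = D ((4 : ℤ) ^ i • (D^[i] z)) := (map_zsmul D _ _).symm
    rw [h1, ih, map_zsmul, smul_comm, Nat.factorial_succ]
    have h2 : (4 : ℤ) • D (n1_g x z h i) = 4 * D (n1_g x z h i) := by
      rw [zsmul_eq_mul]; norm_num
    rw [h2, n1_D_g x z h D hx hz hh, zsmul_eq_mul, zsmul_eq_mul]
    push_cast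
    ring

end gen

/-- bound for `w` -/
theorem n1_bd_w (x h : PN) (hx : Bd 1 0 1 x) (hh : Bd 1 0 1 h) : ∀ k i : ℕ,
    Bd (2 * k) 0 (30 ^ k) (n1_w x h k i) := by
  intro k
  induction k with
  | zero =>
    intro i
    rw [n1_w, pow_zero, pow_zero, PowerSeries.coeff_one]
    split_ifs
    · have := Bd.const (r := 6) (s := 12) 1
      simpa using this
    · exact Bd.zero _ _ _ zero_le_one
  | succ k ih =>
    intro i
    rw [n1_w_succ]
    have hpos : (0 : ℝ) ≤ 30 ^ k := by positivity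
    have hi : ∀ m : ℕ, Bd (2 * k) 0 (30 ^ k) (if m ≤ i then n1_w x h k (i - m) else 0) := by
      intro m
      split_ifs
      · exact ih _
      · exact Bd.zero _ _ _ hpos
    have hc : ∀ c : ℤ, Bd 0 0 |(c : ℝ)| (MvPolynomial.C c : PN) := fun c => Bd.const c
    have e12 : (12 : PN) = MvPolynomial.C (12 : ℤ) := by simp
    have e4 : (4 : PN) = MvPolynomial.C (4 : ℤ) := by simp
    have b1 : Bd 2 0 14 (12 * x ^ 2 - 2 * h) := by
      have h1 : Bd 2 0 12 (12 * x ^ 2) := by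
        rw [e12]
        have := (hc 12).mul (hx.pow 2)
        norm_num at this
        exact this
      have h2 : Bd 2 0 2 (-(2 * h)) := by
        have := (hc (-2)).mul hh
        norm_num at this
        exact this.mono (by norm_num) (le_refl _) (le_refl _)
      have h3 := h1.add h2
      rw [sub_eq_add_neg]
      norm_num at h3
      exact h3
    have b2 : Bd 1 0 12 (12 * x) := by
      rw [e12]
      have := (hc 12).mul hx
      norm_num at this
      exact this
    have b3 : Bd 0 0 4 (4 : PN) := by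
      rw [e4]
      have := hc 4
      norm_num at this
      exact this
    have c1 : Bd (2 * (k + 1)) 0 (14 * 30 ^ k) ((12 * x ^ 2 - 2 * h) * (if 1 ≤ i then n1_w x h k (i - 1) else 0)) :=
      (b1.mul (hi 1)).mono (by omega) (le_refl _) (le_refl _)
    have c2 : Bd (2 * (k + 1)) 0 (12 * 30 ^ k) (12 * x * (if 2 ≤ i then n1_w x h k (i - 2) else 0)) :=
      (b2.mul (hi 2)).mono (by omega) (le_refl _) (le_refl _)
    have c3 : Bd (2 * (k + 1)) 0 (4 * 30 ^ k) ((4 : PN) * (if 3 ≤ i then n1_w x h k (i - 3) else 0)) :=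
      (b3.mul (hi 3)).mono (by omega) (le_refl _) (le_refl _)
    exact ((c1.add c2).add c3).mono (le_refl _) (le_refl _) (by rw [pow_succ]; linarith)

theorem n1_bd_g (x z h : PN) (hx : Bd 1 0 1 x) (hz : Bd 1 0 1 z) (hh : Bd 1 0 1 h) (i : ℕ) :
    Bd (4 * i + 1) 0 (256 ^ i) (n1_g x z h i) := by
  have h1 : ∀ k ∈ Finset.range (i + 1), Bd (4 * i + 1) 0 (120 ^ i)
      (((n1_b k * 4 ^ (i - k) : ℤ) : PN) * (z ^ (2 * k + 1) * n1_w x h k i)) := by
    intro k hk
    have hk' : k ≤ i := by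
      have := Finset.mem_range.1 hk
      omega
    have e : ((n1_b k * 4 ^ (i - k) : ℤ) : PN) = MvPolynomial.C (n1_b k * 4 ^ (i - k)) := by
      simp
    have hb : |((n1_b k * 4 ^ (i - k) : ℤ) : ℝ)| ≤ 4 ^ i := by
      have h2 : (Nat.centralBinom k : ℝ) ≤ 4 ^ k := by
        have h3 : Nat.centralBinom k ≤ 4 ^ k := by
          rw [Nat.centralBinom_eq_two_mul_choose]
          have h4 := Nat.choose_le_two_pow (2 * k) k
          rw [pow_mul] at h4
          exact h4
        exact_mod_cast h3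
      have h5 : |((n1_b k * 4 ^ (i - k) : ℤ) : ℝ)| = (Nat.centralBinom k : ℝ) * 4 ^ (i - k) := by
        unfold n1_b
        push_cast
        rw [abs_mul, abs_mul, abs_pow, abs_pow, abs_neg, abs_one, one_pow, one_mul, Nat.abs_cast]
        norm_num
      rw [h5]
      calc (Nat.centralBinom k : ℝ) * 4 ^ (i - k) ≤ 4 ^ k * 4 ^ (i - k) :=
            mul_le_mul_of_nonneg_right h2 (by positivity)
        _ = 4 ^ i := by rw [← pow_add, Nat.add_sub_cancel' hk']
    rw [e]
    refine ((Bd.const (n1_b k * 4 ^ (i - k))).mul ((hz.pow (2 * k + 1)).mul (n1_bd_w x h hx hh k i))).mono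
      (by omega) (by omega) ?_
    rw [one_pow, one_mul]
    calc |((n1_b k * 4 ^ (i - k) : ℤ) : ℝ)| * 30 ^ k ≤ 4 ^ i * 30 ^ i := by
          refine mul_le_mul hb ?_ (by positivity) (by positivity)
          exact pow_le_pow_right₀ (by norm_num) hk'
      _ = 120 ^ i := by rw [← mul_pow]; norm_num
  refine (Bd.sum (Finset.range (i + 1)) (fun _ => (120 : ℝ) ^ i) _ h1).mono (le_refl _) (le_refl _) ?_
  rw [Finset.sum_const, Finset.card_range, nsmul_eq_mul]
  have h6 : ((i + 1 : ℕ) : ℝ) ≤ 2 ^ i := by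
    have : i + 1 ≤ 2 ^ i := Nat.lt_two_pow_self
    exact_mod_cast this
  calc ((i + 1 : ℕ) : ℝ) * 120 ^ i ≤ 2 ^ i * 120 ^ i := mul_le_mul_of_nonneg_right h6 (by positivity)
    _ = 240 ^ i := by rw [← mul_pow]; norm_num
    _ ≤ 256 ^ i := pow_le_pow_left₀ (by norm_num) (by norm_num) i

/-- N1a. PROOF. Work in `A = MvPolynomial _ ℚ` (or in `PN ⊗ ℚ`; `D = D₁` extends) and `A[[u]]`. Let `E(p) = ∑_i (D^i p/i!) u^i`: a ring homomorphism
`A → A[[u]]` (Leibniz rule) with `(d/du) E(p) = E(D p)`. `E(x₁) = x₁ + u`. Put `W = (12x₁² - 2h₁) u + 12x₁ u² + 4u³`,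
`Z = E(z₁)`, `G = Z² (1 + z₁² W)`. From `D z₁ = -z₁³(6x₁² - h₁)` and `W' = 2(6(x₁+u)² - h₁)` one gets `G' = 2(6(x₁+u)² - h₁) Z² (z₁² - G)`, `G(0) = z₁²`, so
`G = z₁²` (compare lowest coefficients of `G - z₁²`; `ℚ`-algebra). On the other hand `Z' = z₁ ∑_k (-1)^k C(2k,k) 4^{-k} z₁^{2k} W^k` also satisfies `Z'² (1 + z₁² W) = z₁²`
(`(∑_k (-1)^k C(2k,k) X^k/4^k)² (1 + X) = 1`) with the same constant term, and `A[[u]]` is a domain, so `Z = Z'`. Hence
`4^i D^i z₁/i! = ∑_{k ≤ i} (-1)^k C(2k,k) 4^{i-k} z₁^{2k+1} [u^i] W^k`, an integer polynomial of degree `≤ (2i+1) + 2i` in the `inl` variables, of length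
`≤ ∑_k 4^k 4^{i-k} 30^k ≤ (i+1) 120^i ≤ 240^i`. (Any other proof of an estimate of this shape, with `240` replaced by another constant, is welcome:
then change the constant `256` here and tell helper88.) -/
theorem zser₁ (i : ℕ) : ∃ g : PN, Bd (4 * i + 1) 0 (256 ^ i) g ∧ (4 : ℤ) ^ i • (D₁^[i] (nX 1)) = (i.factorial : ℤ) • g := by
  refine ⟨n1_g (nX 0) (nX 1) (nX 4) i, n1_bd_g _ _ _ (Bd.varA 0) (Bd.varA 1) (Bd.varA 4) i,
    n1_iter (nX 0) (nX 1) (nX 4) D₁ ?_ ?_ ?_ i⟩
  · exact MvPolynomial.mkDerivation_X _ _ _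
  · exact MvPolynomial.mkDerivation_X _ _ _
  · exact MvPolynomial.mkDerivation_X _ _ _

/-- N1b. the same with the variables `x₂, z₂, h₂`. -/
theorem zser₂ (i : ℕ) : ∃ g : PN, Bd (4 * i + 1) 0 (256 ^ i) g ∧ (4 : ℤ) ^ i • (D₂^[i] (nX 3)) = (i.factorial : ℤ) • g := by
  refine ⟨n1_g (nX 2) (nX 3) (nX 5) i, n1_bd_g _ _ _ (Bd.varA 2) (Bd.varA 3) (Bd.varA 5) i,
    n1_iter (nX 2) (nX 3) (nX 5) D₂ ?_ ?_ ?_ i⟩
  · exact MvPolynomial.mkDerivation_X _ _ _
  · exact MvPolynomial.mkDerivation_X _ _ _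
  · exact MvPolynomial.mkDerivation_X _ _ _

end Pool.Agent.MSN
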