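import Pool.Agent.Lib.MP_f58a57_nt.N.N0_Ring

/-! # N2: the denominators (MP_f58a57_nt, algebraic invariants) -/

open Complex Filter Topology

noncomputable section

namespace Pool.Agent.MSN

open Pool.Agent.MSP

private theorem n2_aux (T : ℕ) : ∀ (m : ℕ) (K : Multiset ℕ), (∀ k ∈ K, 1 ≤ k) → K.sum ≤ T →
    Multiset.card K = m → K.prod ∣ ∏ j ∈ Finset.Icc 1 m, (Finset.Icc 1 (T / j)).lcm id := by
  intro m
  induction m with
  | zero =>
    intro K _ _ hc
    have : K = 0 := Multiset.card_eq_zero.mp hc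
    subst this
    simp
  | succ m ih =>
    intro K hK hs hc
    have hne : K.toFinset.Nonempty := by
      rw [Finset.nonempty_iff_ne_empty]
      intro h
      have : K = 0 := Multiset.toFinset_eq_empty.mp h
      subst this
      simp at hc
    obtain ⟨a, ha, hmin⟩ := Finset.exists_min_image K.toFinset id hne
    have haK : a ∈ K := Multiset.mem_toFinset.mp ha
    have hmin' : ∀ x ∈ K, a ≤ x := fun x hx => hmin x (Multiset.mem_toFinset.mpr hx)
    have h1 : (m + 1) * a ≤ T := by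
      have h := Multiset.card_nsmul_le_sum (s := K) (a := a) hmin'
      rw [hc, smul_eq_mul] at h
      exact h.trans hs
    have hcons : a ::ₘ K.erase a = K := Multiset.cons_erase haK
    have hsum : K.sum = a + (K.erase a).sum := by
      conv_lhs => rw [← hcons]
      rw [Multiset.sum_cons]
    have hprod : K.prod = a * (K.erase a).prod := by
      conv_lhs => rw [← hcons]
      rw [Multiset.prod_cons]
    have hcard : Multiset.card (K.erase a) = m := by
      rw [Multiset.card_erase_of_mem haK, hc]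
      rfl
    have h2 := ih (K.erase a) (fun k hk => hK k (Multiset.mem_of_mem_erase hk)) (by omega) hcard
    rw [hprod, Finset.prod_Icc_succ_top (by omega), mul_comm]
    refine mul_dvd_mul h2 ?_
    have h3 : a ∈ Finset.Icc 1 (T / (m + 1)) := by
      rw [Finset.mem_Icc]
      refine ⟨hK a haK, ?_⟩
      rw [Nat.le_div_iff_mul_le (by omega)]
      rw [mul_comm]
      exact h1
    exact Finset.dvd_lcm (f := id) h3

/-- N2a. PROOF. Sort `K` decreasingly: `k_1 ≥ k_2 ≥ ...`; then `j k_j ≤ ∑ K ≤ T`, so `k_j ≤ T/j` divides `lcm(1, ..., T/j)`. -/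
theorem prod_dvd (T l : ℕ) (K : Multiset ℕ) (hK : ∀ k ∈ K, 1 ≤ k) (hs : K.sum ≤ T) (hc : Multiset.card K ≤ l) :
    4 ^ T * K.prod ∣ den T l := by
  unfold den
  refine mul_dvd_mul (dvd_refl _) ?_
  refine (n2_aux T _ K hK hs rfl).trans ?_
  refine Finset.prod_dvd_prod_of_subset _ _ _ ?_
  exact Finset.Icc_subset_Icc le_rfl hc

private theorem n2_log_lcm (n : ℕ) : Real.log (((Finset.Icc 1 n).lcm id : ℕ) : ℝ) ≤ (Real.log 4 + 4) * n := by
  have h := Chebyshev.psi_eq_log_lcmUpto n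
  have h2 := Chebyshev.psi_le_const_mul_self (x := (n : ℝ)) (Nat.cast_nonneg n)
  rw [h] at h2
  exact h2

private theorem n2_lcm_pos (n : ℕ) : 0 < (Finset.Icc 1 n).lcm id := Nat.lcmUpto_pos n

theorem den_pos (T l : ℕ) : 0 < den T l := by
  unfold den
  refine Nat.mul_pos (by positivity) ?_
  exact Finset.prod_pos fun j _ => n2_lcm_pos _

/-- N2b. PROOF. `lcm(1..n) ≤ 4^n` (or `≤ C^n` with some constant; Mathlib: Chebyshev functions `Chebyshev.psi`, or elementary), so
`den T l ≤ 4^T ∏_{j ≤ l} C^{T/j} ≤ exp(C' T (1 + log l))` (`∑_{j ≤ l} 1/j ≤ 1 + log l`). For `l = 0` `den = 4^T`. -/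
theorem den_le : ∃ C : ℝ, 1 ≤ C ∧ ∀ T l : ℕ, (den T l : ℝ) ≤ Real.exp (C * T * (1 + Real.log (l + 1))) := by
  have hlog4 : 0 ≤ Real.log 4 := Real.log_nonneg (by norm_num)
  refine ⟨2 * Real.log 4 + 4, by linarith, ?_⟩
  intro T l
  have hpos : (0 : ℝ) < (den T l : ℝ) := by exact_mod_cast den_pos T l
  rw [← Real.log_le_iff_le_exp hpos]
  have hT : (0 : ℝ) ≤ (T : ℝ) := Nat.cast_nonneg T
  have hl1 : 0 ≤ Real.log ((l : ℝ) + 1) := Real.log_nonneg (by linarith [(Nat.cast_nonneg l : (0 : ℝ) ≤ l)])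
  have h1 : Real.log (den T l : ℝ) = T * Real.log 4 +
      ∑ j ∈ Finset.Icc 1 l, Real.log (((Finset.Icc 1 (T / j)).lcm id : ℕ) : ℝ) := by
    unfold den
    rw [Nat.cast_mul, Real.log_mul, Nat.cast_pow, Real.log_pow, Nat.cast_prod, Real.log_prod]
    · norm_num
    · intro j _
      exact_mod_cast (n2_lcm_pos _).ne'
    · positivity
    · have : (0 : ℕ) < ∏ j ∈ Finset.Icc 1 l, (Finset.Icc 1 (T / j)).lcm id :=
        Finset.prod_pos fun j _ => n2_lcm_pos _
      exact_mod_cast this.ne'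
  have h2 : ∑ j ∈ Finset.Icc 1 l, Real.log (((Finset.Icc 1 (T / j)).lcm id : ℕ) : ℝ) ≤
      ∑ j ∈ Finset.Icc 1 l, (Real.log 4 + 4) * T * ((j : ℝ)⁻¹) := by
    refine Finset.sum_le_sum fun j hj => ?_
    rw [Finset.mem_Icc] at hj
    refine (n2_log_lcm _).trans ?_
    have h3 : ((T / j : ℕ) : ℝ) ≤ (T : ℝ) / j := Nat.cast_div_le
    have h4 : (Real.log 4 + 4) * ((T / j : ℕ) : ℝ) ≤ (Real.log 4 + 4) * ((T : ℝ) / j) :=
      mul_le_mul_of_nonneg_left h3 (by linarith)
    refine h4.trans (le_of_eq ?_)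
    rw [div_eq_mul_inv]
    ring
  rw [← Finset.mul_sum] at h2
  have h5 : ∑ j ∈ Finset.Icc 1 l, ((j : ℝ)⁻¹) ≤ 1 + Real.log ((l : ℝ) + 1) := by
    have h6 := harmonic_le_one_add_log l
    rw [harmonic_eq_sum_Icc] at h6
    push_cast at h6
    refine h6.trans ?_
    rcases Nat.eq_zero_or_pos l with h0 | h0
    · subst h0
      simp
    · have : Real.log (l : ℝ) ≤ Real.log ((l : ℝ) + 1) :=
        Real.log_le_log (by exact_mod_cast h0) (by linarith)
      linarith
  have h7 : (Real.log 4 + 4) * T * ∑ j ∈ Finset.Icc 1 l, ((j : ℝ)⁻¹) ≤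
      (Real.log 4 + 4) * T * (1 + Real.log ((l : ℝ) + 1)) :=
    mul_le_mul_of_nonneg_left h5 (mul_nonneg (by linarith) hT)
  have h8 : (T : ℝ) * Real.log 4 ≤ Real.log 4 * T * (1 + Real.log ((l : ℝ) + 1)) := by
    have : Real.log 4 * T * 1 ≤ Real.log 4 * T * (1 + Real.log ((l : ℝ) + 1)) :=
      mul_le_mul_of_nonneg_left (by linarith) (mul_nonneg hlog4 hT)
    linarith
  rw [h1]
  calc _ ≤ Real.log 4 * T * (1 + Real.log ((l : ℝ) + 1)) +
        (Real.log 4 + 4) * T * (1 + Real.log ((l : ℝ) + 1)) := add_le_add h8 (h2.trans h7)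
    _ = _ := by ring

/-- monotonicity -/
theorem den_dvd (T T' l : ℕ) (h : T ≤ T') : den T l ∣ den T' l := by
  unfold den
  refine mul_dvd_mul (pow_dvd_pow 4 h) ?_
  refine Finset.prod_dvd_prod_of_dvd _ _ fun j _ => ?_
  refine Finset.lcm_mono (f := id) ?_
  exact Finset.Icc_subset_Icc le_rfl (Nat.div_le_div_right h)

end Pool.Agent.MSN
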