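import Pool.Agent.Lib.MP_f58a57_nt.N.N1_Zser
import Pool.Agent.Lib.MP_f58a57_nt.N.N2_Den

/-! # N3: integrality and size of the Taylor coefficients of the monomials (MP_f58a57_nt, algebraic invariants) -/

open Complex Filter Topology

noncomputable section

namespace Pool.Agent.MSN

open Pool.Agent.MSP

/-! ## the normalised Taylor coefficients over the rationals -/

/-- the rational polynomial ring -/
abbrev N3A := MvPolynomial (Fin 6 ⊕ Fin 12) ℚ

/-- the inclusion -/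
def n3φ : PN →+* N3A := MvPolynomial.map (Int.castRingHom ℚ)

/-- rational constants -/
abbrev n3C (a : ℚ) : N3A := MvPolynomial.C a

theorem n3φ_inj : Function.Injective n3φ :=
  MvPolynomial.map_injective _ (RingHom.injective_int _)

theorem n3φ_C (a : ℤ) : n3φ (MvPolynomial.C a) = n3C (a : ℚ) := by
  simp [n3φ, n3C]

theorem n3φ_zsmul (a : ℤ) (p : PN) : n3φ (a • p) = n3C (a : ℚ) * n3φ p := by
  rw [map_zsmul, zsmul_eq_mul]
  simp [n3C]

theorem n3_leib (D : Derivation ℤ PN PN) (n : ℕ) (p q : PN) :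
    D^[n] (p * q) = ∑ ij ∈ Finset.HasAntidiagonal.antidiagonal n, n.choose ij.1 • (D^[ij.1] p * D^[ij.2] q) := by
  induction n with
  | zero => simp
  | succ n ih =>
    rw [Finset.sum_antidiagonal_choose_succ_nsmul (fun i j => D^[i] p * D^[j] q) n]
    simp only [Function.iterate_succ_apply', ih, map_sum, map_nsmul, Derivation.leibniz, smul_eq_mul, smul_add,
      Finset.sum_add_distrib]
    congr 1
    refine Finset.sum_congr rfl fun ij hij => ?_
    rw [n.choose_symm_of_eq_add (Finset.HasAntidiagonal.mem_antidiagonal.1 hij).symm, mul_comm (D^[ij.2] q)]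

/-- `D₁^r D₂^s p/(r! s!)` -/
def n3E (r s : ℕ) (p : PN) : N3A := n3C (((r.factorial : ℚ) * (s.factorial : ℚ))⁻¹) * n3φ (D₁^[r] (D₂^[s] p))

theorem n3_iter_sum {ι : Type*} (D : Derivation ℤ PN PN) (n : ℕ) (S : Finset ι) (f : ι → PN) :
    D^[n] (∑ i ∈ S, f i) = ∑ i ∈ S, D^[n] (f i) := by
  induction n with
  | zero => simp
  | succ n ih => simp only [Function.iterate_succ_apply', ih, map_sum]

theorem n3_iter_nsmul (D : Derivation ℤ PN PN) (n k : ℕ) (p : PN) :
    D^[n] (k • p) = k • D^[n] p := by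
  induction n with
  | zero => simp
  | succ n ih => simp only [Function.iterate_succ_apply', ih, map_nsmul]

theorem n3_iter_add (D : Derivation ℤ PN PN) (n : ℕ) (p q : PN) :
    D^[n] (p + q) = D^[n] p + D^[n] q := by
  induction n with
  | zero => simp
  | succ n ih => simp only [Function.iterate_succ_apply', ih, map_add]

theorem n3_iter_zero (D : Derivation ℤ PN PN) (n : ℕ) : D^[n] 0 = 0 := by
  induction n with
  | zero => simp
  | succ n ih => simp only [Function.iterate_succ_apply', ih, map_zero]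

/-- if `D p = 0` then all further iterates vanish -/
theorem n3_iter_const (D : Derivation ℤ PN PN) (n : ℕ) (hn : n ≠ 0) (p : PN) (hp : D p = 0) : D^[n] p = 0 := by
  obtain ⟨m, rfl⟩ := Nat.exists_eq_succ_of_ne_zero hn
  rw [Function.iterate_succ_apply, hp, n3_iter_zero]

theorem n3E_add (r s : ℕ) (p q : PN) : n3E r s (p + q) = n3E r s p + n3E r s q := by
  unfold n3E
  rw [n3_iter_add, n3_iter_add, map_add, mul_add]

theorem n3_fact_choose (n : ℕ) (ij : ℕ × ℕ) (h : ij ∈ Finset.HasAntidiagonal.antidiagonal n) :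
    ((n.factorial : ℚ))⁻¹ * (n.choose ij.1 : ℚ) = ((ij.1.factorial : ℚ))⁻¹ * ((ij.2.factorial : ℚ))⁻¹ := by
  have h1 := Finset.HasAntidiagonal.mem_antidiagonal.1 h
  subst h1
  have h2 := Nat.choose_mul_factorial_mul_factorial (Nat.le_add_right ij.1 ij.2)
  rw [Nat.add_sub_cancel_left] at h2
  have h3 : ((ij.1 + ij.2).choose ij.1 : ℚ) * (ij.1.factorial : ℚ) * (ij.2.factorial : ℚ) = ((ij.1 + ij.2).factorial : ℚ) := by
    exact_mod_cast h2
  have h4 : (ij.1.factorial : ℚ) ≠ 0 := by positivity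
  have h5 : (ij.2.factorial : ℚ) ≠ 0 := by positivity
  have h6 : ((ij.1 + ij.2).factorial : ℚ) ≠ 0 := by positivity
  field_simp
  linarith [h3]

theorem n3E_mul (r s : ℕ) (p q : PN) : n3E r s (p * q) =
    ∑ a ∈ Finset.HasAntidiagonal.antidiagonal r, ∑ b ∈ Finset.HasAntidiagonal.antidiagonal s, n3E a.1 b.1 p * n3E a.2 b.2 q := by
  have h1 : D₁^[r] (D₂^[s] (p * q)) = ∑ a ∈ Finset.HasAntidiagonal.antidiagonal r, ∑ b ∈ Finset.HasAntidiagonal.antidiagonal s,
      (r.choose a.1 * s.choose b.1) • (D₁^[a.1] (D₂^[b.1] p) * D₁^[a.2] (D₂^[b.2] q)) := by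
    rw [n3_leib D₂, n3_iter_sum]
    rw [Finset.sum_comm]
    refine Finset.sum_congr rfl fun b _ => ?_
    rw [n3_iter_nsmul, n3_leib D₁, Finset.smul_sum]
    refine Finset.sum_congr rfl fun a _ => ?_
    rw [smul_smul, mul_comm]
  unfold n3E
  rw [h1, map_sum, Finset.mul_sum]
  refine Finset.sum_congr rfl fun a ha => ?_
  rw [map_sum, Finset.mul_sum]
  refine Finset.sum_congr rfl fun b hb => ?_
  have h2 := n3_fact_choose r a ha
  have h3 := n3_fact_choose s b hb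
  rw [map_nsmul, map_mul, nsmul_eq_mul]
  have h4 : ((r.choose a.1 * s.choose b.1 : ℕ) : N3A) = n3C ((r.choose a.1 : ℚ) * (s.choose b.1 : ℚ)) := by
    simp [n3C]
  rw [h4]
  have h5 : n3C (((r.factorial : ℚ) * (s.factorial : ℚ))⁻¹) * n3C ((r.choose a.1 : ℚ) * (s.choose b.1 : ℚ))
      = n3C (((a.1.factorial : ℚ) * (b.1.factorial : ℚ))⁻¹) * n3C (((a.2.factorial : ℚ) * (b.2.factorial : ℚ))⁻¹) := by
    rw [← map_mul, ← map_mul]
    congr 1
    rw [mul_inv, mul_inv, mul_inv]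
    linear_combination ((s.factorial : ℚ))⁻¹ * (s.choose b.1 : ℚ) * h2 + ((a.1.factorial : ℚ))⁻¹ * ((a.2.factorial : ℚ))⁻¹ * h3
  rw [← mul_assoc, h5]
  ring

/-! ## types -/

/-- sums of `g/(4^n ∏ K)` -/
inductive N3Ty : ℕ → ℕ → ℕ → ℕ → ℝ → N3A → Prop
  | base (n m D l : ℕ) (H : ℝ) (g : PN) (K : Multiset ℕ) (hK : ∀ k ∈ K, 1 ≤ k) (hs : K.sum ≤ n)
      (hc : Multiset.card K ≤ m) (hg : Bd D l H g) : N3Ty n m D l H (n3C (((4 : ℚ) ^ n * (K.prod : ℚ))⁻¹) * n3φ g)
  | add (n m D l : ℕ) (H H' : ℝ) (x y : N3A) (hx : N3Ty n m D l H x) (hy : N3Ty n m D l H' y) :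
      N3Ty n m D l (H + H') (x + y)

theorem N3Ty.mono {n m D l m' D' l' : ℕ} {H H' : ℝ} {x : N3A} (h : N3Ty n m D l H x) (hm : m ≤ m') (hD : D ≤ D')
    (hl : l ≤ l') (hH : H ≤ H') : N3Ty n m' D' l' H' x := by
  induction h generalizing H' with
  | base H g K hK hs hc hg => exact N3Ty.base n m' D' l' H' g K hK hs (hc.trans hm) (hg.mono hD hl hH)
  | add H₁ H₂ x y hx hy ihx ihy =>
    have h1 := ihx (le_refl H₁)
    have h2 := ihy (H' := H' - H₁) (by linarith)
    have h3 := N3Ty.add _ _ _ _ _ _ _ _ h1 h2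
    have h4 : H₁ + (H' - H₁) = H' := by ring
    rwa [h4] at h3

theorem N3Ty.zero (n m D l : ℕ) : N3Ty n m D l 0 0 := by
  have h := N3Ty.base n m D l 0 0 0 (by simp) (by simp) (by simp) (Bd.zero D l 0 (le_refl _))
  simpa using h

theorem N3Ty.of_eq {n m D l : ℕ} {H : ℝ} {x y : N3A} (h : N3Ty n m D l H x) (hxy : x = y) : N3Ty n m D l H y := hxy ▸ h

theorem N3Ty.mul {n m D l n' m' D' l' : ℕ} {H H' : ℝ} {x y : N3A} (h : N3Ty n m D l H x) (h' : N3Ty n' m' D' l' H' y) :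
    N3Ty (n + n') (m + m') (D + D') (l + l') (H * H') (x * y) := by
  induction h with
  | base H g K hK hs hc hg =>
    induction h' with
    | base H' g' K' hK' hs' hc' hg' =>
      have h1 := N3Ty.base (n + n') (m + m') (D + D') (l + l') (H * H') (g * g') (K + K')
        (by
          intro k hk
          rcases Multiset.mem_add.1 hk with hk | hk
          · exact hK k hk
          · exact hK' k hk)
        (by rw [Multiset.sum_add]; exact add_le_add hs hs')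
        (by rw [Multiset.card_add]; exact add_le_add hc hc') (hg.mul hg')
      refine h1.of_eq ?_
      rw [Multiset.prod_add, map_mul, pow_add]
      have h2 : (((4 : ℚ) ^ n * (4 : ℚ) ^ n' * ((K.prod * K'.prod : ℕ) : ℚ))⁻¹)
          = (((4 : ℚ) ^ n * (K.prod : ℚ))⁻¹) * (((4 : ℚ) ^ n' * (K'.prod : ℚ))⁻¹) := by
        push_cast
        rw [← mul_inv]
        congr 1
        ring
      rw [h2]
      unfold n3C
      rw [map_mul]
      ring
    | add H₁ H₂ x y hx hy ihx ihy =>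
      rw [mul_add, mul_add]
      exact N3Ty.add _ _ _ _ _ _ _ _ ihx ihy
  | add H₁ H₂ x y hx hy ihx ihy =>
    rw [add_mul, add_mul]
    exact N3Ty.add _ _ _ _ _ _ _ _ ihx ihy

theorem N3Ty.sum {ι : Type*} {n m D l : ℕ} (S : Finset ι) (H : ι → ℝ) (x : ι → N3A)
    (h : ∀ i ∈ S, N3Ty n m D l (H i) (x i)) : N3Ty n m D l (∑ i ∈ S, H i) (∑ i ∈ S, x i) := by
  classical
  induction S using Finset.induction_on with
  | empty =>
    rw [Finset.sum_empty, Finset.sum_empty]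
    exact N3Ty.zero n m D l
  | insert a S ha ih =>
    rw [Finset.sum_insert ha, Finset.sum_insert ha]
    exact N3Ty.add _ _ _ _ _ _ _ _ (h a (Finset.mem_insert_self _ _)) (ih fun i hi => h i (Finset.mem_insert_of_mem hi))

theorem n3_bd_nonneg {D l : ℕ} {H : ℝ} {g : PN} (h : Bd D l H g) : 0 ≤ H := (mlen_nonneg g).trans h.h

theorem N3Ty.clear {n m D l : ℕ} {H : ℝ} {x : N3A} (h : N3Ty n m D l H x) (T L : ℕ) (hT : n ≤ T) (hL : m ≤ L) :
    ∃ Ξ : PN, Bd D l (H * den T L) Ξ ∧ n3C (den T L : ℚ) * x = n3φ Ξ := by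
  induction h with
  | base H g K hK hs hc hg =>
    obtain ⟨q, hq⟩ := prod_dvd T L K hK (hs.trans hT) (hc.trans hL)
    have hK1 : 1 ≤ K.prod := by
      refine Nat.one_le_iff_ne_zero.2 ?_
      intro h0
      have := Multiset.prod_eq_zero_iff.1 h0
      exact absurd (hK 0 this) (by norm_num)
    have h4 : (4 : ℕ) ^ T = 4 ^ n * 4 ^ (T - n) := by
      rw [← pow_add]
      congr 1
      omega
    have hle : q * 4 ^ (T - n) ≤ den T L := by
      rw [hq, h4]
      calc q * 4 ^ (T - n) = 1 * 4 ^ (T - n) * 1 * q := by ring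
        _ ≤ 4 ^ n * 4 ^ (T - n) * K.prod * q :=
          Nat.mul_le_mul (Nat.mul_le_mul (Nat.mul_le_mul (Nat.one_le_pow _ _ (by norm_num)) (le_refl _)) hK1) (le_refl _)
    refine ⟨MvPolynomial.C ((q * 4 ^ (T - n) : ℕ) : ℤ) * g, ?_, ?_⟩
    · have h1 := (Bd.const (r := 6) (s := 12) ((q * 4 ^ (T - n) : ℕ) : ℤ)).mul hg
      refine h1.mono (by omega) (by omega) ?_
      have h2 : |(((q * 4 ^ (T - n) : ℕ) : ℤ) : ℝ)| ≤ (den T L : ℝ) := by
        rw [Int.cast_natCast, abs_of_nonneg (Nat.cast_nonneg _)]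
        exact_mod_cast hle
      rw [mul_comm H]
      exact mul_le_mul_of_nonneg_right h2 (n3_bd_nonneg hg)
    · rw [map_mul, n3φ_C, ← mul_assoc]
      congr 1
      unfold n3C
      rw [← map_mul]
      congr 1
      rw [hq, h4]
      obtain ⟨kp, hkp⟩ : ∃ kp, kp = K.prod := ⟨_, rfl⟩
      rw [← hkp]
      have h5 : (kp : ℚ) ≠ 0 := by
        have : kp ≠ 0 := by omega
        exact_mod_cast this
      push_cast
      field_simp
  | add H₁ H₂ x y hx hy ihx ihy =>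
    obtain ⟨Ξ₁, h1, e1⟩ := ihx
    obtain ⟨Ξ₂, h2, e2⟩ := ihy
    refine ⟨Ξ₁ + Ξ₂, ?_, ?_⟩
    · rw [add_mul]
      exact h1.add h2
    · rw [mul_add, e1, e2, map_add]

/-! ## admissible polynomials -/

/-- admissible families of Taylor coefficients -/
def N3Adm (m D l : ℕ) (M : ℝ) (p : PN) : Prop :=
  ∃ h : ℕ → ℕ → ℝ, (∀ r s, 0 ≤ h r s) ∧
    (∀ r s, N3Ty (r + s) m (D + 6 * (r + s)) l (h r s * 512 ^ (r + s)) (n3E r s p)) ∧
    ∀ N, ∑ r ∈ Finset.range N, ∑ s ∈ Finset.range N, h r s ≤ M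

theorem N3Adm.mono {m D l m' D' l' : ℕ} {M M' : ℝ} {p : PN} (h : N3Adm m D l M p) (hm : m ≤ m') (hD : D ≤ D')
    (hl : l ≤ l') (hM : M ≤ M') : N3Adm m' D' l' M' p := by
  obtain ⟨f, h0, h1, h2⟩ := h
  exact ⟨f, h0, fun r s => (h1 r s).mono hm (by omega) hl (le_refl _), fun N => (h2 N).trans hM⟩

theorem N3Adm.nonneg {m D l : ℕ} {M : ℝ} {p : PN} (h : N3Adm m D l M p) : 0 ≤ M := by
  obtain ⟨f, h0, h1, h2⟩ := h
  simpa using h2 0

theorem N3Adm.add {m D l : ℕ} {M M' : ℝ} {p q : PN} (h : N3Adm m D l M p) (h' : N3Adm m D l M' q) :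
    N3Adm m D l (M + M') (p + q) := by
  obtain ⟨f, h0, h1, h2⟩ := h
  obtain ⟨f', h0', h1', h2'⟩ := h'
  refine ⟨fun r s => f r s + f' r s, fun r s => add_nonneg (h0 r s) (h0' r s), fun r s => ?_, fun N => ?_⟩
  · rw [n3E_add, add_mul]
    exact N3Ty.add _ _ _ _ _ _ _ _ (h1 r s) (h1' r s)
  · simp only [Finset.sum_add_distrib]
    exact add_le_add (h2 N) (h2' N)

/-- convolution in one variable -/
theorem n3_conv (F G : ℕ → ℝ) (hF : ∀ i, 0 ≤ F i) (hG : ∀ i, 0 ≤ G i) (N : ℕ) :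
    ∑ r ∈ Finset.range N, ∑ a ∈ Finset.HasAntidiagonal.antidiagonal r, F a.1 * G a.2 ≤
      (∑ i ∈ Finset.range N, F i) * ∑ j ∈ Finset.range N, G j := by
  classical
  rw [Finset.sum_mul_sum, ← Finset.sum_product', Finset.sum_sigma']
  refine le_of_eq_of_le (b := ∑ x ∈ ((Finset.range N).sigma fun r => Finset.HasAntidiagonal.antidiagonal r).image (fun x => x.2),
    F x.1 * G x.2) ?_ ?_
  · rw [Finset.sum_image]
    rintro ⟨r, a⟩ hx ⟨r', a'⟩ hy h
    simp only [Finset.coe_sigma, Set.mem_sigma_iff, Finset.mem_coe, Finset.HasAntidiagonal.mem_antidiagonal] at hx hy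
    simp only at h
    subst h
    obtain ⟨_, rfl⟩ := hx
    obtain ⟨_, rfl⟩ := hy
    rfl
  · refine Finset.sum_le_sum_of_subset_of_nonneg ?_ fun x _ _ => mul_nonneg (hF _) (hG _)
    intro x hx
    obtain ⟨⟨r, a⟩, hy, rfl⟩ := Finset.mem_image.1 hx
    simp only [Finset.mem_sigma, Finset.mem_range, Finset.HasAntidiagonal.mem_antidiagonal] at hy
    simp only [Finset.mem_product, Finset.mem_range]
    omega

theorem N3Adm.mul {m D l m' D' l' : ℕ} {M M' : ℝ} {p q : PN} (h : N3Adm m D l M p) (h' : N3Adm m' D' l' M' q) :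
    N3Adm (m + m') (D + D') (l + l') (M * M') (p * q) := by
  have hM := h.nonneg
  obtain ⟨f, h0, h1, h2⟩ := h
  obtain ⟨f', h0', h1', h2'⟩ := h'
  refine ⟨fun r s => ∑ a ∈ Finset.HasAntidiagonal.antidiagonal r, ∑ b ∈ Finset.HasAntidiagonal.antidiagonal s, f a.1 b.1 * f' a.2 b.2,
    fun r s => Finset.sum_nonneg fun a _ => Finset.sum_nonneg fun b _ => mul_nonneg (h0 _ _) (h0' _ _), fun r s => ?_, fun N => ?_⟩
  · rw [n3E_mul, Finset.sum_mul]
    refine N3Ty.sum _ _ _ fun a ha => ?_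
    rw [Finset.sum_mul]
    refine N3Ty.sum _ _ _ fun b hb => ?_
    have ha := Finset.HasAntidiagonal.mem_antidiagonal.1 ha
    have hb := Finset.HasAntidiagonal.mem_antidiagonal.1 hb
    have h3 := (h1 a.1 b.1).mul (h1' a.2 b.2)
    have e1 : a.1 + b.1 + (a.2 + b.2) = r + s := by omega
    have e2 : f a.1 b.1 * 512 ^ (a.1 + b.1) * (f' a.2 b.2 * 512 ^ (a.2 + b.2)) = f a.1 b.1 * f' a.2 b.2 * 512 ^ (r + s) := by
      rw [← e1, pow_add (512 : ℝ) (a.1 + b.1)]
      ring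
    rw [e1, e2] at h3
    exact h3.mono (le_refl _) (by omega) (le_refl _) (le_refl _)
  · have hsplit : ∀ r, ∑ s ∈ Finset.range N, ∑ a ∈ Finset.HasAntidiagonal.antidiagonal r, ∑ b ∈ Finset.HasAntidiagonal.antidiagonal s, f a.1 b.1 * f' a.2 b.2
        ≤ ∑ a ∈ Finset.HasAntidiagonal.antidiagonal r, (∑ s ∈ Finset.range N, f a.1 s) * ∑ s ∈ Finset.range N, f' a.2 s := by
      intro r
      rw [Finset.sum_comm]
      refine Finset.sum_le_sum fun a _ => ?_
      exact n3_conv (fun i => f a.1 i) (fun i => f' a.2 i) (fun i => h0 _ _) (fun i => h0' _ _) N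
    refine (Finset.sum_le_sum fun r _ => hsplit r).trans ?_
    refine (n3_conv (fun i => ∑ s ∈ Finset.range N, f i s) (fun i => ∑ s ∈ Finset.range N, f' i s)
      (fun i => Finset.sum_nonneg fun _ _ => h0 _ _) (fun i => Finset.sum_nonneg fun _ _ => h0' _ _) N).trans ?_
    exact mul_le_mul (h2 N) (h2' N) (Finset.sum_nonneg fun _ _ => Finset.sum_nonneg fun _ _ => h0' _ _) hM

theorem n3_sum_single (c : ℝ) (hc : 0 ≤ c) (N : ℕ) :
    ∑ r ∈ Finset.range N, ∑ s ∈ Finset.range N, (if r = 0 ∧ s = 0 then c else 0) ≤ c := by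
  rcases N with _ | N
  · simpa using hc
  · refine le_of_eq ?_
    rw [Finset.sum_eq_single 0, Finset.sum_eq_single 0]
    · simp
    · intro s _ hs
      simp [hs]
    · intro h
      exact absurd (Finset.mem_range.2 (Nat.succ_pos N)) h
    · intro r _ hr
      refine Finset.sum_eq_zero fun s _ => ?_
      simp [hr]
    · intro h
      exact absurd (Finset.mem_range.2 (Nat.succ_pos N)) h

theorem n3E_zero_of {r s : ℕ} {p : PN} (h : D₁^[r] (D₂^[s] p) = 0) : n3E r s p = 0 := by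
  unfold n3E
  rw [h, map_zero, mul_zero]

theorem n3E_00 (p : PN) : n3E 0 0 p = n3φ p := by
  unfold n3E
  simp [n3C]

theorem n3_ty_of_bd {D l : ℕ} {H : ℝ} {g : PN} (h : Bd D l H g) : N3Ty 0 0 D l H (n3φ g) := by
  have h1 := N3Ty.base 0 0 D l H g 0 (by simp) (by simp) (by simp) h
  refine h1.of_eq ?_
  simp [n3C]

theorem N3Adm.const (a : ℤ) : N3Adm 0 0 0 |(a : ℝ)| (MvPolynomial.C a) := by
  have hD1 : D₁ (MvPolynomial.C a : PN) = 0 := Derivation.map_algebraMap _ a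
  have hD2 : D₂ (MvPolynomial.C a : PN) = 0 := Derivation.map_algebraMap _ a
  refine ⟨fun r s => if r = 0 ∧ s = 0 then |(a : ℝ)| else 0, fun r s => ?_, fun r s => ?_, fun N => n3_sum_single _ (abs_nonneg _) N⟩
  · dsimp only
    split_ifs
    · exact abs_nonneg _
    · exact le_refl _
  · by_cases h : r = 0 ∧ s = 0
    · obtain ⟨rfl, rfl⟩ := h
      rw [n3E_00]
      simpa using n3_ty_of_bd (Bd.const a)
    · have h0 : D₁^[r] (D₂^[s] (MvPolynomial.C a : PN)) = 0 := by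
        by_cases hs : s = 0
        · subst hs
          have hr : r ≠ 0 := fun hr => h ⟨hr, rfl⟩
          exact n3_iter_const D₁ r hr _ hD1
        · rw [n3_iter_const D₂ s hs _ hD2, n3_iter_zero]
      simp only [if_neg h, n3E_zero_of h0, zero_mul]
      exact N3Ty.zero _ _ _ _

theorem N3Adm.pow {m D l : ℕ} {M : ℝ} {p : PN} (h : N3Adm m D l M p) (k : ℕ) :
    N3Adm (k * m) (k * D) (k * l) (M ^ k) (p ^ k) := by
  induction k with
  | zero =>
    have := N3Adm.const 1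
    simpa using this
  | succ k ih =>
    rw [pow_succ, pow_succ]
    have := ih.mul h
    rwa [← Nat.succ_mul, ← Nat.succ_mul, ← Nat.succ_mul] at this

/-! ## the derivations on the variables -/

theorem n3_comm (p : PN) : D₁ (D₂ p) = D₂ (D₁ p) := by
  have h6 : ∀ D : Derivation ℤ PN PN, D 6 = 0 := fun D => by
    have := D.map_natCast 6
    simpa using this
  have h : ⁅D₁, D₂⁆ = 0 := by
    refine MvPolynomial.derivation_ext fun v => ?_
    rw [Derivation.commutator_apply]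
    simp only [D₁, D₂]
    rcases v with i | j
    · fin_cases i <;> simp [MvPolynomial.mkDerivation_X, nX, nY, h6]
    · fin_cases j <;> simp [MvPolynomial.mkDerivation_X, nX, nY]
  have h2 : (⁅D₁, D₂⁆ : Derivation ℤ PN PN) p = 0 := by rw [h]; rfl
  rw [Derivation.commutator_apply] at h2
  exact sub_eq_zero.1 h2

theorem n3_mixed (p : PN) (hp : D₂ (D₁ p) = 0) (r s : ℕ) (hr : r ≠ 0) (hs : s ≠ 0) : D₁^[r] (D₂^[s] p) = 0 := by
  obtain ⟨r, rfl⟩ := Nat.exists_eq_succ_of_ne_zero hr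
  obtain ⟨s, rfl⟩ := Nat.exists_eq_succ_of_ne_zero hs
  have hc : Function.Commute (D₁ : PN → PN) (D₂ : PN → PN) := fun q => n3_comm q
  rw [Function.iterate_succ_apply, (hc.iterate_right s.succ) p, Function.iterate_succ_apply, hp, n3_iter_zero, n3_iter_zero]

/-- Leibniz with a factor whose second derivative vanishes -/
theorem n3_iter_zw (D : Derivation ℤ PN PN) (z w w' : PN) (hw : D w = w') (hw' : D w' = 0) (n : ℕ) :
    D^[n + 1] (z * w) = D^[n + 1] z * w + ((n + 1 : ℕ) : ℤ) • (D^[n] z * w') := by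
  induction n with
  | zero =>
    simp [hw]
    ring
  | succ n ih =>
    rw [Function.iterate_succ_apply', ih, map_add, map_zsmul, Derivation.leibniz, Derivation.leibniz, hw, hw',
      Function.iterate_succ_apply' D (n + 1), Function.iterate_succ_apply' D n]
    simp only [smul_eq_mul, zsmul_eq_mul]
    push_cast
    ring

theorem n3_dir (D : Derivation ℤ PN PN) (f z w w' : PN) (hf : D f = z * w) (hw : D w = w') (hw' : D w' = 0)
    (hz : ∀ i : ℕ, ∃ g : PN, Bd (4 * i + 1) 0 (256 ^ i) g ∧ (4 : ℤ) ^ i • (D^[i] z) = (i.factorial : ℤ) • g)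
    (hbw : Bd 1 1 3 w) (hbw' : Bd 1 1 3 w') (k : ℕ) (hk : 1 ≤ k) :
    ∃ G : PN, Bd (6 * k) 1 (256 ^ k) G ∧ ((4 : ℤ) ^ k * k) • (D^[k] f) = (k.factorial : ℤ) • G := by
  have hH : (0 : ℝ) ≤ 256 := by norm_num
  have hc4 : Bd (r := 6) (s := 12) 0 0 4 (MvPolynomial.C 4) := by
    have := Bd.const (r := 6) (s := 12) 4
    simpa using this
  have hc16 : Bd (r := 6) (s := 12) 0 0 16 (MvPolynomial.C 16) := by
    have := Bd.const (r := 6) (s := 12) 16
    simpa using this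
  have hC4 : (MvPolynomial.C 4 : PN) = 4 := by simp
  have hC16 : (MvPolynomial.C 16 : PN) = 16 := by simp
  rcases k with _ | _ | i
  · omega
  · obtain ⟨g, hg, eg⟩ := hz 0
    refine ⟨MvPolynomial.C 4 * (g * w), ?_, ?_⟩
    · refine (hc4.mul (hg.mul hbw)).mono (by omega) (by omega) ?_
      norm_num
    · have e1 : z = g := by simpa using eg
      rw [Function.iterate_succ_apply, hf, ← e1, hC4]
      simp [zsmul_eq_mul]
  · obtain ⟨g, hg, eg⟩ := hz (i + 1)
    obtain ⟨g', hg', eg'⟩ := hz i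
    refine ⟨MvPolynomial.C 4 * (g * w) + MvPolynomial.C 16 * (g' * w'), ?_, ?_⟩
    · have h1 := (hc4.mul (hg.mul hbw)).mono (D' := 6 * (i + 1 + 1)) (l' := 1) (H' := 12 * 256 ^ (i + 1)) (by omega) (by omega)
        (by nlinarith [pow_nonneg hH (i + 1)])
      have h2 := (hc16.mul (hg'.mul hbw')).mono (D' := 6 * (i + 1 + 1)) (l' := 1) (H' := 48 * 256 ^ i) (by omega) (by omega)
        (by nlinarith [pow_nonneg hH i])
      refine (h1.add h2).mono (le_refl _) (le_refl _) ?_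
      have := pow_nonneg hH i
      have e1 : (256 : ℝ) ^ (i + 1) = 256 ^ i * 256 := by ring
      have e2 : (256 : ℝ) ^ (i + 1 + 1) = 256 ^ i * 65536 := by ring
      rw [e1, e2]
      linarith
    · rw [Function.iterate_succ_apply, hf, n3_iter_zw D z w w' hw hw' i, hC4, hC16]
      simp only [zsmul_eq_mul] at eg eg' ⊢
      rw [Nat.factorial_succ (i + 1)]
      have h3 : (((i + 1).factorial : ℕ) : PN) = ((i : PN) + 1) * (i.factorial : PN) := by
        rw [Nat.factorial_succ]; push_cast; ring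
      have h4 : ((((i + 1).factorial : ℕ) : ℤ) : PN) = ((i : PN) + 1) * (i.factorial : PN) := by
        rw [← h3]; push_cast; rfl
      push_cast at eg eg' h4 ⊢
      rw [h4] at eg ⊢
      linear_combination ((i : PN) + 1 + 1) * 4 * w * eg + ((i : PN) + 1 + 1) * ((i : PN) + 1) * 16 * w' * eg'

theorem n3_ty_dir (x G : PN) (k : ℕ) (hk : 1 ≤ k) (hG : Bd (6 * k) 1 (256 ^ k) G)
    (h : ((4 : ℤ) ^ k * k) • x = (k.factorial : ℤ) • G) :
    N3Ty k 1 (6 * k) 1 (256 ^ k) (n3C ((k.factorial : ℚ)⁻¹) * n3φ x) := by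
  have h1 := N3Ty.base k 1 (6 * k) 1 (256 ^ k) G {k} (by simpa using hk) (by simp) (by simp) hG
  refine h1.of_eq ?_
  have h2 : n3φ (((4 : ℤ) ^ k * k) • x) = n3φ ((k.factorial : ℤ) • G) := by rw [h]
  rw [n3φ_zsmul, n3φ_zsmul] at h2
  have hk0 : (k : ℚ) ≠ 0 := by
    have : k ≠ 0 := by omega
    exact_mod_cast this
  have hf0 : (k.factorial : ℚ) ≠ 0 := by positivity
  have h3 : n3C (((4 : ℚ) ^ k * ((({k} : Multiset ℕ).prod : ℕ) : ℚ))⁻¹) =
      n3C ((k.factorial : ℚ)⁻¹) * n3C (((4 : ℚ) ^ k * (k : ℚ))⁻¹) * n3C (((k.factorial : ℤ) : ℚ)) := by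
    unfold n3C
    rw [← map_mul, ← map_mul, Multiset.prod_singleton]
    congr 1
    push_cast
    field_simp
  have h4 : n3C ((k.factorial : ℚ)⁻¹) * n3C (((4 : ℚ) ^ k * (k : ℚ))⁻¹) * n3C ((((4 : ℤ) ^ k * (k : ℤ) : ℤ) : ℚ)) =
      n3C ((k.factorial : ℚ)⁻¹) := by
    unfold n3C
    rw [← map_mul, ← map_mul]
    congr 1
    push_cast
    field_simp
  rw [h3, mul_assoc, ← h2, ← mul_assoc, h4]

theorem n3_geom (N : ℕ) : ∑ r ∈ Finset.range N, ((1 : ℝ) / 2) ^ r ≤ 2 := by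
  have h : ∀ N : ℕ, ∑ r ∈ Finset.range N, ((1 : ℝ) / 2) ^ r = 2 - 2 * (1 / 2) ^ N := by
    intro N
    induction N with
    | zero => simp
    | succ N ih => rw [Finset.sum_range_succ, ih, pow_succ]; ring
  rw [h]
  have : (0 : ℝ) ≤ (1 / 2) ^ N := by positivity
  linarith

theorem n3_adm_basic (p : PN) (m D l : ℕ) (h1 : ∀ k, N3Ty k m (D + 6 * k) l (256 ^ k) (n3E k 0 p))
    (h2 : ∀ k, N3Ty k m (D + 6 * k) l (256 ^ k) (n3E 0 k p))
    (h3 : D₂ (D₁ p) = 0) : N3Adm m D l 4 p := by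
  have e : ∀ k : ℕ, ((1 : ℝ) / 2) ^ k * 512 ^ k = 256 ^ k := by
    intro k
    rw [← mul_pow]
    norm_num
  refine ⟨fun r s => if s = 0 then (1 / 2) ^ r else if r = 0 then (1 / 2) ^ s else 0, fun r s => ?_, fun r s => ?_, fun N => ?_⟩
  · dsimp only
    split_ifs <;> positivity
  · by_cases hs : s = 0
    · subst hs
      simp only [if_true, add_zero]
      rw [e]
      exact h1 r
    · by_cases hr : r = 0
      · subst hr
        simp only [if_neg hs, if_true, zero_add]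
        rw [e]
        exact h2 s
      · simp only [if_neg hs, if_neg hr, zero_mul, n3E_zero_of (n3_mixed p h3 r s hr hs)]
        exact N3Ty.zero _ _ _ _
  · have h4 : ∀ r s : ℕ, (if s = 0 then ((1 : ℝ) / 2) ^ r else if r = 0 then (1 / 2) ^ s else 0) ≤
        (if s = 0 then ((1 : ℝ) / 2) ^ r else 0) + (if r = 0 then (1 / 2) ^ s else 0) := by
      intro r s
      have : (0 : ℝ) ≤ (1 / 2) ^ s := by positivity
      split_ifs <;> simp
    refine (Finset.sum_le_sum fun r _ => Finset.sum_le_sum fun s _ => h4 r s).trans ?_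
    simp only [Finset.sum_add_distrib]
    have h5 : ∑ r ∈ Finset.range N, ∑ s ∈ Finset.range N, (if s = 0 then ((1 : ℝ) / 2) ^ r else 0) ≤ 2 := by
      refine le_trans (Finset.sum_le_sum fun r _ => ?_) (n3_geom N)
      rw [Finset.sum_ite_eq' (Finset.range N) 0]
      split_ifs
      · exact le_refl _
      · positivity
    have h6 : ∑ r ∈ Finset.range N, ∑ s ∈ Finset.range N, (if r = 0 then ((1 : ℝ) / 2) ^ s else 0) ≤ 2 := by
      rw [Finset.sum_comm]
      refine le_trans (Finset.sum_le_sum fun r _ => ?_) (n3_geom N)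
      rw [Finset.sum_ite_eq' (Finset.range N) 0]
      split_ifs
      · exact le_refl _
      · positivity
    linarith

theorem n3E_k0 (k : ℕ) (p : PN) : n3E k 0 p = n3C ((k.factorial : ℚ)⁻¹) * n3φ (D₁^[k] p) := by
  unfold n3E
  simp

theorem n3E_0k (k : ℕ) (p : PN) : n3E 0 k p = n3C ((k.factorial : ℚ)⁻¹) * n3φ (D₂^[k] p) := by
  unfold n3E
  simp

/-- a variable `x_i` -/
theorem n3_ty_x (D : Derivation ℤ PN PN) (p : PN) (hp : Bd 1 0 1 p) (hD : D p = 1 ∨ D p = 0) (k : ℕ) :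
    N3Ty k 0 (1 + 6 * k) 0 (256 ^ k) (n3C ((k.factorial : ℚ)⁻¹) * n3φ (D^[k] p)) := by
  have hD1 : D (1 : PN) = 0 := D.map_one_eq_zero
  rcases k with _ | _ | k
  · have := n3_ty_of_bd hp
    simpa [n3C] using this
  · rcases hD with hD | hD
    · have hb : Bd (r := 6) (s := 12) 0 0 1 (MvPolynomial.C 1) := by
        have := Bd.const (r := 6) (s := 12) 1
        simpa using this
      have hb4 : Bd (r := 6) (s := 12) (1 + 6 * 1) 0 256 (MvPolynomial.C 4) := by
        have := Bd.const (r := 6) (s := 12) 4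
        exact this.mono (by omega) (by omega) (by norm_num)
      have h1 := N3Ty.base 1 0 (1 + 6 * 1) 0 256 (MvPolynomial.C 4) 0 (by simp) (by simp) (by simp) hb4
      rw [zero_add, pow_one]
      refine h1.of_eq ?_
      rw [n3φ_C, Function.iterate_one, hD, map_one]
      unfold n3C
      rw [← map_mul]
      simp
    · rw [zero_add, Function.iterate_one, hD, map_zero, mul_zero]
      exact (N3Ty.zero _ _ _ _).mono (le_refl _) (le_refl _) (le_refl _) (by positivity)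
  · have h0 : D^[k + 1 + 1] p = 0 := by
      rw [Function.iterate_succ_apply]
      refine n3_iter_const D (k + 1) (Nat.succ_ne_zero _) _ ?_
      rcases hD with hD | hD
      · rw [hD, hD1]
      · rw [hD, map_zero]
    rw [h0, map_zero, mul_zero]
    exact (N3Ty.zero _ _ _ _).mono (le_refl _) (le_refl _) (le_refl _) (by positivity)

/-- a variable `Y_j`, in a direction in which it is constant -/
theorem n3_ty_y0 (D : Derivation ℤ PN PN) (p : PN) (hp : Bd 0 1 1 p) (hD : D p = 0) (k : ℕ) :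
    N3Ty k 1 (0 + 6 * k) 1 (256 ^ k) (n3C ((k.factorial : ℚ)⁻¹) * n3φ (D^[k] p)) := by
  rcases k with _ | k
  · have := (n3_ty_of_bd hp).mono (m' := 1) (Nat.zero_le 1) (le_refl _) (le_refl _) (le_refl _)
    simpa [n3C] using this
  · rw [n3_iter_const D (k + 1) (Nat.succ_ne_zero _) _ hD, map_zero, mul_zero]
    exact (N3Ty.zero _ _ _ _).mono (le_refl _) (le_refl _) (le_refl _) (by positivity)

theorem n3_ty_y (D : Derivation ℤ PN PN) (p z w w' : PN) (hp : Bd 0 1 1 p) (hf : D p = z * w) (hw : D w = w') (hw' : D w' = 0)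
    (hz : ∀ i : ℕ, ∃ g : PN, Bd (4 * i + 1) 0 (256 ^ i) g ∧ (4 : ℤ) ^ i • (D^[i] z) = (i.factorial : ℤ) • g)
    (hbw : Bd 1 1 3 w) (hbw' : Bd 1 1 3 w') (k : ℕ) :
    N3Ty k 1 (0 + 6 * k) 1 (256 ^ k) (n3C ((k.factorial : ℚ)⁻¹) * n3φ (D^[k] p)) := by
  rcases Nat.eq_zero_or_pos k with rfl | hk
  · have := (n3_ty_of_bd hp).mono (m' := 1) (Nat.zero_le 1) (le_refl _) (le_refl _) (le_refl _)
    simpa [n3C] using this
  · obtain ⟨G, hG, eG⟩ := n3_dir D p z w w' hf hw hw' hz hbw hbw' k hk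
    rw [zero_add]
    exact n3_ty_dir _ G k hk hG eG

theorem n3_D1X0 : D₁ (nX 0) = 1 := by simp [D₁, nX, MvPolynomial.mkDerivation_X]
theorem n3_D1X2 : D₁ (nX 2) = 0 := by simp [D₁, nX, MvPolynomial.mkDerivation_X]
theorem n3_D2X0 : D₂ (nX 0) = 0 := by simp [D₂, nX, MvPolynomial.mkDerivation_X]
theorem n3_D2X1 : D₂ (nX 1) = 0 := by simp [D₂, nX, MvPolynomial.mkDerivation_X]
theorem n3_D2X2 : D₂ (nX 2) = 1 := by simp [D₂, nX, MvPolynomial.mkDerivation_X]
theorem n3_D1Y (j : Fin 12) (h : j ≠ 9) (h' : j ≠ 11) : D₁ (nY j) = 0 := by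
  fin_cases j <;> first | (exact absurd rfl h) | (exact absurd rfl h') | simp [D₁, nY, MvPolynomial.mkDerivation_X]
theorem n3_D2Y (j : Fin 12) (h : j ≠ 10) (h' : j ≠ 11) : D₂ (nY j) = 0 := by
  fin_cases j <;> first | (exact absurd rfl h) | (exact absurd rfl h') | simp [D₂, nY, MvPolynomial.mkDerivation_X]
theorem n3_D1Y9 : D₁ (nY 9) = nX 1 * (nY 0 * nX 0 + nY 1) := by
  simp only [D₁, nY, MvPolynomial.mkDerivation_X]; rfl
theorem n3_D1Y11 : D₁ (nY 11) = nX 1 * (-nY 8 + nY 2 * nX 0 + nY 3) := by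
  simp only [D₁, nY, MvPolynomial.mkDerivation_X]; rfl
theorem n3_D2Y10 : D₂ (nY 10) = nX 3 * (nY 4 * nX 2 + nY 5) := by
  simp only [D₂, nY, MvPolynomial.mkDerivation_X]; rfl
theorem n3_D2Y11 : D₂ (nY 11) = nX 3 * (1 - nY 6 * nX 2 - nY 7) := by
  simp only [D₂, nY, MvPolynomial.mkDerivation_X]; rfl

theorem n3_neg {D l : ℕ} {H : ℝ} {p : PN} (h : Bd D l H p) : Bd D l H (-p) := by
  have h1 := (Bd.const (r := 6) (s := 12) (-1)).mul h
  have e : MvPolynomial.C (-1 : ℤ) * p = -p := by simp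
  rw [e] at h1
  exact h1.mono (by omega) (by omega) (by norm_num)

theorem n3_X (i : Fin 6) : Bd 1 0 1 (nX i) := Bd.varA i
theorem n3_Y (j : Fin 12) : Bd 0 1 1 (nY j) := Bd.varB j

theorem n3_adm_x1 : N3Adm 0 1 0 4 (nX 0) :=
  n3_adm_basic _ 0 1 0 (fun k => by rw [n3E_k0]; exact n3_ty_x D₁ _ (n3_X 0) (Or.inl n3_D1X0) k)
    (fun k => by rw [n3E_0k]; exact n3_ty_x D₂ _ (n3_X 0) (Or.inr n3_D2X0) k)
    (by rw [n3_D1X0]; exact D₂.map_one_eq_zero)

theorem n3_adm_x2 : N3Adm 0 1 0 4 (nX 2) :=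
  n3_adm_basic _ 0 1 0 (fun k => by rw [n3E_k0]; exact n3_ty_x D₁ _ (n3_X 2) (Or.inr n3_D1X2) k)
    (fun k => by rw [n3E_0k]; exact n3_ty_x D₂ _ (n3_X 2) (Or.inl n3_D2X2) k)
    (by rw [n3_D1X2]; exact map_zero _)

theorem n3_bw1 : Bd 1 1 3 (nY 0 * nX 0 + nY 1) :=
  ((((n3_Y 0).mul (n3_X 0)).mono (D' := 1) (l' := 1) (H' := 1) (by omega) (by omega) (by norm_num)).add
    ((n3_Y 1).mono (D' := 1) (by omega) (le_refl _) (le_refl _))).mono (le_refl _) (le_refl _) (by norm_num)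

theorem n3_bw2 : Bd 1 1 3 (nY 4 * nX 2 + nY 5) :=
  ((((n3_Y 4).mul (n3_X 2)).mono (D' := 1) (l' := 1) (H' := 1) (by omega) (by omega) (by norm_num)).add
    ((n3_Y 5).mono (D' := 1) (by omega) (le_refl _) (le_refl _))).mono (le_refl _) (le_refl _) (by norm_num)

theorem n3_bw3 : Bd 1 1 3 (-nY 8 + nY 2 * nX 0 + nY 3) :=
  ((((n3_neg (n3_Y 8)).mono (D' := 1) (by omega) (le_refl _) (le_refl _)).add
    (((n3_Y 2).mul (n3_X 0)).mono (D' := 1) (l' := 1) (H' := 1) (by omega) (by omega) (by norm_num))).add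
    ((n3_Y 3).mono (D' := 1) (by omega) (le_refl _) (le_refl _))).mono (le_refl _) (le_refl _) (by norm_num)

theorem n3_bw4 : Bd 1 1 3 (1 - nY 6 * nX 2 - nY 7) := by
  have h1 : Bd (r := 6) (s := 12) 1 1 1 (1 : PN) := by
    have := Bd.const (r := 6) (s := 12) 1
    have h2 := this.mono (D' := 1) (l' := 1) (H' := 1) (by omega) (by omega) (by norm_num)
    simpa using h2
  rw [sub_eq_add_neg, sub_eq_add_neg]
  exact ((h1.add (n3_neg (((n3_Y 6).mul (n3_X 2)).mono (D' := 1) (l' := 1) (H' := 1) (by omega) (by omega) (by norm_num)))).add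
    (n3_neg ((n3_Y 7).mono (D' := 1) (by omega) (le_refl _) (le_refl _)))).mono (le_refl _) (le_refl _) (by norm_num)

theorem n3_bwY (j : Fin 12) : Bd 1 1 3 (nY j) := (n3_Y j).mono (by omega) (by omega) (by norm_num)

theorem n3_adm_Y1 : N3Adm 1 0 1 4 (nY 9) :=
  n3_adm_basic _ 1 0 1
    (fun k => by
      rw [n3E_k0]
      exact n3_ty_y D₁ _ _ _ (nY 0) (n3_Y 9) n3_D1Y9
        (by rw [map_add, Derivation.leibniz, n3_D1X0, n3_D1Y 0 (by decide) (by decide), n3_D1Y 1 (by decide) (by decide)]; simp)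
        (n3_D1Y 0 (by decide) (by decide)) zser₁ n3_bw1 (n3_bwY 0) k)
    (fun k => by rw [n3E_0k]; exact n3_ty_y0 D₂ _ (n3_Y 9) (n3_D2Y 9 (by decide) (by decide)) k)
    (by
      rw [n3_D1Y9]
      simp only [map_add, Derivation.leibniz, n3_D2X0, n3_D2X1, n3_D2Y 0 (by decide) (by decide),
        n3_D2Y 1 (by decide) (by decide), smul_zero, add_zero])

theorem n3_adm_Y2 : N3Adm 1 0 1 4 (nY 10) :=
  n3_adm_basic _ 1 0 1
    (fun k => by rw [n3E_k0]; exact n3_ty_y0 D₁ _ (n3_Y 10) (n3_D1Y 10 (by decide) (by decide)) k)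
    (fun k => by
      rw [n3E_0k]
      exact n3_ty_y D₂ _ _ _ (nY 4) (n3_Y 10) n3_D2Y10
        (by rw [map_add, Derivation.leibniz, n3_D2X2, n3_D2Y 4 (by decide) (by decide), n3_D2Y 5 (by decide) (by decide)]; simp)
        (n3_D2Y 4 (by decide) (by decide)) zser₂ n3_bw2 (n3_bwY 4) k)
    (by rw [n3_D1Y 10 (by decide) (by decide)]; exact map_zero _)

theorem n3_adm_Y3 : N3Adm 1 0 1 4 (nY 11) :=
  n3_adm_basic _ 1 0 1
    (fun k => by
      rw [n3E_k0]
      exact n3_ty_y D₁ _ _ _ (nY 2) (n3_Y 11) n3_D1Y11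
        (by
          rw [map_add, map_add, map_neg, Derivation.leibniz, n3_D1X0, n3_D1Y 8 (by decide) (by decide),
            n3_D1Y 2 (by decide) (by decide), n3_D1Y 3 (by decide) (by decide)]
          simp)
        (n3_D1Y 2 (by decide) (by decide)) zser₁ n3_bw3 (n3_bwY 2) k)
    (fun k => by
      rw [n3E_0k]
      exact n3_ty_y D₂ _ _ _ (-nY 6) (n3_Y 11) n3_D2Y11
        (by
          rw [map_sub, map_sub, Derivation.leibniz, n3_D2X2, n3_D2Y 6 (by decide) (by decide),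
            n3_D2Y 7 (by decide) (by decide), Derivation.map_one_eq_zero]
          simp)
        (by rw [map_neg, n3_D2Y 6 (by decide) (by decide), neg_zero]) zser₂ n3_bw4 (n3_neg (n3_bwY 6)) k)
    (by
      rw [n3_D1Y11]
      simp only [map_add, map_neg, Derivation.leibniz, n3_D2X0, n3_D2X1, n3_D2Y 2 (by decide) (by decide),
        n3_D2Y 3 (by decide) (by decide), n3_D2Y 8 (by decide) (by decide), smul_zero, add_zero, neg_zero])

/-- N3. PROOF. Write `E(p)_{r,s} = D₁^r D₂^s p/(r! s!)` (in `MvPolynomial _ ℚ`); Leibniz: `E(pq)_{r,s} = ∑_{i ≤ r, j ≤ s} E(p)_{i,j} E(q)_{r-i,s-j}`.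
Polynomials of type `(n, m, D, l, H)` are sums of `g/(4^n ∏ K)`; admissible polynomials have Taylor coefficients of type
`(r + s, m, D + 6 (r + s), l, h_{r,s} 512^{r+s})` with `∑ h_{r,s} ≤ M`; admissible polynomials are closed under products. -/
theorem taylor_int : ∃ C : ℕ, ∀ (P : Pr) (ν : ℕ × ℕ × ℕ × ℕ × ℕ), ν ∈ P.box → ∀ T r s : ℕ, r + s ≤ T →
    ∃ Ξ : PN, Bd (C * (P.L + T + P.l)) P.l (P.A ^ P.l * (C : ℝ) ^ (P.L + T + P.l) * den T P.l) Ξ ∧
      (den T P.l : ℤ) • (D₁^[r] (D₂^[s] (Qn P ν))) = ((r.factorial * s.factorial : ℕ) : ℤ) • Ξ := by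
  refine ⟨512, ?_⟩
  rintro P ⟨a, b, κ₁, κ₂, κ₃⟩ hν T r s hrs
  simp only [Pr.box, Finset.mem_product, Finset.mem_range] at hν
  obtain ⟨ha, hb, h1, h2, h3⟩ := hν
  have hA0 : (2 : ℝ) ≤ P.A := by
    unfold Pr.A
    have := abs_nonneg (P.a₁ : ℝ)
    have := abs_nonneg (P.a₂ : ℝ)
    have := abs_nonneg (P.b₁ : ℝ)
    have := abs_nonneg (P.b₂ : ℝ)
    linarith
  have hf1 : N3Adm 1 0 1 (4 * P.A) (nY 11) := n3_adm_Y3.mono (le_refl _) (le_refl _) (le_refl _) (by linarith)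
  have hf2 : N3Adm 1 0 1 (4 * P.A) (MvPolynomial.C P.b₂ * nY 9 - MvPolynomial.C P.b₁ * nY 10) := by
    have e1 : (MvPolynomial.C P.b₂ * nY 9 - MvPolynomial.C P.b₁ * nY 10 : PN) =
        MvPolynomial.C P.b₂ * nY 9 + MvPolynomial.C (-P.b₁) * nY 10 := by
      rw [map_neg]; ring
    rw [e1]
    have h4 := ((N3Adm.const P.b₂).mul n3_adm_Y1).add ((N3Adm.const (-P.b₁)).mul n3_adm_Y2)
    refine h4.mono (by omega) (by omega) (by omega) ?_
    unfold Pr.A
    have := abs_nonneg (P.a₁ : ℝ)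
    have := abs_nonneg (P.a₂ : ℝ)
    push_cast
    rw [abs_neg]
    linarith
  have hf3 : N3Adm 1 0 1 (4 * P.A) (MvPolynomial.C P.a₁ * nY 9 + MvPolynomial.C P.a₂ * nY 10) := by
    have h4 := ((N3Adm.const P.a₁).mul n3_adm_Y1).add ((N3Adm.const P.a₂).mul n3_adm_Y2)
    refine h4.mono (by omega) (by omega) (by omega) ?_
    unfold Pr.A
    have := abs_nonneg (P.b₁ : ℝ)
    have := abs_nonneg (P.b₂ : ℝ)
    linarith
  have hQ : N3Adm P.l (2 * P.L) P.l (4 ^ (2 * P.L) * (4 * P.A) ^ P.l) (Qn P (a, b, κ₁, κ₂, κ₃)) := by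
    have h5 := ((n3_adm_x1.pow a).mul (n3_adm_x2.pow b)).mul (((hf1.pow κ₁).mul (hf2.pow κ₂)).mul (hf3.pow κ₃))
    have hκ : κ₁ + κ₂ + κ₃ ≤ P.l := by unfold Pr.l; omega
    refine h5.mono (by omega) (by omega) (by omega) ?_
    have h6 : (4 : ℝ) ^ a * 4 ^ b ≤ 4 ^ (2 * P.L) := by
      rw [← pow_add]
      exact pow_le_pow_right₀ (by norm_num) (by omega)
    have h7 : (4 * P.A) ^ κ₁ * (4 * P.A) ^ κ₂ * (4 * P.A) ^ κ₃ ≤ (4 * P.A) ^ P.l := by
      rw [← pow_add, ← pow_add]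
      exact pow_le_pow_right₀ (by linarith) hκ
    exact mul_le_mul h6 h7 (by positivity) (by positivity)
  obtain ⟨f, hf0, hf, hfs⟩ := hQ
  have hle : f r s ≤ 4 ^ (2 * P.L) * (4 * P.A) ^ P.l := by
    refine le_trans ?_ (hfs (r + s + 1))
    refine le_trans ?_ (Finset.single_le_sum (f := fun i => ∑ j ∈ Finset.range (r + s + 1), f i j)
      (fun i _ => Finset.sum_nonneg fun j _ => hf0 i j) (Finset.mem_range.2 (by omega : r < r + s + 1)))
    exact Finset.single_le_sum (f := fun j => f r j) (fun j _ => hf0 r j) (Finset.mem_range.2 (by omega : s < r + s + 1))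
  obtain ⟨Ξ, hΞ, eΞ⟩ := (hf r s).clear T P.l hrs (le_refl _)
  refine ⟨Ξ, hΞ.mono (by nlinarith) (le_refl _) ?_, ?_⟩
  · refine mul_le_mul_of_nonneg_right ?_ (Nat.cast_nonneg _)
    have h8 : (512 : ℝ) ^ (r + s) ≤ 512 ^ T := pow_le_pow_right₀ (by norm_num) hrs
    have h9 : (4 : ℝ) ^ (2 * P.L) = 16 ^ P.L := by
      rw [pow_mul]; norm_num
    have h10 : (16 : ℝ) ^ P.L ≤ 512 ^ P.L := pow_le_pow_left₀ (by norm_num) (by norm_num) _
    have h11 : (4 : ℝ) ^ P.l ≤ 512 ^ P.l := pow_le_pow_left₀ (by norm_num) (by norm_num) _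
    have hA1 : 0 ≤ P.A ^ P.l := by positivity
    calc f r s * 512 ^ (r + s) ≤ (4 ^ (2 * P.L) * (4 * P.A) ^ P.l) * 512 ^ T :=
          mul_le_mul hle h8 (by positivity) (by positivity)
      _ = P.A ^ P.l * (16 ^ P.L * 512 ^ T * 4 ^ P.l) := by
          rw [h9, mul_pow]; ring
      _ ≤ P.A ^ P.l * (512 ^ P.L * 512 ^ T * 512 ^ P.l) := by
          refine mul_le_mul_of_nonneg_left ?_ hA1
          exact mul_le_mul (mul_le_mul h10 (le_refl _) (by positivity) (by positivity)) h11 (by positivity) (by positivity)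
      _ = P.A ^ P.l * ((512 : ℕ) : ℝ) ^ (P.L + T + P.l) := by
          rw [pow_add, pow_add]; push_cast; ring
  · refine n3φ_inj ?_
    rw [n3φ_zsmul, n3φ_zsmul, ← eΞ]
    unfold n3E
    have hr0 : (r.factorial : ℚ) ≠ 0 := by positivity
    have hs0 : (s.factorial : ℚ) ≠ 0 := by positivity
    have h12 : n3C ((((r.factorial * s.factorial : ℕ) : ℤ) : ℚ)) * n3C (((r.factorial : ℚ) * (s.factorial : ℚ))⁻¹) = 1 := by
      unfold n3C
      rw [← map_mul, ← map_one MvPolynomial.C]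
      congr 1
      push_cast
      field_simp
    have h13 : n3C (((den T P.l : ℤ)) : ℚ) = n3C (den T P.l : ℚ) := by push_cast; rfl
    rw [h13]
    linear_combination (-(n3C (den T P.l : ℚ) * n3φ (D₁^[r] (D₂^[s] (Qn P (a, b, κ₁, κ₂, κ₃)))))) * h12

end Pool.Agent.MSN
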