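import Pool.Agent.Lib.MP_f58a57_nt.N.N0_Ring
import Pool.Agent.Lib.MP_f58a57_nt.P.A3c_FF

/-! # N4: values and derivatives (MP_f58a57_nt, algebraic invariants) -/

open Complex Filter Topology

noncomputable section

namespace Pool.Agent.MSN

open Pool.Agent.MSP

/-- values of the `inl` variables -/
def vAn (τ₁ τ₂ Ω₁ Ω₂ t w : ℂ) : Fin 6 → ℂ :=
  ![wp τ₁ (sE τ₁) t / (Real.pi * Ω₁) ^ 2, (Real.pi * Ω₁) ^ 3 / deriv (wp τ₁ (sE τ₁)) t,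
    wp τ₂ (sE τ₂) w / (Real.pi * Ω₂) ^ 2, (Real.pi * Ω₂) ^ 3 / deriv (wp τ₂ (sE τ₂)) w,
    2 / 3 * (MSD.e4 τ₁ / Ω₁ ^ 4), 2 / 3 * (MSD.e4 τ₂ / Ω₂ ^ 4)]

/-- values of the `inr` variables -/
def vBn (τ₁ τ₂ Ω₁ Ω₂ t w : ℂ) : Fin 12 → ℂ :=
  ![Real.pi * Ω₁ * Ω₂ / (2 * I), Real.pi * Ω₁ * Ω₂ / (2 * I) * (MSD.e2 τ₁ / (3 * Ω₁ ^ 2)),
    τ₁ * (Real.pi * Ω₁ * Ω₂ / (2 * I)), τ₁ * (Real.pi * Ω₁ * Ω₂ / (2 * I) * (MSD.e2 τ₁ / (3 * Ω₁ ^ 2))),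
    Real.pi * Ω₂ ^ 2 / (2 * I), Real.pi * Ω₂ ^ 2 / (2 * I) * (MSD.e2 τ₂ / (3 * Ω₂ ^ 2)),
    τ₂ * (Real.pi * Ω₂ ^ 2 / (2 * I)), τ₂ * (Real.pi * Ω₂ ^ 2 / (2 * I) * (MSD.e2 τ₂ / (3 * Ω₂ ^ 2))), Ω₂ / Ω₁,
    -(Ω₂ * ph τ₁ t / (2 * I)), -(Ω₂ * ph τ₂ w / (2 * I)),
    Real.pi * Ω₂ * (w - t) - τ₂ * (-(Ω₂ * ph τ₂ w / (2 * I))) + τ₁ * (-(Ω₂ * ph τ₁ t / (2 * I)))]

/-- evaluation at `(t, w)` -/
def evn (τ₁ τ₂ Ω₁ Ω₂ t w : ℂ) (p : PN) : ℂ :=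
  MvPolynomial.aeval (Sum.elim (vAn τ₁ τ₂ Ω₁ Ω₂ t w) (vBn τ₁ τ₂ Ω₁ Ω₂ t w)) p

/-- the derivative of the local parameter -/
def gn (τ Ω t : ℂ) : ℂ := deriv (wp τ (sE τ)) t / (Real.pi * Ω) ^ 2

/-- general principle: a derivation and the derivative of the variables -/
theorem n4_main (val : ℂ → Fin 6 ⊕ Fin 12 → ℂ) (f : Fin 6 ⊕ Fin 12 → PN) (c t : ℂ)
    (h : ∀ v, HasDerivAt (fun t' => val t' v) (c * MvPolynomial.aeval (val t) (f v)) t) (p : PN) :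
    HasDerivAt (fun t' => MvPolynomial.aeval (val t') p)
      (c * MvPolynomial.aeval (val t) (MvPolynomial.mkDerivation ℤ f p)) t := by
  induction p using MvPolynomial.induction_on with
  | C a =>
    have e1 : (fun t' => MvPolynomial.aeval (val t') (MvPolynomial.C a : PN)) = fun _ => ((a : ℤ) : ℂ) := by
      funext t'
      rw [MvPolynomial.aeval_C]
      simp
    rw [e1, ← MvPolynomial.algebraMap_eq, Derivation.map_algebraMap, map_zero, mul_zero]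
    exact hasDerivAt_const t _
  | add p q hp hq =>
    have e1 : (fun t' => MvPolynomial.aeval (val t') (p + q)) =
        fun t' => MvPolynomial.aeval (val t') p + MvPolynomial.aeval (val t') q := by
      funext t'
      rw [map_add]
    rw [e1, map_add, map_add, mul_add]
    exact hp.add hq
  | mul_X p v hp =>
    have e1 : (fun t' => MvPolynomial.aeval (val t') (p * MvPolynomial.X v)) =
        fun t' => MvPolynomial.aeval (val t') p * val t' v := by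
      funext t'
      rw [map_mul, MvPolynomial.aeval_X]
    rw [e1, Derivation.leibniz, MvPolynomial.mkDerivation_X, map_add, smul_eq_mul, smul_eq_mul, map_mul, map_mul,
      MvPolynomial.aeval_X]
    have h3 := hp.fun_mul (h v)
    have e2 : c * (MvPolynomial.aeval (val t) p * MvPolynomial.aeval (val t) (f v) +
        val t v * MvPolynomial.aeval (val t) (MvPolynomial.mkDerivation ℤ f p)) =
        c * MvPolynomial.aeval (val t) (MvPolynomial.mkDerivation ℤ f p) * val t v +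
        MvPolynomial.aeval (val t) p * (c * MvPolynomial.aeval (val t) (f v)) := by ring
    rw [e2]
    exact h3

theorem n4_wp (τ Ω : ℂ) (hτ : 0 < τ.im) (t : ℂ) (ht : th τ t ≠ 0) :
    HasDerivAt (fun t' => wp τ (sE τ) t' / (Real.pi * Ω) ^ 2) (gn τ Ω t) t :=
  (wp_analyticAt τ (sE τ) hτ t ht).differentiableAt.hasDerivAt.div_const ((Real.pi * Ω) ^ 2)

theorem n4_z (τ Ω : ℂ) (hτ : 0 < τ.im) (hΩ : Ω ≠ 0) (t : ℂ) (ht : th τ t ≠ 0)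
    (ht' : deriv (wp τ (sE τ)) t ≠ 0) :
    HasDerivAt (fun t' => (Real.pi * Ω) ^ 3 / deriv (wp τ (sE τ)) t')
      (gn τ Ω t * -(((Real.pi * Ω) ^ 3 / deriv (wp τ (sE τ)) t) ^ 3 *
        (6 * (wp τ (sE τ) t / (Real.pi * Ω) ^ 2) ^ 2 - 2 / 3 * (MSD.e4 τ / Ω ^ 4)))) t := by
  have hpi : (Real.pi : ℂ) ≠ 0 := by exact_mod_cast Real.pi_ne_zero
  have h := ((wp_ode2 τ hτ t ht).fun_inv ht').const_mul ((Real.pi * Ω) ^ 3)
  have e : gn τ Ω t * -(((Real.pi * Ω) ^ 3 / deriv (wp τ (sE τ)) t) ^ 3 *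
        (6 * (wp τ (sE τ) t / (Real.pi * Ω) ^ 2) ^ 2 - 2 / 3 * (MSD.e4 τ / Ω ^ 4))) =
      (Real.pi * Ω) ^ 3 * (-(6 * wp τ (sE τ) t ^ 2 - 2 / 3 * Real.pi ^ 4 * MSD.e4 τ) /
        deriv (wp τ (sE τ)) t ^ 2) := by
    unfold gn
    field_simp
  rw [e]
  simp only [div_eq_mul_inv] at h ⊢
  exact h

theorem n4_gz (τ Ω : ℂ) (hΩ : Ω ≠ 0) (t : ℂ) (ht' : deriv (wp τ (sE τ)) t ≠ 0) :
    gn τ Ω t * ((Real.pi * Ω) ^ 3 / deriv (wp τ (sE τ)) t) = Real.pi * Ω := by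
  have hpi : (Real.pi : ℂ) ≠ 0 := by exact_mod_cast Real.pi_ne_zero
  unfold gn
  field_simp

/-- N4a. PROOF. As `hasDerivAt_ev_left` (A3_Eval): induction on `p`; the variables: `∂_t x₁ = g`, `g = wp₁'/(πΩ₁)²`; `∂_t z₁ = -(πΩ₁)³ wp₁''/wp₁'²
= g · (-(z₁³ (6x₁² - h₁)))` with `wp₁'' = 6wp₁² - (2/3)π⁴e4 = (πΩ₁)⁴(6x₁² - h₁)`; `∂_t Y₁ = (Ω₂/(2I)) (wp₁ + (π²/3) e2 τ₁) = g z₁ (κ₁x₁ + κ₁s₁)` since
`g z₁ = πΩ₁`; `∂_t Y₃ = -πΩ₂ + τ₁ ∂_t Y₁ = g z₁ (-c + τ₁κ₁x₁ + τ₁κ₁s₁)`. -/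
theorem hasDerivAt_evn_left (τ₁ τ₂ Ω₁ Ω₂ : ℂ) (h1 : 0 < τ₁.im) (hΩ₁ : Ω₁ ≠ 0) (hΩ₂ : Ω₂ ≠ 0) (t w : ℂ)
    (ht : N0 τ₁ t ≠ 0) (ht' : deriv (wp τ₁ (sE τ₁)) t ≠ 0) (p : PN) :
    HasDerivAt (fun t' => evn τ₁ τ₂ Ω₁ Ω₂ t' w p) (gn τ₁ Ω₁ t * evn τ₁ τ₂ Ω₁ Ω₂ t w (D₁ p)) t := by
  have hpi : (Real.pi : ℂ) ≠ 0 := by exact_mod_cast Real.pi_ne_zero
  have hth : th τ₁ t ≠ 0 := ht
  refine n4_main (fun t' => Sum.elim (vAn τ₁ τ₂ Ω₁ Ω₂ t' w) (vBn τ₁ τ₂ Ω₁ Ω₂ t' w)) _ _ t ?_ p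
  have hph := a3_ph τ₁ Ω₂ h1 t hth
  have hg := n4_gz τ₁ Ω₁ hΩ₁ t ht'
  have hkey : Ω₂ * (wp τ₁ (sE τ₁) t + sE τ₁) / (2 * I) =
      gn τ₁ Ω₁ t * ((Real.pi * Ω₁) ^ 3 / deriv (wp τ₁ (sE τ₁)) t *
        (Real.pi * Ω₁ * Ω₂ / (2 * I) * (wp τ₁ (sE τ₁) t / (Real.pi * Ω₁) ^ 2) +
        Real.pi * Ω₁ * Ω₂ / (2 * I) * (MSD.e2 τ₁ / (3 * Ω₁ ^ 2)))) := by
    rw [← mul_assoc, hg]
    unfold sE
    field_simp
  intro v
  rcases v with i | j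
  · fin_cases i
    · simpa [vAn, nX, MvPolynomial.aeval_X] using n4_wp τ₁ Ω₁ h1 t hth
    · simpa [vAn, nX, MvPolynomial.aeval_X] using n4_z τ₁ Ω₁ h1 hΩ₁ t hth ht'
    all_goals simpa [vAn] using hasDerivAt_const t _
  · fin_cases j
    · simpa [vBn] using hasDerivAt_const t _
    · simpa [vBn] using hasDerivAt_const t _
    · simpa [vBn] using hasDerivAt_const t _
    · simpa [vBn] using hasDerivAt_const t _
    · simpa [vBn] using hasDerivAt_const t _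
    · simpa [vBn] using hasDerivAt_const t _
    · simpa [vBn] using hasDerivAt_const t _
    · simpa [vBn] using hasDerivAt_const t _
    · simpa [vBn] using hasDerivAt_const t _
    · rw [hkey] at hph
      simpa [vAn, vBn, nX, nY, MvPolynomial.aeval_X] using hph
    · simpa [vBn] using hasDerivAt_const t _
    · have h3 := (((hasDerivAt_id t).const_sub w).const_mul (Real.pi * Ω₂)).sub_const (τ₂ * (-(Ω₂ * ph τ₂ w / (2 * I))))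
      have h4 := h3.fun_add (hph.const_mul τ₁)
      have e : Real.pi * Ω₂ * -1 + τ₁ * (Ω₂ * (wp τ₁ (sE τ₁) t + sE τ₁) / (2 * I)) =
          gn τ₁ Ω₁ t * ((Real.pi * Ω₁) ^ 3 / deriv (wp τ₁ (sE τ₁)) t *
            (-(Ω₂ / Ω₁) + τ₁ * (Real.pi * Ω₁ * Ω₂ / (2 * I)) * (wp τ₁ (sE τ₁) t / (Real.pi * Ω₁) ^ 2) +
            τ₁ * (Real.pi * Ω₁ * Ω₂ / (2 * I) * (MSD.e2 τ₁ / (3 * Ω₁ ^ 2))))) := by
        rw [← mul_assoc, hg]
        unfold sE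
        field_simp
        ring
      rw [e] at h4
      simpa [vAn, vBn, nX, nY, MvPolynomial.aeval_X] using h4

theorem hasDerivAt_evn_right (τ₁ τ₂ Ω₁ Ω₂ : ℂ) (h2 : 0 < τ₂.im) (hΩ₁ : Ω₁ ≠ 0) (hΩ₂ : Ω₂ ≠ 0) (t w : ℂ)
    (hw : N0 τ₂ w ≠ 0) (hw' : deriv (wp τ₂ (sE τ₂)) w ≠ 0) (p : PN) :
    HasDerivAt (fun w' => evn τ₁ τ₂ Ω₁ Ω₂ t w' p) (gn τ₂ Ω₂ w * evn τ₁ τ₂ Ω₁ Ω₂ t w (D₂ p)) w := by
  have hpi : (Real.pi : ℂ) ≠ 0 := by exact_mod_cast Real.pi_ne_zero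
  have hth : th τ₂ w ≠ 0 := hw
  refine n4_main (fun w' => Sum.elim (vAn τ₁ τ₂ Ω₁ Ω₂ t w') (vBn τ₁ τ₂ Ω₁ Ω₂ t w')) _ _ w ?_ p
  have hph := a3_ph τ₂ Ω₂ h2 w hth
  have hg := n4_gz τ₂ Ω₂ hΩ₂ w hw'
  have hkey : Ω₂ * (wp τ₂ (sE τ₂) w + sE τ₂) / (2 * I) =
      gn τ₂ Ω₂ w * ((Real.pi * Ω₂) ^ 3 / deriv (wp τ₂ (sE τ₂)) w *
        (Real.pi * Ω₂ ^ 2 / (2 * I) * (wp τ₂ (sE τ₂) w / (Real.pi * Ω₂) ^ 2) +
        Real.pi * Ω₂ ^ 2 / (2 * I) * (MSD.e2 τ₂ / (3 * Ω₂ ^ 2)))) := by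
    rw [← mul_assoc, hg]
    unfold sE
    field_simp
  intro v
  rcases v with i | j
  · fin_cases i
    · simpa [vAn] using hasDerivAt_const w _
    · simpa [vAn] using hasDerivAt_const w _
    · simpa [vAn, nX, MvPolynomial.aeval_X] using n4_wp τ₂ Ω₂ h2 w hth
    · simpa [vAn, nX, MvPolynomial.aeval_X] using n4_z τ₂ Ω₂ h2 hΩ₂ w hth hw'
    all_goals simpa [vAn] using hasDerivAt_const w _
  · fin_cases j
    · simpa [vBn] using hasDerivAt_const w _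
    · simpa [vBn] using hasDerivAt_const w _
    · simpa [vBn] using hasDerivAt_const w _
    · simpa [vBn] using hasDerivAt_const w _
    · simpa [vBn] using hasDerivAt_const w _
    · simpa [vBn] using hasDerivAt_const w _
    · simpa [vBn] using hasDerivAt_const w _
    · simpa [vBn] using hasDerivAt_const w _
    · simpa [vBn] using hasDerivAt_const w _
    · simpa [vBn] using hasDerivAt_const w _
    · rw [hkey] at hph
      simpa [vAn, vBn, nX, nY, MvPolynomial.aeval_X] using hph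
    · have h3 := (((hasDerivAt_id w).sub_const t).const_mul (Real.pi * Ω₂)).fun_sub (hph.const_mul τ₂)
      have h4 := h3.add_const (τ₁ * (-(Ω₂ * ph τ₁ t / (2 * I))))
      have e : Real.pi * Ω₂ * 1 - τ₂ * (Ω₂ * (wp τ₂ (sE τ₂) w + sE τ₂) / (2 * I)) =
          gn τ₂ Ω₂ w * ((Real.pi * Ω₂) ^ 3 / deriv (wp τ₂ (sE τ₂)) w *
            (1 - τ₂ * (Real.pi * Ω₂ ^ 2 / (2 * I)) * (wp τ₂ (sE τ₂) w / (Real.pi * Ω₂) ^ 2) -
            τ₂ * (Real.pi * Ω₂ ^ 2 / (2 * I) * (MSD.e2 τ₂ / (3 * Ω₂ ^ 2))))) := by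
        rw [← mul_assoc, hg]
        unfold sE
        field_simp
        ring
      rw [e] at h4
      simpa [vAn, vBn, nX, nY, MvPolynomial.aeval_X] using h4

/-- N4b. the functions `evn p` are analytic near `(t, w)` (needed for finite sums of derivatives). -/
theorem evn_an2 (τ₁ τ₂ Ω₁ Ω₂ : ℂ) (h1 : 0 < τ₁.im) (h2 : 0 < τ₂.im) (t w : ℂ)
    (ht : N0 τ₁ t ≠ 0) (ht' : deriv (wp τ₁ (sE τ₁)) t ≠ 0) (hw : N0 τ₂ w ≠ 0) (hw' : deriv (wp τ₂ (sE τ₂)) w ≠ 0) (p : PN) :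
    An2 (fun t' w' => evn τ₁ τ₂ Ω₁ Ω₂ t' w' p) t w := by
  have a1 : AnalyticAt ℂ (fun q : ℂ × ℂ => q.1) (t, w) := analyticAt_fst
  have a2 : AnalyticAt ℂ (fun q : ℂ × ℂ => q.2) (t, w) := analyticAt_snd
  have w1 : AnalyticAt ℂ (fun q : ℂ × ℂ => wp τ₁ (sE τ₁) q.1) (t, w) :=
    (wp_analyticAt τ₁ (sE τ₁) h1 t ht).comp_of_eq a1 rfl
  have w2 : AnalyticAt ℂ (fun q : ℂ × ℂ => wp τ₂ (sE τ₂) q.2) (t, w) :=
    (wp_analyticAt τ₂ (sE τ₂) h2 w hw).comp_of_eq a2 rfl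
  have d1 : AnalyticAt ℂ (fun q : ℂ × ℂ => deriv (wp τ₁ (sE τ₁)) q.1) (t, w) :=
    (wp_analyticAt τ₁ (sE τ₁) h1 t ht).deriv.comp_of_eq a1 rfl
  have d2 : AnalyticAt ℂ (fun q : ℂ × ℂ => deriv (wp τ₂ (sE τ₂)) q.2) (t, w) :=
    (wp_analyticAt τ₂ (sE τ₂) h2 w hw).deriv.comp_of_eq a2 rfl
  have z1 : AnalyticAt ℂ (fun q : ℂ × ℂ => (deriv (wp τ₁ (sE τ₁)) q.1)⁻¹) (t, w) := d1.inv ht'
  have z2 : AnalyticAt ℂ (fun q : ℂ × ℂ => (deriv (wp τ₂ (sE τ₂)) q.2)⁻¹) (t, w) := d2.inv hw'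
  have p1 : AnalyticAt ℂ (fun q : ℂ × ℂ => ph τ₁ q.1) (t, w) :=
    (ph_analyticAt τ₁ h1 t ht).comp_of_eq a1 rfl
  have p2 : AnalyticAt ℂ (fun q : ℂ × ℂ => ph τ₂ q.2) (t, w) :=
    (ph_analyticAt τ₂ h2 w hw).comp_of_eq a2 rfl
  have q1 : AnalyticAt ℂ (fun q : ℂ × ℂ => -(Ω₂ * ph τ₁ q.1 / (2 * I))) (t, w) := by
    simp only [div_eq_mul_inv]
    exact ((analyticAt_const.mul p1).mul analyticAt_const).neg
  have q2 : AnalyticAt ℂ (fun q : ℂ × ℂ => -(Ω₂ * ph τ₂ q.2 / (2 * I))) (t, w) := by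
    simp only [div_eq_mul_inv]
    exact ((analyticAt_const.mul p2).mul analyticAt_const).neg
  unfold An2 evn
  refine AnalyticAt.aeval_mvPolynomial (fun i => ?_) p
  rcases i with i | j
  · simp only [Sum.elim_inl, vAn]
    fin_cases i
    · simp only [Fin.zero_eta, Matrix.cons_val_zero, div_eq_mul_inv]
      exact w1.mul analyticAt_const
    · simp only [Fin.mk_one, Matrix.cons_val_one, Matrix.cons_val_zero, div_eq_mul_inv]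
      exact analyticAt_const.mul z1
    · simp only [Fin.reduceFinMk, Matrix.cons_val, div_eq_mul_inv]
      exact w2.mul analyticAt_const
    · simp only [Fin.reduceFinMk, Matrix.cons_val, div_eq_mul_inv]
      exact analyticAt_const.mul z2
    all_goals
      simp only [Fin.reduceFinMk, Matrix.cons_val]
      exact analyticAt_const
  · simp only [Sum.elim_inr, vBn]
    fin_cases j
    · simp only [Fin.zero_eta, Matrix.cons_val_zero]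
      exact analyticAt_const
    · simp only [Fin.mk_one, Matrix.cons_val_one, Matrix.cons_val_zero]
      exact analyticAt_const
    · simp only [Fin.reduceFinMk, Matrix.cons_val]
      exact analyticAt_const
    · simp only [Fin.reduceFinMk, Matrix.cons_val]
      exact analyticAt_const
    · simp only [Fin.reduceFinMk, Matrix.cons_val]
      exact analyticAt_const
    · simp only [Fin.reduceFinMk, Matrix.cons_val]
      exact analyticAt_const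
    · simp only [Fin.reduceFinMk, Matrix.cons_val]
      exact analyticAt_const
    · simp only [Fin.reduceFinMk, Matrix.cons_val]
      exact analyticAt_const
    · simp only [Fin.reduceFinMk, Matrix.cons_val]
      exact analyticAt_const
    · simp only [Fin.reduceFinMk, Matrix.cons_val]
      exact q1
    · simp only [Fin.reduceFinMk, Matrix.cons_val]
      exact q2
    · simp only [Fin.reduceFinMk, Matrix.cons_val]
      exact ((analyticAt_const.mul (a2.sub a1)).sub (analyticAt_const.mul q2)).add (analyticAt_const.mul q1)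

end Pool.Agent.MSN
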