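import Pool.Agent.Lib.MP_f58a57_nt.N.N4_Eval

/-! # N5: triangular relation between the two kinds of derivatives (MP_f58a57_nt, algebraic invariants) -/

open Complex Filter Topology

noncomputable section

namespace Pool.Agent.MSN

open Pool.Agent.MSP

variable {ι : Type} [Fintype ι]

/-- a finite linear combination of the functions `evn p` -/
def lin (τ₁ τ₂ Ω₁ Ω₂ : ℂ) (c : ι → ℂ) (p : ι → PN) (t w : ℂ) : ℂ := ∑ ν, c ν * evn τ₁ τ₂ Ω₁ Ω₂ t w (p ν)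

/-- the triangular coefficients: `(d/dx)^s = ∑ (n5_tri g s i) D^i` for `d/dx = g D` -/
def n5_tri (g : ℂ → ℂ) : ℕ → ℕ → ℂ → ℂ
  | 0, 0 => fun _ => 1
  | 0, _ + 1 => fun _ => 0
  | s + 1, 0 => deriv (n5_tri g s 0)
  | s + 1, i + 1 => fun x => deriv (n5_tri g s (i + 1)) x + g x * n5_tri g s i x

theorem n5_tri_zero (g : ℂ → ℂ) (s : ℕ) : ∀ i, s < i → n5_tri g s i = fun _ => 0 := by
  induction s with
  | zero =>
    intro i hi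
    cases i with
    | zero => omega
    | succ i => rfl
  | succ s ih =>
    intro i hi
    cases i with
    | zero => omega
    | succ i =>
      funext x
      simp only [n5_tri]
      rw [ih (i + 1) (by omega), ih i (by omega)]
      simp

theorem n5_tri_self (g : ℂ → ℂ) (s : ℕ) (x : ℂ) : n5_tri g s s x = g x ^ s := by
  induction s with
  | zero => simp [n5_tri]
  | succ s ih =>
    simp only [n5_tri]
    rw [n5_tri_zero g s (s + 1) (by omega), ih]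
    simp [pow_succ, mul_comm]

theorem n5_tri_an (g : ℂ → ℂ) (U : Set ℂ) (hg : AnalyticOnNhd ℂ g U) (s : ℕ) :
    ∀ i, AnalyticOnNhd ℂ (n5_tri g s i) U := by
  induction s with
  | zero =>
    intro i
    cases i with
    | zero => exact fun x _ => analyticAt_const
    | succ i => exact fun x _ => analyticAt_const
  | succ s ih =>
    intro i
    cases i with
    | zero => exact fun x hx => (ih 0 x hx).deriv
    | succ i => exact fun x hx => (ih (i + 1) x hx).deriv.add ((hg x hx).mul (ih i x hx))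

theorem n5_iter (g : ℂ → ℂ) (U : Set ℂ) (hU : IsOpen U) (hg : AnalyticOnNhd ℂ g U) (H : ℕ → ℂ → ℂ)
    (hH : ∀ i, ∀ x ∈ U, HasDerivAt (H i) (g x * H (i + 1) x) x) (s : ℕ) :
    ∀ x ∈ U, iteratedDeriv s (H 0) x = ∑ i ∈ Finset.range (s + 1), n5_tri g s i x * H i x := by
  induction s with
  | zero => intro x _; simp [n5_tri]
  | succ s ih =>
    intro x hx
    rw [iteratedDeriv_succ]
    have he : iteratedDeriv s (H 0) =ᶠ[𝓝 x]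
        fun x => ∑ i ∈ Finset.range (s + 1), n5_tri g s i x * H i x := by
      filter_upwards [hU.mem_nhds hx] with u hu
      exact ih u hu
    have hd : HasDerivAt (fun x => ∑ i ∈ Finset.range (s + 1), n5_tri g s i x * H i x)
        (∑ i ∈ Finset.range (s + 1), (deriv (n5_tri g s i) x * H i x + n5_tri g s i x * (g x * H (i + 1) x))) x := by
      apply HasDerivAt.fun_sum
      intro i _
      exact ((n5_tri_an g U hg s i x hx).differentiableAt.hasDerivAt).mul (hH i x hx)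
    rw [he.deriv_eq, hd.deriv, Finset.sum_add_distrib, Finset.sum_range_succ' (fun i => n5_tri g (s + 1) i x * H i x)]
    have e1 : ∑ i ∈ Finset.range (s + 1), deriv (n5_tri g s i) x * H i x =
        ∑ i ∈ Finset.range (s + 1), deriv (n5_tri g s (i + 1)) x * H (i + 1) x + deriv (n5_tri g s 0) x * H 0 x := by
      have h1 : ∑ i ∈ Finset.range (s + 1 + 1), deriv (n5_tri g s i) x * H i x =
          ∑ i ∈ Finset.range (s + 1), deriv (n5_tri g s i) x * H i x := by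
        rw [Finset.sum_range_succ, n5_tri_zero g s (s + 1) (by omega)]
        simp
      rw [← h1, Finset.sum_range_succ']
    rw [e1]
    have e2 : ∑ i ∈ Finset.range (s + 1), n5_tri g (s + 1) (i + 1) x * H (i + 1) x =
        ∑ i ∈ Finset.range (s + 1), deriv (n5_tri g s (i + 1)) x * H (i + 1) x +
        ∑ i ∈ Finset.range (s + 1), n5_tri g s i x * (g x * H (i + 1) x) := by
      rw [← Finset.sum_add_distrib]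
      refine Finset.sum_congr rfl fun i _ => ?_
      simp only [n5_tri]
      ring
    rw [e2]
    simp only [n5_tri]
    ring

/-- the open set of good points -/
def n5_U (τ : ℂ) : Set ℂ := {t | N0 τ t ≠ 0 ∧ deriv (wp τ (sE τ)) t ≠ 0}

theorem n5_open (τ : ℂ) (hτ : 0 < τ.im) : IsOpen (n5_U τ) := by
  have h1 : IsOpen {t : ℂ | N0 τ t ≠ 0} := a3_open τ hτ
  have h2 : ContinuousOn (deriv (wp τ (sE τ))) {t : ℂ | N0 τ t ≠ 0} := fun t ht =>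
    (wp_analyticAt τ (sE τ) hτ t ht).deriv.continuousAt.continuousWithinAt
  exact h2.isOpen_inter_preimage h1 isOpen_compl_singleton

theorem n5_gn_an (τ Ω : ℂ) (hτ : 0 < τ.im) : AnalyticOnNhd ℂ (gn τ Ω) (n5_U τ) := by
  intro t ht
  have h := (wp_analyticAt τ (sE τ) hτ t ht.1).deriv.mul (analyticAt_const (v := ((Real.pi * Ω : ℂ) ^ 2)⁻¹))
  refine h.congr ?_
  filter_upwards with x
  simp [gn, div_eq_mul_inv]

theorem n5_lin_left (τ₁ τ₂ Ω₁ Ω₂ : ℂ) (h1 : 0 < τ₁.im) (hΩ₁ : Ω₁ ≠ 0) (hΩ₂ : Ω₂ ≠ 0) (w : ℂ)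
    (c : ι → ℂ) (p : ι → PN) (t : ℂ) (ht : t ∈ n5_U τ₁) :
    HasDerivAt (fun t' => lin τ₁ τ₂ Ω₁ Ω₂ c p t' w)
      (gn τ₁ Ω₁ t * lin τ₁ τ₂ Ω₁ Ω₂ c (fun ν => D₁ (p ν)) t w) t := by
  unfold lin
  rw [Finset.mul_sum]
  apply HasDerivAt.fun_sum
  intro ν _
  have h := (hasDerivAt_evn_left τ₁ τ₂ Ω₁ Ω₂ h1 hΩ₁ hΩ₂ t w ht.1 ht.2 (p ν)).const_mul (c ν)
  refine h.congr_deriv ?_
  ring

theorem n5_lin_right (τ₁ τ₂ Ω₁ Ω₂ : ℂ) (h2 : 0 < τ₂.im) (hΩ₁ : Ω₁ ≠ 0) (hΩ₂ : Ω₂ ≠ 0) (t : ℂ)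
    (c : ι → ℂ) (p : ι → PN) (w : ℂ) (hw : w ∈ n5_U τ₂) :
    HasDerivAt (fun w' => lin τ₁ τ₂ Ω₁ Ω₂ c p t w')
      (gn τ₂ Ω₂ w * lin τ₁ τ₂ Ω₁ Ω₂ c (fun ν => D₂ (p ν)) t w) w := by
  unfold lin
  rw [Finset.mul_sum]
  apply HasDerivAt.fun_sum
  intro ν _
  have h := (hasDerivAt_evn_right τ₁ τ₂ Ω₁ Ω₂ h2 hΩ₁ hΩ₂ t w hw.1 hw.2 (p ν)).const_mul (c ν)
  refine h.congr_deriv ?_
  ring

/-- the triangular formula -/
theorem n5_dd (τ₁ τ₂ Ω₁ Ω₂ : ℂ) (h1 : 0 < τ₁.im) (h2 : 0 < τ₂.im) (hΩ₁ : Ω₁ ≠ 0) (hΩ₂ : Ω₂ ≠ 0) (t w : ℂ)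
    (ht : N0 τ₁ t ≠ 0) (ht' : deriv (wp τ₁ (sE τ₁)) t ≠ 0) (hw : N0 τ₂ w ≠ 0) (hw' : deriv (wp τ₂ (sE τ₂)) w ≠ 0)
    (c : ι → ℂ) (p : ι → PN) (r s : ℕ) :
    dd r s (lin τ₁ τ₂ Ω₁ Ω₂ c p) t w =
      ∑ i ∈ Finset.range (r + 1), ∑ j ∈ Finset.range (s + 1), n5_tri (gn τ₁ Ω₁) r i t * n5_tri (gn τ₂ Ω₂) s j w *
        lin τ₁ τ₂ Ω₁ Ω₂ c (fun ν => D₁^[i] (D₂^[j] (p ν))) t w := by
  have hwU : w ∈ n5_U τ₂ := ⟨hw, hw'⟩
  have htU : t ∈ n5_U τ₁ := ⟨ht, ht'⟩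
  have hin : ∀ t' : ℂ, iteratedDeriv s (lin τ₁ τ₂ Ω₁ Ω₂ c p t') w =
      ∑ j ∈ Finset.range (s + 1), n5_tri (gn τ₂ Ω₂) s j w * lin τ₁ τ₂ Ω₁ Ω₂ c (fun ν => D₂^[j] (p ν)) t' w := by
    intro t'
    refine n5_iter (gn τ₂ Ω₂) (n5_U τ₂) (n5_open τ₂ h2) (n5_gn_an τ₂ Ω₂ h2)
      (fun j w' => lin τ₁ τ₂ Ω₁ Ω₂ c (fun ν => D₂^[j] (p ν)) t' w') ?_ s w hwU
    intro j w' hw'
    have h := n5_lin_right τ₁ τ₂ Ω₁ Ω₂ h2 hΩ₁ hΩ₂ t' c (fun ν => D₂^[j] (p ν)) w' hw'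
    simp only [Function.iterate_succ_apply']
    exact h
  unfold dd
  have e1 : (fun t' => iteratedDeriv s (lin τ₁ τ₂ Ω₁ Ω₂ c p t') w) = fun t' =>
      ∑ j ∈ Finset.range (s + 1), n5_tri (gn τ₂ Ω₂) s j w * lin τ₁ τ₂ Ω₁ Ω₂ c (fun ν => D₂^[j] (p ν)) t' w := by
    funext t'
    exact hin t'
  rw [e1]
  have hout := n5_iter (gn τ₁ Ω₁) (n5_U τ₁) (n5_open τ₁ h1) (n5_gn_an τ₁ Ω₁ h1)
    (fun i t' => ∑ j ∈ Finset.range (s + 1), n5_tri (gn τ₂ Ω₂) s j w *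
      lin τ₁ τ₂ Ω₁ Ω₂ c (fun ν => D₁^[i] (D₂^[j] (p ν))) t' w) ?_ r t htU
  · simp only [Function.iterate_zero, id_eq] at hout
    rw [hout]
    refine Finset.sum_congr rfl fun i _ => ?_
    rw [Finset.mul_sum]
    refine Finset.sum_congr rfl fun j _ => ?_
    ring
  · intro i t' ht'
    have h : HasDerivAt (fun t' => ∑ j ∈ Finset.range (s + 1), n5_tri (gn τ₂ Ω₂) s j w *
      lin τ₁ τ₂ Ω₁ Ω₂ c (fun ν => D₁^[i] (D₂^[j] (p ν))) t' w)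
      (∑ j ∈ Finset.range (s + 1), n5_tri (gn τ₂ Ω₂) s j w *
        (gn τ₁ Ω₁ t' * lin τ₁ τ₂ Ω₁ Ω₂ c (fun ν => D₁ (D₁^[i] (D₂^[j] (p ν)))) t' w)) t' := by
      apply HasDerivAt.fun_sum
      intro j _
      exact (n5_lin_left τ₁ τ₂ Ω₁ Ω₂ h1 hΩ₁ hΩ₂ w c (fun ν => D₁^[i] (D₂^[j] (p ν))) t' ht').const_mul _
    refine h.congr_deriv ?_
    rw [Finset.mul_sum]
    refine Finset.sum_congr rfl fun j _ => ?_
    simp only [Function.iterate_succ_apply']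
    ring

/-- N5a. PROOF. With `g_i = gn τ_i Ω_i` (analytic, nonzero near the point) N4a gives by induction (first on `s`, then on `r`) for `(t, w)` near the given point
`dd r s (lin c p) t w = ∑_{i ≤ r, j ≤ s} A_{r,i}(t) B_{s,j}(w) lin c (D₁^i D₂^j p) t w`, with analytic functions `A, B`, `A_{r,r} = g₁^r`, `B_{s,s} = g₂^s`. All terms have
`i + j < k`. -/
theorem dd_lin_zero (τ₁ τ₂ Ω₁ Ω₂ : ℂ) (h1 : 0 < τ₁.im) (h2 : 0 < τ₂.im) (hΩ₁ : Ω₁ ≠ 0) (hΩ₂ : Ω₂ ≠ 0) (t w : ℂ)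
    (ht : N0 τ₁ t ≠ 0) (ht' : deriv (wp τ₁ (sE τ₁)) t ≠ 0) (hw : N0 τ₂ w ≠ 0) (hw' : deriv (wp τ₂ (sE τ₂)) w ≠ 0)
    (c : ι → ℂ) (p : ι → PN) (k : ℕ)
    (hk : ∀ i j, i + j < k → lin τ₁ τ₂ Ω₁ Ω₂ c (fun ν => D₁^[i] (D₂^[j] (p ν))) t w = 0) (r s : ℕ) (hrs : r + s < k) :
    dd r s (lin τ₁ τ₂ Ω₁ Ω₂ c p) t w = 0 := by
  rw [n5_dd τ₁ τ₂ Ω₁ Ω₂ h1 h2 hΩ₁ hΩ₂ t w ht ht' hw hw' c p r s]
  refine Finset.sum_eq_zero fun i hi => Finset.sum_eq_zero fun j hj => ?_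
  have hi' := Finset.mem_range.1 hi
  have hj' := Finset.mem_range.1 hj
  rw [hk i j (by omega), mul_zero]

/-- only the leading term of the triangular formula survives -/
theorem n5_lead (τ₁ τ₂ Ω₁ Ω₂ : ℂ) (h1 : 0 < τ₁.im) (h2 : 0 < τ₂.im) (hΩ₁ : Ω₁ ≠ 0) (hΩ₂ : Ω₂ ≠ 0) (t w : ℂ)
    (ht : N0 τ₁ t ≠ 0) (ht' : deriv (wp τ₁ (sE τ₁)) t ≠ 0) (hw : N0 τ₂ w ≠ 0) (hw' : deriv (wp τ₂ (sE τ₂)) w ≠ 0)
    (c : ι → ℂ) (p : ι → PN) (k : ℕ)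
    (hk : ∀ i j, i + j < k → lin τ₁ τ₂ Ω₁ Ω₂ c (fun ν => D₁^[i] (D₂^[j] (p ν))) t w = 0) (r s : ℕ) (hrs : r + s = k) :
    dd r s (lin τ₁ τ₂ Ω₁ Ω₂ c p) t w =
      gn τ₁ Ω₁ t ^ r * gn τ₂ Ω₂ w ^ s * lin τ₁ τ₂ Ω₁ Ω₂ c (fun ν => D₁^[r] (D₂^[s] (p ν))) t w := by
  rw [n5_dd τ₁ τ₂ Ω₁ Ω₂ h1 h2 hΩ₁ hΩ₂ t w ht ht' hw hw' c p r s, Finset.sum_eq_single r, Finset.sum_eq_single s]
  · rw [n5_tri_self, n5_tri_self]
  · intro j hj hjs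
    have hj' := Finset.mem_range.1 hj
    rw [hk r j (by omega), mul_zero]
  · intro h
    exact absurd (Finset.mem_range.2 (Nat.lt_succ_self s)) h
  · intro i hi hir
    refine Finset.sum_eq_zero fun j hj => ?_
    have hi' := Finset.mem_range.1 hi
    have hj' := Finset.mem_range.1 hj
    rw [hk i j (by omega), mul_zero]
  · intro h
    exact absurd (Finset.mem_range.2 (Nat.lt_succ_self r)) h

/-- N5b. PROOF. By induction on `m ≤ k` all `lin c (D₁^i D₂^j p)` with `i + j < m` vanish (formula of N5a: for `i + j = m` only the leading term survives, and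
`g₁, g₂ ≠ 0`); then the formula for `r + s = k`. -/
theorem dd_lin_lead (τ₁ τ₂ Ω₁ Ω₂ : ℂ) (h1 : 0 < τ₁.im) (h2 : 0 < τ₂.im) (hΩ₁ : Ω₁ ≠ 0) (hΩ₂ : Ω₂ ≠ 0) (t w : ℂ)
    (ht : N0 τ₁ t ≠ 0) (ht' : deriv (wp τ₁ (sE τ₁)) t ≠ 0) (hw : N0 τ₂ w ≠ 0) (hw' : deriv (wp τ₂ (sE τ₂)) w ≠ 0)
    (c : ι → ℂ) (p : ι → PN) (k : ℕ) (hk : ∀ i j, i + j < k → dd i j (lin τ₁ τ₂ Ω₁ Ω₂ c p) t w = 0) (r s : ℕ)
    (hrs : r + s = k) :
    dd r s (lin τ₁ τ₂ Ω₁ Ω₂ c p) t w =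
      gn τ₁ Ω₁ t ^ r * gn τ₂ Ω₂ w ^ s * lin τ₁ τ₂ Ω₁ Ω₂ c (fun ν => D₁^[r] (D₂^[s] (p ν))) t w := by
  have hpi : (Real.pi : ℂ) ≠ 0 := by exact_mod_cast Real.pi_ne_zero
  have hg1 : gn τ₁ Ω₁ t ≠ 0 := div_ne_zero ht' (pow_ne_zero 2 (mul_ne_zero hpi hΩ₁))
  have hg2 : gn τ₂ Ω₂ w ≠ 0 := div_ne_zero hw' (pow_ne_zero 2 (mul_ne_zero hpi hΩ₂))
  have hall : ∀ m, ∀ i j, i + j = m → m < k → lin τ₁ τ₂ Ω₁ Ω₂ c (fun ν => D₁^[i] (D₂^[j] (p ν))) t w = 0 := by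
    intro m
    induction m using Nat.strong_induction_on with
    | _ m ih =>
      intro i j hij hm
      have h := n5_lead τ₁ τ₂ Ω₁ Ω₂ h1 h2 hΩ₁ hΩ₂ t w ht ht' hw hw' c p m
        (fun i' j' h' => ih (i' + j') h' i' j' rfl (by omega)) i j hij
      rw [hk i j (by omega)] at h
      have h3 : gn τ₁ Ω₁ t ^ i * gn τ₂ Ω₂ w ^ j ≠ 0 := mul_ne_zero (pow_ne_zero _ hg1) (pow_ne_zero _ hg2)
      exact (mul_eq_zero.1 h.symm).resolve_left h3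
  exact n5_lead τ₁ τ₂ Ω₁ Ω₂ h1 h2 hΩ₁ hΩ₂ t w ht ht' hw hw' c p k
    (fun i j h => hall (i + j) i j rfl h) r s hrs

/-- N5c. PROOF. `evn (Qn P ν)` is the same product of values as `ev (Qp P ν)`; `FF_eq` (A3c). -/
theorem FF_eq_lin (c₁ c₂ : Cv) (hs₁ : c₁.s = sE c₁.τ) (hs₂ : c₂.s = sE c₂.τ) (ϑ Ω₁ Ω₂ : ℂ) (hΩ₁ : Ω₁ ≠ 0) (hΩ₂ : Ω₂ ≠ 0) (P : Pr)
    (p : P.box → Polynomial ℤ) :
    FF c₁ c₂ P (cf ϑ Ω₁ Ω₂ P p) =
      lin c₁.τ c₂.τ Ω₁ Ω₂ (fun ν : P.box => Polynomial.aeval ϑ (p ν)) (fun ν : P.box => Qn P ν) := by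
  funext t w
  rw [FF_eq c₁ c₂ hs₁ hs₂ ϑ Ω₁ Ω₂ hΩ₁ hΩ₂ P p t w, lin]
  refine Finset.sum_congr rfl fun ν _ => ?_
  congr 1
  simp only [ev, Qp, vX, vY, evn, Qn, nX, nY, map_mul, map_pow, map_sub, map_add, MvPolynomial.aeval_X, Sum.elim_inl,
    Sum.elim_inr, vA, vB, vAn, vBn, Matrix.cons_val, eq_intCast, map_intCast]

end Pool.Agent.MSN
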