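import Pool.Agent.Lib.MP_f58a57_nt.N.N4_Eval
import Pool.Agent.Lib.MP_f58a57_nt.P.E2_Alg

/-! # N6: the values at dyadic points (MP_f58a57_nt, algebraic invariants) -/

open Complex Filter Topology IntermediateField

noncomputable section

namespace Pool.Agent.MSN

open Pool.Agent.MSP

/-- all the hypotheses on the two curves: the invariants are algebraic, the other constants are algebraic over `ℚ(ϑ)` -/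
structure HypN (c₁ c₂ : Cv) (Ω₁ Ω₂ ϑ : ℂ) : Prop where
  s₁ : c₁.s = sE c₁.τ
  s₂ : c₂.s = sE c₂.τ
  ne₁ : Ω₁ ≠ 0
  ne₂ : Ω₂ ≠ 0
  a4₁ : IsAlgebraic ℚ (MSD.e4 c₁.τ / Ω₁ ^ 4)
  a6₁ : IsAlgebraic ℚ (MSD.e6 c₁.τ / Ω₁ ^ 6)
  a4₂ : IsAlgebraic ℚ (MSD.e4 c₂.τ / Ω₂ ^ 4)
  a6₂ : IsAlgebraic ℚ (MSD.e6 c₂.τ / Ω₂ ^ 6)
  tr : Transcendental ℚ ϑ
  t₁ : IsAlgebraic ℚ⟮ϑ⟯ c₁.τ
  t₂ : IsAlgebraic ℚ⟮ϑ⟯ c₂.τ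
  b₁ : IsAlgebraic ℚ⟮ϑ⟯ (Real.pi * Ω₁ ^ 2)
  b₂ : IsAlgebraic ℚ⟮ϑ⟯ (Real.pi * Ω₂ ^ 2)
  q₁ : IsAlgebraic ℚ⟮ϑ⟯ (MSD.e2 c₁.τ / Ω₁ ^ 2)
  q₂ : IsAlgebraic ℚ⟮ϑ⟯ (MSD.e2 c₂.τ / Ω₂ ^ 2)

theorem n6_rat (q : ℚ) : IsAlgebraic ℚ (q : ℂ) := by
  have := isAlgebraic_algebraMap (R := ℚ) (A := ℂ) q
  simpa using this

theorem n6_I : IsAlgebraic ℚ (I : ℂ) := by
  apply IsAlgebraic.of_pow (n := 2) (by norm_num)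
  rw [Complex.I_sq]
  have := n6_rat (-1)
  simpa using this

/-- N6a. PROOF. `dyadic_alg` (E2). -/
theorem vAn_alg (c₁ c₂ : Cv) (Ω₁ Ω₂ ϑ : ℂ) (h : HypN c₁ c₂ Ω₁ Ω₂ ϑ) (k : ℕ) (a : ℤ) (ha : ¬ ((2 : ℤ) ^ k ∣ a)) (i : Fin 6) :
    IsAlgebraic ℚ (vAn c₁.τ c₂.τ Ω₁ Ω₂ ((a : ℂ) / 2 ^ k) ((a : ℂ) / 2 ^ k) i) := by
  have A1 := dyadic_alg c₁.τ Ω₁ c₁.im h.ne₁ h.a4₁ h.a6₁ k a ha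
  have A2 := dyadic_alg c₂.τ Ω₂ c₂.im h.ne₂ h.a4₂ h.a6₂ k a ha
  have q : IsAlgebraic ℚ ((2 / 3 : ℂ)) := by
    have := n6_rat (2 / 3)
    push_cast at this
    exact this
  have B1 : IsAlgebraic ℚ ((Real.pi * Ω₁) ^ 3 / deriv (wp c₁.τ (sE c₁.τ)) ((a : ℂ) / 2 ^ k)) := by
    rw [← inv_div]
    exact A1.2.1.inv
  have B2 : IsAlgebraic ℚ ((Real.pi * Ω₂) ^ 3 / deriv (wp c₂.τ (sE c₂.τ)) ((a : ℂ) / 2 ^ k)) := by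
    rw [← inv_div]
    exact A2.2.1.inv
  unfold vAn
  fin_cases i
  · exact A1.1
  · exact B1
  · exact A2.1
  · exact B2
  · exact q.mul h.a4₁
  · exact q.mul h.a4₂

/-- N6b. PROOF. Let `θ_i = πΩ_i²`. `κ₂ = θ₂/(2I)`; `κ₁² = -θ₁θ₂/4`; `c² = θ₂/θ₁`; `s_i = (1/3) e2/Ω_i²`. `Y₁ = -κ₁ (ph τ₁ t/(πΩ₁))`, `Y₂ = -κ₂ (ph τ₂ t/(πΩ₂))`, and
`ph/(πΩ)` is algebraic over `ℚ` (`dyadic_alg`); `Y₃ = -τ₂Y₂ + τ₁Y₁` (`w - t = 0`). Cf. `vB_alg` (F1b_Vals). -/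
theorem vBn_alg (c₁ c₂ : Cv) (Ω₁ Ω₂ ϑ : ℂ) (h : HypN c₁ c₂ Ω₁ Ω₂ ϑ) (k : ℕ) (a : ℤ) (ha : ¬ ((2 : ℤ) ^ k ∣ a)) (j : Fin 12) :
    IsAlgebraic ℚ⟮ϑ⟯ (vBn c₁.τ c₂.τ Ω₁ Ω₂ ((a : ℂ) / 2 ^ k) ((a : ℂ) / 2 ^ k) j) := by
  have up : ∀ {x : ℂ}, IsAlgebraic ℚ x → IsAlgebraic ℚ⟮ϑ⟯ x := fun h => h.tower_top _
  have A1 := dyadic_alg c₁.τ Ω₁ c₁.im h.ne₁ h.a4₁ h.a6₁ k a ha
  have A2 := dyadic_alg c₂.τ Ω₂ c₂.im h.ne₂ h.a4₂ h.a6₂ k a ha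
  have hI : IsAlgebraic ℚ⟮ϑ⟯ (I : ℂ) := up n6_I
  have h2 : IsAlgebraic ℚ⟮ϑ⟯ ((2 : ℂ)) := by
    have := up (n6_rat 2)
    push_cast at this
    exact this
  have h3 : IsAlgebraic ℚ⟮ϑ⟯ ((3 : ℂ)) := by
    have := up (n6_rat 3)
    push_cast at this
    exact this
  have hpi : (Real.pi : ℂ) ≠ 0 := by exact_mod_cast Real.pi_ne_zero
  have n1 := h.ne₁
  have n2 := h.ne₂
  have hθ₁ := h.b₁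
  have hθ₂ := h.b₂
  have hI0 : (I : ℂ) ≠ 0 := I_ne_zero
  have k2 : IsAlgebraic ℚ⟮ϑ⟯ (Real.pi * Ω₂ ^ 2 / (2 * I)) := hθ₂.mul ((h2.mul hI).inv)
  have k1 : IsAlgebraic ℚ⟮ϑ⟯ (Real.pi * Ω₁ * Ω₂ / (2 * I)) := by
    apply IsAlgebraic.of_pow (n := 2) (by norm_num)
    have e : (Real.pi * Ω₁ * Ω₂ / (2 * I)) ^ 2 = (Real.pi * Ω₁ ^ 2) * (Real.pi * Ω₂ ^ 2) * ((2 * I) * (2 * I))⁻¹ := by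
      field_simp
    rw [e]
    exact (hθ₁.mul hθ₂).mul ((h2.mul hI).mul (h2.mul hI)).inv
  have hc : IsAlgebraic ℚ⟮ϑ⟯ (Ω₂ / Ω₁) := by
    apply IsAlgebraic.of_pow (n := 2) (by norm_num)
    have e : (Ω₂ / Ω₁) ^ 2 = (Real.pi * Ω₂ ^ 2) * (Real.pi * Ω₁ ^ 2)⁻¹ := by
      field_simp
    rw [e]
    exact hθ₂.mul hθ₁.inv
  have s1 : IsAlgebraic ℚ⟮ϑ⟯ (MSD.e2 c₁.τ / (3 * Ω₁ ^ 2)) := by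
    have e : MSD.e2 c₁.τ / (3 * Ω₁ ^ 2) = (MSD.e2 c₁.τ / Ω₁ ^ 2) * (3 : ℂ)⁻¹ := by
      field_simp
    rw [e]
    exact h.q₁.mul h3.inv
  have s2 : IsAlgebraic ℚ⟮ϑ⟯ (MSD.e2 c₂.τ / (3 * Ω₂ ^ 2)) := by
    have e : MSD.e2 c₂.τ / (3 * Ω₂ ^ 2) = (MSD.e2 c₂.τ / Ω₂ ^ 2) * (3 : ℂ)⁻¹ := by
      field_simp
    rw [e]
    exact h.q₂.mul h3.inv
  have Y1 : IsAlgebraic ℚ⟮ϑ⟯ (-(Ω₂ * ph c₁.τ ((a : ℂ) / 2 ^ k) / (2 * I))) := by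
    have e : -(Ω₂ * ph c₁.τ ((a : ℂ) / 2 ^ k) / (2 * I)) =
        -((Real.pi * Ω₁ * Ω₂ / (2 * I)) * (ph c₁.τ ((a : ℂ) / 2 ^ k) / (Real.pi * Ω₁))) := by
      field_simp
    rw [e]
    exact (k1.mul (up A1.2.2)).neg
  have Y2 : IsAlgebraic ℚ⟮ϑ⟯ (-(Ω₂ * ph c₂.τ ((a : ℂ) / 2 ^ k) / (2 * I))) := by
    have e : -(Ω₂ * ph c₂.τ ((a : ℂ) / 2 ^ k) / (2 * I)) =
        -((Real.pi * Ω₂ ^ 2 / (2 * I)) * (ph c₂.τ ((a : ℂ) / 2 ^ k) / (Real.pi * Ω₂))) := by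
      field_simp
    rw [e]
    exact (k2.mul (up A2.2.2)).neg
  have Y3 : IsAlgebraic ℚ⟮ϑ⟯ (Real.pi * Ω₂ * (((a : ℂ) / 2 ^ k) - ((a : ℂ) / 2 ^ k)) -
      c₂.τ * (-(Ω₂ * ph c₂.τ ((a : ℂ) / 2 ^ k) / (2 * I))) +
      c₁.τ * (-(Ω₂ * ph c₁.τ ((a : ℂ) / 2 ^ k) / (2 * I)))) := by
    rw [sub_self, mul_zero]
    exact (isAlgebraic_zero.sub (h.t₂.mul Y2)).add (h.t₁.mul Y1)
  unfold vBn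
  fin_cases j
  · exact k1
  · exact k1.mul s1
  · exact h.t₁.mul k1
  · exact h.t₁.mul (k1.mul s1)
  · exact k2
  · exact k2.mul s2
  · exact h.t₂.mul k2
  · exact h.t₂.mul (k2.mul s2)
  · exact hc
  · exact Y1
  · exact Y2
  · exact Y3

end Pool.Agent.MSN
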