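import Pool.Agent.Lib.MP_f58a57_nt.N.N3_Int
import Pool.Agent.Lib.MP_f58a57_nt.N.N5_Tri
import Pool.Agent.Lib.MP_f58a57_nt.N.N6_Vals
import Pool.Agent.Lib.MP_f58a57_nt.P.A5_Siegel
import Pool.Agent.Lib.MP_f58a57_nt.P.G5_FF
import Pool.Agent.Lib.MP_f58a57_nt.P.E1b_Dup

/-! # N7: Siegel step (MP_f58a57_nt, algebraic invariants) -/

open Complex Filter Topology IntermediateField Polynomial

noncomputable section

namespace Pool.Agent.MSN

open Pool.Agent.MSP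

theorem n7_quarter_ne (τ : ℂ) (hτ : 0 < τ.im) : N0 τ (1 / 4) ≠ 0 := by
  have h := th_real_ne τ hτ (1 / 4 : ℝ) (by
    intro m hm
    have h2 : (4 * m : ℝ) = 1 := by rw [← hm]; norm_num
    have h3 : 4 * m = 1 := by exact_mod_cast h2
    omega)
  have h4 : (((1 / 4 : ℝ) : ℝ) : ℂ) = 1 / 4 := by push_cast; rfl
  rw [h4] at h
  exact h

theorem n7_wp'_ne (τ : ℂ) (hτ : 0 < τ.im) : deriv (wp τ (sE τ)) (1 / 4) ≠ 0 := by
  refine wp'_ne τ hτ (1 / 4) ?_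
  have h := th_real_ne τ hτ (1 / 2 : ℝ) (by
    intro m hm
    have h2 : (2 * m : ℝ) = 1 := by rw [← hm]; norm_num
    have h3 : 2 * m = 1 := by exact_mod_cast h2
    omega)
  have h4 : (((1 / 2 : ℝ) : ℝ) : ℂ) = 2 * (1 / 4) := by push_cast; ring
  rw [h4] at h
  exact h

theorem n7_card (P : Pr) : (Fintype.card P.box : ℝ) =
    ((P.L : ℝ) + 1) ^ 2 * (((P.d₁ : ℝ) + 1) * (P.d₂ + 1) * (P.d₃ + 1)) := by
  rw [Fintype.card_coe]
  unfold Pr.box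
  simp only [Finset.card_product, Finset.card_range]
  push_cast
  ring

theorem n7_pow_le {x : ℝ} (hx : 1 ≤ x) (n : ℕ) (y : ℝ) (hn : (n : ℝ) ≤ y) :
    x ^ n ≤ Real.exp (x * y) := by
  have h0 : x ≤ Real.exp x := by
    have := Real.add_one_le_exp x
    linarith
  calc x ^ n ≤ (Real.exp x) ^ n := pow_le_pow_left₀ (by linarith) h0 n
    _ = Real.exp (n * x) := by rw [← Real.exp_nat_mul]
    _ ≤ Real.exp (x * y) := by
        apply Real.exp_le_exp.mpr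
        have : (n : ℝ) * x ≤ y * x := mul_le_mul_of_nonneg_right hn (by linarith)
        linarith

/-- N7. PROOF. As `siegel_step` (F2_Steps), at the point `(1/4, 1/4)`: `siegel` with `x = vAn (1/4)`, `y = vBn (1/4)` (N6 with `k = 2, a = 1`), `ι = P.box`, `κ = Fin T × Fin T`,
`Ξ (r,s) ν` from `taylor_int` (with `2T` for `T`): `Bd D l H`, `D ≤ C(L + 2T + l)`, `H = A^l C^{L+2T+l} den(2T, l) ≤ exp(C' T (1 + log(l+1)))` (`A^l ≤ exp L`, `L ≤ T`, `l ≤ L`, `den_le`);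
enlarge `H` to be `≥ 1`. `card κ = T²`, `card ι = (L+1)²(d₁+1)(d₂+1)(d₃+1)`, `log (card ι) ≤ 5 L ≤ 5 T`. The equations `∑ p_ν(ϑ) Ξ_{(r,s),ν} = 0` mean
`lin (p(ϑ)) (D₁^r D₂^s Qn) (1/4) (1/4) = 0` for `r, s < T`; `FF_eq_lin`, `dd_lin_zero` (`N0 τ (1/4) ≠ 0`: `th_real_ne`; `wp' (1/4) ≠ 0`: `wp'_ne` as `th τ (1/2) ≠ 0`) and
`GG_zero_of_FF`. -/
theorem siegel_stepN (c₁ c₂ : Cv) (Ω₁ Ω₂ ϑ : ℂ) (h : HypN c₁ c₂ Ω₁ Ω₂ ϑ) : ∃ C : ℝ, 1 ≤ C ∧ ∀ (P : Pr), P.Good → ∀ T : ℕ, P.L ≤ T →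
    C * (T : ℝ) ^ 2 ≤ ((P.L : ℝ) + 1) ^ 2 * (((P.d₁ : ℝ) + 1) * (P.d₂ + 1) * (P.d₃ + 1)) →
    ∃ p : P.box → Polynomial ℤ, p ≠ 0 ∧ (∀ ν, ((p ν).natDegree : ℝ) ≤ C * P.l) ∧
      (∀ ν, len (p ν) ≤ Real.exp (C * T * (1 + Real.log (P.l + 1)))) ∧
      ∀ r s, r + s < T → dd r s (GG c₁ c₂ P (cf ϑ Ω₁ Ω₂ P p)) (1 / 4) (1 / 4) = 0 := by
  have hq : (((1 : ℤ) : ℂ) / 2 ^ 2) = 1 / 4 := by norm_num
  have hA : ∀ i, IsAlgebraic ℚ (vAn c₁.τ c₂.τ Ω₁ Ω₂ (1 / 4) (1 / 4) i) := by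
    intro i
    have := vAn_alg c₁ c₂ Ω₁ Ω₂ ϑ h 2 1 (by norm_num) i
    rwa [hq] at this
  have hB : ∀ j, IsAlgebraic ℚ⟮ϑ⟯ (vBn c₁.τ c₂.τ Ω₁ Ω₂ (1 / 4) (1 / 4) j) := by
    intro j
    have := vBn_alg c₁ c₂ Ω₁ Ω₂ ϑ h 2 1 (by norm_num) j
    rwa [hq] at this
  obtain ⟨C₀, hC₀, hS⟩ := siegel ϑ h.tr (vAn c₁.τ c₂.τ Ω₁ Ω₂ (1 / 4) (1 / 4))
    (vBn c₁.τ c₂.τ Ω₁ Ω₂ (1 / 4) (1 / 4)) hA hB
  obtain ⟨C₁, hT⟩ := taylor_int
  obtain ⟨C₂, hC₂, hden⟩ := den_le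
  set K : ℕ := C₁ + 1 with hK
  have hK1 : (1 : ℝ) ≤ (K : ℝ) := by
    rw [hK]; push_cast
    have : (0 : ℝ) ≤ C₁ := Nat.cast_nonneg _
    linarith
  have hCK : 0 ≤ C₀ * (6 * K) := mul_nonneg (by linarith) (by linarith)
  refine ⟨11 + C₀ * (6 * K) + K * 4 + 2 * C₂ + C₀, by linarith, ?_⟩
  intro P hP T hLT hbig
  have hL1 : (1 : ℝ) ≤ P.L := by exact_mod_cast hP.hL
  have hLT' : (P.L : ℝ) ≤ T := by exact_mod_cast hLT
  have hlL : (P.l : ℝ) ≤ P.L := by exact_mod_cast hP.hl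
  have hl0 : (0 : ℝ) ≤ P.l := by positivity
  have hT1 : (1 : ℝ) ≤ T := by linarith
  have hA2 : (1 : ℝ) ≤ P.A := by
    unfold Pr.A
    have := abs_nonneg (P.a₁ : ℝ)
    have := abs_nonneg (P.a₂ : ℝ)
    have := abs_nonneg (P.b₁ : ℝ)
    have := abs_nonneg (P.b₂ : ℝ)
    linarith
  have hAl : 1 ≤ P.A ^ P.l := one_le_pow₀ hA2
  have hlog : 0 ≤ Real.log (P.l + 1) := Real.log_nonneg (by linarith)
  have hden1 : (1 : ℝ) ≤ (den (2 * T) P.l : ℝ) := by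
    exact_mod_cast den_pos (2 * T) P.l
  set H : ℝ := P.A ^ P.l * (K : ℝ) ^ (P.L + 2 * T + P.l) * den (2 * T) P.l with hH
  have hKp : (1 : ℝ) ≤ (K : ℝ) ^ (P.L + 2 * T + P.l) := one_le_pow₀ hK1
  have hH1 : 1 ≤ H := by
    rw [hH]
    exact one_le_mul_of_one_le_of_one_le (one_le_mul_of_one_le_of_one_le hAl hKp) hden1
  -- the Taylor coefficients
  have hΞ : ∀ (c : Fin T × Fin T) (ν : P.box), ∃ Ξ : PN, Bd (K * (P.L + 2 * T + P.l)) P.l H Ξ ∧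
      (den (2 * T) P.l : ℤ) • (D₁^[(c.1 : ℕ)] (D₂^[(c.2 : ℕ)] (Qn P ν))) =
        (((c.1 : ℕ).factorial * (c.2 : ℕ).factorial : ℕ) : ℤ) • Ξ := by
    intro c ν
    have hc : (c.1 : ℕ) + (c.2 : ℕ) ≤ 2 * T := by
      have := c.1.isLt
      have := c.2.isLt
      omega
    obtain ⟨Ξ, h1, h2⟩ := hT P ν ν.2 (2 * T) c.1 c.2 hc
    refine ⟨Ξ, h1.mono ?_ le_rfl ?_, h2⟩
    · exact Nat.mul_le_mul_right _ (by omega)
    · rw [hH]
      have hcc : ((C₁ : ℕ) : ℝ) ≤ (K : ℝ) := by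
        rw [hK]; push_cast; linarith
      gcongr
  choose Ξ hΞb hΞe using hΞ
  obtain ⟨p, hp0, hpd, hpl, hpz⟩ := hS P.box (Fin T × Fin T) (K * (P.L + 2 * T + P.l)) P.l H Ξ hH1 hΞb
    (by
      have : (0 : ℝ) < Fintype.card P.box := by
        rw [n7_card]; positivity
      exact_mod_cast this)
    (by
      rw [n7_card]
      simp only [Fintype.card_prod, Fintype.card_fin]
      push_cast
      have hTT : 0 ≤ (T : ℝ) ^ 2 := by positivity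
      have h1 : C₀ ≤ 11 + C₀ * (6 * K) + K * 4 + 2 * C₂ + C₀ := by linarith
      have : C₀ * ((T : ℝ) * T) ≤ (11 + C₀ * (6 * K) + K * 4 + 2 * C₂ + C₀) * (T : ℝ) ^ 2 := by
        rw [← pow_two]
        exact mul_le_mul_of_nonneg_right h1 hTT
      linarith)
  refine ⟨p, hp0, ?_, ?_, ?_⟩
  · intro ν
    refine (hpd ν).trans ?_
    refine mul_le_mul_of_nonneg_right ?_ hl0
    linarith
  · intro ν
    refine (hpl ν).trans ?_
    have hd1 : (P.d₁ : ℝ) ≤ P.l := by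
      have : P.d₁ ≤ P.l := by unfold Pr.l; omega
      exact_mod_cast this
    have hd2 : (P.d₂ : ℝ) ≤ P.l := by
      have : P.d₂ ≤ P.l := by unfold Pr.l; omega
      exact_mod_cast this
    have hd3 : (P.d₃ : ℝ) ≤ P.l := by
      have : P.d₃ ≤ P.l := by unfold Pr.l; omega
      exact_mod_cast this
    have hcard : (Fintype.card P.box : ℝ) ≤ Real.exp (10 * T) := by
      rw [n7_card]
      have h1 : (P.L : ℝ) + 1 ≤ 2 * (T : ℝ) := by linarith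
      have h2 : (P.d₁ : ℝ) + 1 ≤ 2 * (T : ℝ) := by linarith
      have h3 : (P.d₂ : ℝ) + 1 ≤ 2 * (T : ℝ) := by linarith
      have h4 : (P.d₃ : ℝ) + 1 ≤ 2 * (T : ℝ) := by linarith
      have h5 : 2 * (T : ℝ) ≤ Real.exp (2 * T) := by
        have := Real.add_one_le_exp (2 * (T : ℝ))
        linarith
      calc ((P.L : ℝ) + 1) ^ 2 * (((P.d₁ : ℝ) + 1) * (P.d₂ + 1) * (P.d₃ + 1))
          ≤ (2 * (T : ℝ)) ^ 2 * ((2 * (T : ℝ)) * (2 * (T : ℝ)) * (2 * (T : ℝ))) := by gcongr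
        _ = (2 * (T : ℝ)) ^ 5 := by ring
        _ ≤ (Real.exp (2 * T)) ^ 5 := pow_le_pow_left₀ (by positivity) h5 5
        _ = Real.exp (10 * T) := by
          rw [← Real.exp_nat_mul]
          congr 1
          push_cast
          ring
    have hCp : C₀ ^ (K * (P.L + 2 * T + P.l) + P.l + 1) ≤ Real.exp (C₀ * (6 * K * T)) := by
      refine n7_pow_le hC₀ _ _ ?_
      push_cast
      have e1 : (K : ℝ) * (P.L + 2 * T + P.l) ≤ K * (4 * T) := by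
        refine mul_le_mul_of_nonneg_left ?_ (by linarith)
        linarith
      have e3 : 2 * (T : ℝ) ≤ K * (2 * T) := le_mul_of_one_le_left (by linarith) hK1
      have e4 : 6 * (K : ℝ) * T = K * (4 * T) + K * (2 * T) := by ring
      linarith
    have hHp : H ≤ Real.exp T * Real.exp (K * (4 * T)) *
        Real.exp (C₂ * (2 * T) * (1 + Real.log (P.l + 1))) := by
      rw [hH]
      have h1 : P.A ^ P.l ≤ Real.exp T := hP.hA.trans (Real.exp_le_exp.mpr hLT')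
      have h2 : (K : ℝ) ^ (P.L + 2 * T + P.l) ≤ Real.exp (K * (4 * T)) := by
        refine n7_pow_le hK1 _ _ ?_
        push_cast
        linarith
      have h3 : (den (2 * T) P.l : ℝ) ≤ Real.exp (C₂ * (2 * T) * (1 + Real.log (P.l + 1))) := by
        have := hden (2 * T) P.l
        push_cast at this
        exact this
      exact mul_le_mul (mul_le_mul h1 h2 (by positivity) (by positivity)) h3 (by positivity)
        (by positivity)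
    have hH0 : 0 ≤ H := by linarith
    calc (Fintype.card P.box : ℝ) * C₀ ^ (K * (P.L + 2 * T + P.l) + P.l + 1) * H
        ≤ Real.exp (10 * T) * Real.exp (C₀ * (6 * K * T)) *
          (Real.exp T * Real.exp (K * (4 * T)) *
          Real.exp (C₂ * (2 * T) * (1 + Real.log (P.l + 1)))) := by
          have h00 : 0 ≤ C₀ ^ (K * (P.L + 2 * T + P.l) + P.l + 1) := by positivity
          exact mul_le_mul (mul_le_mul hcard hCp h00 (by positivity)) hHp hH0 (by positivity)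
      _ = Real.exp (11 * T + C₀ * (6 * K * T) + K * (4 * T) +
          C₂ * (2 * T) * (1 + Real.log (P.l + 1))) := by
          rw [← Real.exp_add, ← Real.exp_add, ← Real.exp_add, ← Real.exp_add]
          congr 1
          ring
      _ ≤ Real.exp ((11 + C₀ * (6 * K) + K * 4 + 2 * C₂ + C₀) * T *
          (1 + Real.log (P.l + 1))) := by
          apply Real.exp_le_exp.mpr
          have hT0 : (0 : ℝ) ≤ T := by linarith
          have hQ : 0 ≤ (11 + C₀ * (6 * K) + K * 4) * T := by positivity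
          have e1 : (11 + C₀ * (6 * K) + K * 4) * T ≤
              (11 + C₀ * (6 * K) + K * 4) * T * (1 + Real.log (P.l + 1)) :=
            le_mul_of_one_le_right hQ (by linarith)
          have e2 : 0 ≤ C₀ * T * (1 + Real.log (P.l + 1)) := by positivity
          have e3 : (11 + C₀ * (6 * K) + K * 4 + 2 * C₂ + C₀) * T * (1 + Real.log (P.l + 1)) =
              (11 + C₀ * (6 * K) + K * 4) * T * (1 + Real.log (P.l + 1)) +
              C₂ * (2 * T) * (1 + Real.log (P.l + 1)) + C₀ * T * (1 + Real.log (P.l + 1)) := by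
            ring
          have e4 : 11 * T + C₀ * (6 * K * T) + K * (4 * T) =
              (11 + C₀ * (6 * K) + K * 4) * T := by ring
          rw [e3]
          linarith
  · intro r s hrs
    have hn1 := n7_quarter_ne c₁.τ c₁.im
    have hn2 := n7_quarter_ne c₂.τ c₂.im
    refine GG_zero_of_FF c₁ c₂ P (cf ϑ Ω₁ Ω₂ P p) (1 / 4) (1 / 4) hn1 hn2 T ?_ r s hrs
    intro i j hij
    rw [FF_eq_lin c₁ c₂ h.s₁ h.s₂ ϑ Ω₁ Ω₂ h.ne₁ h.ne₂ P p]
    refine dd_lin_zero c₁.τ c₂.τ Ω₁ Ω₂ c₁.im c₂.im h.ne₁ h.ne₂ (1 / 4) (1 / 4) hn1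
      (n7_wp'_ne c₁.τ c₁.im) hn2 (n7_wp'_ne c₂.τ c₂.im) _ _ T ?_ i j hij
    intro i' j' hij'
    have hz := hpz (⟨i', by omega⟩, ⟨j', by omega⟩)
    have hd0 : ((den (2 * T) P.l : ℕ) : ℂ) ≠ 0 := by
      have := den_pos (2 * T) P.l
      exact_mod_cast this.ne'
    have he : ∀ ν : P.box, ((den (2 * T) P.l : ℕ) : ℂ) *
        evn c₁.τ c₂.τ Ω₁ Ω₂ (1 / 4) (1 / 4) (D₁^[i'] (D₂^[j'] (Qn P ν))) =
        ((i'.factorial * j'.factorial : ℕ) : ℂ) *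
        MvPolynomial.aeval (Sum.elim (vAn c₁.τ c₂.τ Ω₁ Ω₂ (1 / 4) (1 / 4))
          (vBn c₁.τ c₂.τ Ω₁ Ω₂ (1 / 4) (1 / 4))) (Ξ (⟨i', by omega⟩, ⟨j', by omega⟩) ν) := by
      intro ν
      have h1 := congrArg (MvPolynomial.aeval (Sum.elim (vAn c₁.τ c₂.τ Ω₁ Ω₂ (1 / 4) (1 / 4))
        (vBn c₁.τ c₂.τ Ω₁ Ω₂ (1 / 4) (1 / 4)))) (hΞe (⟨i', by omega⟩, ⟨j', by omega⟩) ν)
      rw [map_zsmul, map_zsmul, zsmul_eq_mul, zsmul_eq_mul] at h1
      simpa [evn] using h1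
    have hmul : ((den (2 * T) P.l : ℕ) : ℂ) * lin c₁.τ c₂.τ Ω₁ Ω₂
        (fun ν : P.box => Polynomial.aeval ϑ (p ν))
        (fun ν => D₁^[i'] (D₂^[j'] (Qn P ν))) (1 / 4) (1 / 4) = 0 := by
      unfold lin
      rw [Finset.mul_sum]
      calc ∑ ν : P.box, ((den (2 * T) P.l : ℕ) : ℂ) * (Polynomial.aeval ϑ (p ν) *
            evn c₁.τ c₂.τ Ω₁ Ω₂ (1 / 4) (1 / 4) (D₁^[i'] (D₂^[j'] (Qn P ν))))
          = ∑ ν : P.box, ((i'.factorial * j'.factorial : ℕ) : ℂ) * (Polynomial.aeval ϑ (p ν) *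
            MvPolynomial.aeval (Sum.elim (vAn c₁.τ c₂.τ Ω₁ Ω₂ (1 / 4) (1 / 4))
            (vBn c₁.τ c₂.τ Ω₁ Ω₂ (1 / 4) (1 / 4))) (Ξ (⟨i', by omega⟩, ⟨j', by omega⟩) ν)) := by
            refine Finset.sum_congr rfl fun ν _ => ?_
            rw [mul_left_comm, he ν, mul_left_comm]
        _ = 0 := by rw [← Finset.mul_sum, hz, mul_zero]
    exact (mul_eq_zero.mp hmul).resolve_left hd0

end Pool.Agent.MSN
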