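import Pool.Agent.Lib.MP_f58a57_nt.N.N7_Siegel
import Pool.Agent.Lib.MP_f58a57_nt.P.A6_Norm
import Pool.Agent.Lib.MP_f58a57_nt.P.F2b_Norm

/-! # N8: norm step (MP_f58a57_nt, algebraic invariants) -/

open Complex Filter Topology IntermediateField Polynomial

noncomputable section

namespace Pool.Agent.MSN

open Pool.Agent.MSP

theorem n8_not_dvd {k : ℕ} {a : ℤ} (ha : ¬ ((2 : ℤ) ^ k ∣ 2 * a)) : ¬ ((2 : ℤ) ^ k ∣ a) :=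
  fun h => ha (Dvd.dvd.mul_left h 2)

theorem n8_wp'_ne (c : Cv) (k : ℕ) (a : ℤ) (ha : ¬ ((2 : ℤ) ^ k ∣ 2 * a)) :
    deriv (wp c.τ (sE c.τ)) ((a : ℂ) / 2 ^ k) ≠ 0 := by
  refine wp'_ne c.τ c.im _ ?_
  have h := f2b_N0_ne c k (2 * a) ha
  have e : 2 * ((a : ℂ) / 2 ^ k) = ((2 * a : ℤ) : ℂ) / 2 ^ k := by push_cast; ring
  rw [e]
  exact h

/-- the sum of the integral Taylor coefficients -/
theorem n8_lin (τ₁ τ₂ Ω₁ Ω₂ : ℂ) {ι : Type} [Fintype ι] (c : ι → ℂ) (p Ξ : ι → PN) (t : ℂ) (d f : ℤ)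
    (h : ∀ ν, d • p ν = f • Ξ ν) :
    (d : ℂ) * lin τ₁ τ₂ Ω₁ Ω₂ c p t t =
      (f : ℂ) * ∑ ν, c ν * MvPolynomial.aeval (Sum.elim (vAn τ₁ τ₂ Ω₁ Ω₂ t t) (vBn τ₁ τ₂ Ω₁ Ω₂ t t)) (Ξ ν) := by
  unfold lin evn
  rw [Finset.mul_sum, Finset.mul_sum]
  refine Finset.sum_congr rfl fun ν _ => ?_
  have h1 := congrArg (MvPolynomial.aeval (Sum.elim (vAn τ₁ τ₂ Ω₁ Ω₂ t t) (vBn τ₁ τ₂ Ω₁ Ω₂ t t))) (h ν)
  rw [map_zsmul, map_zsmul, zsmul_eq_mul, zsmul_eq_mul] at h1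
  linear_combination (c ν) * h1

private theorem n8_ar1 {a b c d : ℝ} (h1 : 1 ≤ a) (h2 : 1 ≤ b) (h3 : 0 ≤ c) (h4 : 1 ≤ d) :
    1 ≤ a * b + c + d := by
  have h := one_le_mul_of_one_le_of_one_le h1 h2
  linarith only [h, h3, h4]

private theorem n8_ar2 {c e u w v : ℝ} (h2 : c * u ≤ c * e * u) (h3 : 0 ≤ v * (u + w)) :
    c * (u + e * w) ≤ (c * e + v) * (u + w) := by
  linear_combination h2 + h3

private theorem n8_ar3 {c e u w d : ℝ} (h4 : c * u ≤ c * e * u) (h5 : c * d ≤ c * e * d) :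
    c * (u + e * w + d) ≤ c * e * (u + d + w) := by
  linear_combination h4 + h5

/-- bounds for the coefficient parameter `H` -/
private theorem n8_logH {A B E T Cd W : ℝ} {l n dn : ℕ} (hA1 : 1 ≤ A) (hB1 : 1 ≤ B) (hd1 : (1 : ℝ) ≤ dn)
    (hlogA : Real.log (A ^ l) ≤ T) (h3T : (n : ℝ) ≤ 3 * T) (hlogden : Real.log (dn : ℝ) ≤ Cd * W)
    (hE : Real.log B = E) :
    Real.log (A ^ l * B ^ n * dn) ≤ T + 3 * E * T + Cd * W := by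
  have hA0 : A ^ l ≠ 0 := pow_ne_zero _ (zero_lt_one.trans_le hA1).ne'
  have hB0 : B ^ n ≠ 0 := pow_ne_zero _ (zero_lt_one.trans_le hB1).ne'
  have hE0 : 0 ≤ E := hE ▸ Real.log_nonneg hB1
  rw [Real.log_mul (mul_ne_zero hA0 hB0) (zero_lt_one.trans_le hd1).ne', Real.log_mul hA0 hB0, Real.log_pow B n, hE]
  have h1 : (n : ℝ) * E ≤ 3 * T * E := mul_le_mul_of_nonneg_right h3T hE0
  linarith only [h1, hlogA, hlogden]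

private theorem n8_main {C₀ Cd T W u lc lH lC : ℝ} {d l : ℕ} (hC0 : 0 ≤ C₀) (hlC0 : 0 ≤ lC) (hTW : T ≤ W) (hT1 : 1 ≤ T)
    (hl : (l : ℝ) ≤ T) (hlogc : lc ≤ 5 * T) (hlogH : lH ≤ T + 3 * lC * T + Cd * W) (hd : (d : ℝ) ≤ 3 * C₀ * T) :
    lc + lH + u + ((d : ℝ) + l + 1) ≤ u + (8 + 3 * lC + Cd + 3 * C₀) * W := by
  have h2 : (8 + 3 * lC + 3 * C₀) * T ≤ (8 + 3 * lC + 3 * C₀) * W :=
    mul_le_mul_of_nonneg_left hTW (by linarith only [hC0, hlC0])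
  linarith only [h2, hd, hlogH, hlogc, hl, hT1]

private theorem n8_abs {r T x : ℝ} (hr0 : 0 ≤ r) (hrT : r ≤ T) : -(r * x) ≤ T * |x| := by
  have h2 := mul_le_mul_of_nonneg_left (neg_abs_le x) hr0
  have h3 := mul_le_mul_of_nonneg_right hrT (abs_nonneg x)
  linarith only [h2, h3]

/-- from the value of the derivative to the value of the integral form -/
private theorem n8_logS {X S g₁ g₂ : ℂ} {dn r s : ℕ} {T Cd W : ℝ} (hSX : ((dn : ℕ) : ℂ) * X = g₁ ^ r * g₂ ^ s * S)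
    (hX0 : X ≠ 0) (hS0 : S ≠ 0) (hg1 : g₁ ≠ 0) (hg2 : g₂ ≠ 0) (hd1 : (1 : ℝ) ≤ dn)
    (hlogden : Real.log (dn : ℝ) ≤ Cd * W) (hr : (r : ℝ) ≤ T) (hs : (s : ℝ) ≤ T) :
    Real.log ‖S‖ ≤ Real.log ‖X‖ + Cd * W + (|Real.log ‖g₁‖| + |Real.log ‖g₂‖|) * T := by
  have e1 := congrArg norm hSX
  rw [norm_mul, norm_mul, norm_mul, norm_pow, norm_pow] at e1
  have e2 := congrArg Real.log e1
  have hXn : ‖X‖ ≠ 0 := norm_ne_zero_iff.2 hX0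
  have hSn : ‖S‖ ≠ 0 := norm_ne_zero_iff.2 hS0
  have hg1n : ‖g₁‖ ^ r ≠ 0 := pow_ne_zero _ (norm_ne_zero_iff.2 hg1)
  have hg2n : ‖g₂‖ ^ s ≠ 0 := pow_ne_zero _ (norm_ne_zero_iff.2 hg2)
  have hdn : ‖((dn : ℕ) : ℂ)‖ = (dn : ℝ) := Complex.norm_natCast _
  rw [hdn, Real.log_mul (zero_lt_one.trans_le hd1).ne' hXn, Real.log_mul (mul_ne_zero hg1n hg2n) hSn,
    Real.log_mul hg1n hg2n, Real.log_pow, Real.log_pow] at e2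
  have h1 := n8_abs (x := Real.log ‖g₁‖) (Nat.cast_nonneg r) hr
  have h2 := n8_abs (x := Real.log ‖g₂‖) (Nat.cast_nonneg s) hs
  linarith only [h1, h2, e2, hlogden]

private theorem n8_fin {K Cd C₁ E u w d T lX lS lQ : ℝ} {y : ℝ} (hC₁ : 0 ≤ C₁) (hK0 : 0 ≤ K) (hCd : 0 ≤ Cd)
    (hCE : C₁ ≤ C₁ * E)
    (hu : 0 ≤ u) (hd : 0 ≤ d) (hTW : T ≤ w)
    (hmain : y ≤ u + E * w + d) (hS : lS ≤ lX + Cd * w + K * T) (hQ : lQ ≤ lS + C₁ * y) :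
    lQ ≤ lX + (C₁ * E + K + Cd) * (u + d + w) := by
  have h1 : C₁ * y ≤ C₁ * (u + E * w + d) := mul_le_mul_of_nonneg_left hmain hC₁
  have h2 : K * T ≤ K * (u + d + w) := mul_le_mul_of_nonneg_left (by linarith only [hTW, hu, hd]) hK0
  have h2' : Cd * w ≤ Cd * (u + d + w) := mul_le_mul_of_nonneg_left (by linarith only [hu, hd]) hCd
  have h3 : C₁ * (u + E * w + d) ≤ C₁ * E * (u + d + w) :=
    n8_ar3 (mul_le_mul_of_nonneg_right hCE hu) (mul_le_mul_of_nonneg_right hCE hd)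
  have h6 : (C₁ * E + K + Cd) * (u + d + w) = C₁ * E * (u + d + w) + K * (u + d + w) + Cd * (u + d + w) := by ring
  rw [h6]
  linarith only [h1, h2, h2', h3, hS, hQ]

private theorem n8_logc {c T : ℝ} (hT : 1 ≤ T) (h : c ≤ (2 * T) ^ 5) (h1 : 1 ≤ c) : Real.log c ≤ 5 * T := by
  have hT0 : T ≠ 0 := (zero_lt_one.trans_le hT).ne'
  have hlogT : Real.log T ≤ T - 1 := Real.log_le_sub_one_of_pos (zero_lt_one.trans_le hT)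
  have h2 := Real.log_le_log (zero_lt_one.trans_le h1) h
  rw [Real.log_pow, Real.log_mul two_ne_zero hT0] at h2
  have h3 := f2b_log2
  have h4 : ((5 : ℕ) : ℝ) * (Real.log 2 + Real.log T) ≤ ((5 : ℕ) : ℝ) * T :=
    mul_le_mul_of_nonneg_left (by linarith only [hlogT, h3]) (Nat.cast_nonneg _)
  exact h2.trans h4

private theorem n8_prod {a b c : ℝ} (ha : 1 ≤ a) (hb : 1 ≤ b) (hc : 1 ≤ c) :
    Real.log (a * b * c) = Real.log a + Real.log b + Real.log c := by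
  have ha0 : a ≠ 0 := (zero_lt_one.trans_le ha).ne'
  have hb0 : b ≠ 0 := (zero_lt_one.trans_le hb).ne'
  rw [Real.log_mul (mul_ne_zero ha0 hb0) (zero_lt_one.trans_le hc).ne', Real.log_mul ha0 hb0]

private theorem n8_SX {gr gs dn L X f S : ℂ} (hf0 : f ≠ 0) (hlead : X = gr * gs * L) (h2 : dn * L = f * S) :
    dn * (X / f) = gr * gs * S := by
  rw [mul_div_assoc', div_eq_iff hf0, hlead]
  linear_combination (gr * gs) * h2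

/-- N8. PROOF. As `norm_step` (F2b_Norm). `x = a/2^k`, `2^k ∤ 2a`, so `N0 τ x ≠ 0`, `wp' x ≠ 0` (`th_real_ne`, `wp'_ne`). `norm_lemma` with `x = vAn (a/2^k)`, `y = vBn (a/2^k)`,
`Ξ ν` from `taylor_int` with `(T, r, s)`. By `FF_eq_lin` and `dd_lin_lead` `dd r s FF x x = gn₁^r gn₂^s lin(..) `, and `den · lin(..) = r! s! ∑ p_ν(ϑ) Ξ_ν(..)`, so
`ξ = ∑ p_ν(ϑ) Ξ_ν = den · dd r s FF x x/(r! s! gn₁^r gn₂^s) ≠ 0` and `log‖ξ‖ ≤ log‖dd r s FF x x/(r! s!)‖ + log den + C T`. -/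
theorem norm_stepN (c₁ c₂ : Cv) (Ω₁ Ω₂ ϑ : ℂ) (h : HypN c₁ c₂ Ω₁ Ω₂ ϑ) (k : ℕ) (a : ℤ) (ha : ¬ ((2 : ℤ) ^ k ∣ 2 * a)) :
    ∃ C : ℝ, 1 ≤ C ∧ ∀ (P : Pr), P.Good → ∀ (T δ : ℕ) (H' : ℝ) (p : P.box → Polynomial ℤ), P.L ≤ T → 1 ≤ H' →
      (∀ ν, (p ν).natDegree ≤ δ) → (∀ ν, len (p ν) ≤ H') → ∀ r s, r + s ≤ T →
      (∀ i j, i + j < r + s → dd i j (FF c₁ c₂ P (cf ϑ Ω₁ Ω₂ P p)) ((a : ℂ) / 2 ^ k) ((a : ℂ) / 2 ^ k) = 0) →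
      dd r s (FF c₁ c₂ P (cf ϑ Ω₁ Ω₂ P p)) ((a : ℂ) / 2 ^ k) ((a : ℂ) / 2 ^ k) ≠ 0 →
      ∃ Q : Polynomial ℤ, aeval ϑ Q ≠ 0 ∧ (Q.natDegree : ℝ) ≤ C * (δ + P.l) ∧
        Real.log (len Q) ≤ C * (Real.log H' + T * (1 + Real.log (P.l + 1))) ∧
        Real.log ‖aeval ϑ Q‖ ≤ Real.log ‖dd r s (FF c₁ c₂ P (cf ϑ Ω₁ Ω₂ P p)) ((a : ℂ) / 2 ^ k) ((a : ℂ) / 2 ^ k) /
            (r.factorial * s.factorial : ℂ)‖ +
          C * (Real.log H' + δ + T * (1 + Real.log (P.l + 1))) := by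
  have ha' := n8_not_dvd ha
  have hN1 : N0 c₁.τ ((a : ℂ) / 2 ^ k) ≠ 0 := f2b_N0_ne c₁ k a ha'
  have hN2 : N0 c₂.τ ((a : ℂ) / 2 ^ k) ≠ 0 := f2b_N0_ne c₂ k a ha'
  have hw1 : deriv (wp c₁.τ (sE c₁.τ)) ((a : ℂ) / 2 ^ k) ≠ 0 := n8_wp'_ne c₁ k a ha
  have hw2 : deriv (wp c₂.τ (sE c₂.τ)) ((a : ℂ) / 2 ^ k) ≠ 0 := n8_wp'_ne c₂ k a ha
  have hAlgx := vAn_alg c₁ c₂ Ω₁ Ω₂ ϑ h k a ha'
  have hAlgy := vBn_alg c₁ c₂ Ω₁ Ω₂ ϑ h k a ha'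
  generalize ((a : ℂ) / 2 ^ k) = t at *
  obtain ⟨C₁, hC₁, hnorm⟩ := norm_lemma ϑ h.tr (vAn c₁.τ c₂.τ Ω₁ Ω₂ t t) (vBn c₁.τ c₂.τ Ω₁ Ω₂ t t)
    hAlgx hAlgy
  obtain ⟨C₀, htay⟩ := taylor_int
  obtain ⟨Cd, hCd, hden⟩ := den_le
  have hg1 : gn c₁.τ Ω₁ t ≠ 0 := div_ne_zero hw1 (pow_ne_zero _ (f2b_pi_ne h.ne₁))
  have hg2 : gn c₂.τ Ω₂ t ≠ 0 := div_ne_zero hw2 (pow_ne_zero _ (f2b_pi_ne h.ne₂))
  obtain ⟨K, hK⟩ : ∃ K : ℝ, K = |Real.log ‖gn c₁.τ Ω₁ t‖| + |Real.log ‖gn c₂.τ Ω₂ t‖| := ⟨_, rfl⟩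
  have hK0 : 0 ≤ K := hK ▸ add_nonneg (abs_nonneg _) (abs_nonneg _)
  have hC0 : (0 : ℝ) ≤ C₀ := Nat.cast_nonneg _
  have hB1 : (1 : ℝ) ≤ (C₀ : ℝ) + 1 := by linarith only [hC0]
  obtain ⟨lC, hlC⟩ : ∃ lC : ℝ, Real.log ((C₀ : ℝ) + 1) = lC := ⟨_, rfl⟩
  have hlC0 : 0 ≤ lC := hlC ▸ Real.log_nonneg hB1
  obtain ⟨E, hE⟩ : ∃ E : ℝ, E = 8 + 3 * lC + Cd + 3 * C₀ := ⟨_, rfl⟩
  have hE1 : 1 ≤ E := by linarith only [hE, hlC0, hCd, hC0]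
  have hC₁0 : 0 ≤ C₁ := zero_le_one.trans hC₁
  have hCd0 : 0 ≤ Cd := zero_le_one.trans hCd
  have hCE : C₁ ≤ C₁ * E := le_mul_of_one_le_right hC₁0 hE1
  refine ⟨C₁ * E + K + Cd, n8_ar1 hC₁ hE1 hK0 hCd, ?_⟩
  intro P hP T δ H' p hLT hH' hdeg hlen r s hrs hvan hne
  have hT1 : 1 ≤ T := hP.hL.trans hLT
  have hTr : (1 : ℝ) ≤ T := Nat.one_le_cast.2 hT1
  have hlT : P.l ≤ T := hP.hl.trans hLT
  have hlTr : (P.l : ℝ) ≤ T := Nat.cast_le.2 hlT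
  have hδ0 : (0 : ℝ) ≤ δ := Nat.cast_nonneg _
  have hlogH' : 0 ≤ Real.log H' := Real.log_nonneg hH'
  have hll : 0 ≤ Real.log ((P.l : ℝ) + 1) := Real.log_nonneg (le_add_of_nonneg_left (Nat.cast_nonneg _))
  obtain ⟨W, hW⟩ : ∃ W : ℝ, (T : ℝ) * (1 + Real.log (P.l + 1)) = W := ⟨_, rfl⟩
  have hTW : (T : ℝ) ≤ W := hW ▸ le_mul_of_one_le_right (zero_le_one.trans hTr) (le_add_of_nonneg_right hll)
  have hW0 : 0 ≤ W := (zero_le_one.trans hTr).trans hTW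
  have hA1 : (1 : ℝ) ≤ P.A := by
    unfold Pr.A
    have h1 := abs_nonneg (P.a₁ : ℝ)
    have h2 := abs_nonneg (P.a₂ : ℝ)
    have h3 := abs_nonneg (P.b₁ : ℝ)
    have h4 := abs_nonneg (P.b₂ : ℝ)
    linarith only [h1, h2, h3, h4]
  -- the integral Taylor coefficients
  choose Ξ hΞ1 hΞ2 using fun ν : P.box => htay P ν.1 ν.2 T r s hrs
  have hdpos := den_pos T P.l
  have hd1 : (1 : ℝ) ≤ den T P.l := Nat.one_le_cast.2 hdpos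
  have hlogden : Real.log (den T P.l) ≤ Cd * W := by
    have h1 := Real.log_le_log (zero_lt_one.trans_le hd1) (hden T P.l)
    rw [Real.log_exp, mul_assoc, hW] at h1
    exact h1
  have hAP : (0 : ℝ) ≤ P.A ^ P.l := pow_nonneg (zero_le_one.trans hA1) _
  have hH1 : 1 ≤ P.A ^ P.l * ((C₀ : ℝ) + 1) ^ (P.L + T + P.l) * den T P.l := one_le_mul_of_one_le_of_one_le
    (one_le_mul_of_one_le_of_one_le (one_le_pow₀ hA1) (one_le_pow₀ hB1)) hd1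
  have hBd : ∀ ν : P.box, Bd (C₀ * (P.L + T + P.l)) P.l (P.A ^ P.l * ((C₀ : ℝ) + 1) ^ (P.L + T + P.l) * den T P.l) (Ξ ν) :=
    fun ν => (hΞ1 ν).mono le_rfl le_rfl
      (mul_le_mul_of_nonneg_right (mul_le_mul_of_nonneg_left
        (pow_le_pow_left₀ hC0 (le_add_of_nonneg_right zero_le_one) _) hAP) (zero_le_one.trans hd1))
  have h3T : ((P.L + T + P.l : ℕ) : ℝ) ≤ 3 * T := by
    have h : P.L + T + P.l ≤ 3 * T := by omega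
    have h' : ((P.L + T + P.l : ℕ) : ℝ) ≤ ((3 * T : ℕ) : ℝ) := Nat.cast_le.2 h
    rwa [Nat.cast_mul] at h'
  have hlogA : Real.log (P.A ^ P.l) ≤ T := by
    have h1 := Real.log_le_log (pow_pos (zero_lt_one.trans_le hA1) _) hP.hA
    rw [Real.log_exp] at h1
    exact h1.trans (Nat.cast_le.2 hLT)
  have hlogH := n8_logH hA1 hB1 hd1 hlogA h3T hlogden hlC
  generalize P.A ^ P.l * ((C₀ : ℝ) + 1) ^ (P.L + T + P.l) * (den T P.l : ℝ) = H at *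
  obtain ⟨S, hS⟩ : ∃ S : ℂ, ∑ ν : P.box, aeval ϑ (p ν) * MvPolynomial.aeval
    (Sum.elim (vAn c₁.τ c₂.τ Ω₁ Ω₂ t t) (vBn c₁.τ c₂.τ Ω₁ Ω₂ t t)) (Ξ ν) = S := ⟨_, rfl⟩
  have hFF := FF_eq_lin c₁ c₂ h.s₁ h.s₂ ϑ Ω₁ Ω₂ h.ne₁ h.ne₂ P p
  have hlead := dd_lin_lead c₁.τ c₂.τ Ω₁ Ω₂ c₁.im c₂.im h.ne₁ h.ne₂ t t hN1 hw1 hN2 hw2
    (fun ν : P.box => Polynomial.aeval ϑ (p ν)) (fun ν : P.box => Qn P ν) (r + s)
    (fun i j hij => by rw [← hFF]; exact hvan i j hij) r s rfl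
  have hlin := n8_lin c₁.τ c₂.τ Ω₁ Ω₂ (fun ν : P.box => Polynomial.aeval ϑ (p ν))
    (fun ν : P.box => D₁^[r] (D₂^[s] (Qn P ν))) Ξ t (den T P.l : ℤ) ((r.factorial * s.factorial : ℕ) : ℤ) hΞ2
  rw [← hFF] at hlead
  rw [hS, Int.cast_natCast, Int.cast_natCast, Nat.cast_mul] at hlin
  have hf0 : ((r.factorial : ℂ) * s.factorial) ≠ 0 :=
    mul_ne_zero (Nat.cast_ne_zero.2 r.factorial_ne_zero) (Nat.cast_ne_zero.2 s.factorial_ne_zero)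
  have hdc : ((den T P.l : ℕ) : ℂ) ≠ 0 := Nat.cast_ne_zero.2 hdpos.ne'
  have hSX := n8_SX hf0 hlead hlin
  have hX0 := div_ne_zero hne hf0
  have hS0 : S ≠ 0 := by
    intro h0
    rw [h0, mul_zero] at hSX
    exact (mul_ne_zero hdc hX0) hSX
  obtain ⟨Q, hQ0, hQ1, hQ2, hQ3⟩ := hnorm P.box (C₀ * (P.L + T + P.l)) P.l δ H H' p Ξ hH1 hH' hBd hdeg hlen
    (fun h0 => hS0 (hS.symm.trans h0))
  rw [hS] at hQ3
  obtain ⟨hc1, hc2⟩ := f2b_card P hP hLT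
  have hlogc := n8_logc hTr hc1 hc2
  have h1 : ((C₀ * (P.L + T + P.l) : ℕ) : ℝ) ≤ 3 * C₀ * T := by
    rw [Nat.cast_mul]
    have := mul_le_mul_of_nonneg_left h3T hC0
    linarith only [this]
  have hmain := n8_main (u := Real.log H') hC0 hlC0 hTW hTr hlTr hlogc hlogH h1
  rw [← n8_prod hc2 hH1 hH', ← hE] at hmain
  rw [hW]
  refine ⟨Q, hQ0, hQ1.trans ?_, (hQ2.trans (mul_le_mul_of_nonneg_left hmain hC₁0)).trans ?_, ?_⟩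
  · exact mul_le_mul_of_nonneg_right (by linarith only [hCE, hK0, hCd0])
      (add_nonneg hδ0 (Nat.cast_nonneg _))
  · have h3 := n8_ar2 (w := W) (v := K + Cd) (mul_le_mul_of_nonneg_right hCE hlogH')
      (mul_nonneg (add_nonneg hK0 hCd0) (add_nonneg hlogH' hW0))
    rwa [← add_assoc] at h3
  · have hrs' : ((r + s : ℕ) : ℝ) ≤ T := Nat.cast_le.2 hrs
    rw [Nat.cast_add] at hrs'
    have hr0 : (0 : ℝ) ≤ r := Nat.cast_nonneg _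
    have hs0 : (0 : ℝ) ≤ s := Nat.cast_nonneg _
    have hlogS := n8_logS hSX hX0 hS0 hg1 hg2 hd1 hlogden (T := T) (by linarith only [hrs', hs0])
      (by linarith only [hrs', hr0])
    rw [← hK] at hlogS
    exact n8_fin hC₁0 hK0 hCd0 hCE hlogH' hδ0 hTW (by linarith only [hmain]) hlogS hQ3

end Pool.Agent.MSN
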